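import Pool.Agent.Lib.MP_50bb2e_nt.Hgp.Prd

/-!
MP_50bb2e_nt, board HGP (helper87). Infinitely many pairwise disjoint blocks of primes all of whose
finite unions are good, from a Lipschitz system.
-/

open Finset

namespace Pool.Agent.Lib.MP_50bb2e_nt.Hgp

open Pool.Agent.Lib.MP_50bb2e_nt.Qtw (Dyadic Lip Dif)
open Pool.Agent.Lib.MP_50bb2e_nt.Low (HasLip)

variable {v : AbsoluteValue ℂ ℝ}

theorem lip_nonneg {A : Set ℕ} {ℓ : Finset ℕ → ℝ} (h : HasLip v A 1 ℓ) {C : Finset ℕ}
    (hC : (C : Set ℕ) ⊆ A) : 0 ≤ ℓ C := by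
  obtain ⟨F, _, hF⟩ := h C hC
  rw [← hF C (Finset.Subset.refl _)]
  exact v.nonneg _

/-- ultrametric inequality for finite sums -/
theorem na_sum (hv : Dyadic v) {κ : Type} (s : Finset κ) (f : κ → ℂ) (C : ℝ) (hC : 0 ≤ C)
    (h : ∀ i ∈ s, v (f i) ≤ C) : v (∑ i ∈ s, f i) ≤ C := by
  classical
  induction s using Finset.induction_on with
  | empty => simpa using hC
  | insert a s ha ih =>
    rw [Finset.sum_insert ha]
    exact (hv.1 _ _).trans (max_le (h _ (mem_insert_self _ _))
      (ih fun i hi => h i (mem_insert_of_mem hi)))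

/-- a nonempty good set inside an infinite set of primes -/
theorem exists_block (hv : Dyadic v) {A : Set ℕ} {ℓ : Finset ℕ → ℝ} (h0 : 0 < ℓ ∅)
    (h : HasLip v A 1 ℓ) {P : Set ℕ} (hP : P.Infinite) (hPA : P ⊆ A) :
    ∃ S : Finset ℕ, S.Nonempty ∧ (S : Set ℕ) ⊆ P ∧ ℓ S ≠ 0 := by
  obtain ⟨j, hj⟩ := exists_pow_lt_of_lt_one h0 hv.2
  obtain ⟨T, hTP, hTc⟩ := hP.exists_subset_card_eq j
  by_contra hcon
  push Not at hcon
  obtain ⟨F, hF, hFℓ⟩ := h T (hTP.trans hPA)
  have h1 := hF ∅ T (by simp) (Finset.Subset.refl _) (Finset.disjoint_empty_left _)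
  rw [hTc, mul_one] at h1
  have h2 : Dif F ∅ T = F ∅ := by
    unfold Dif
    rw [Finset.sum_eq_single ∅]
    · simp
    · intro S hS hne
      have hST := Finset.mem_powerset.1 hS
      have h3 : v (F S) = 0 := by
        rw [hFℓ S hST]
        exact hcon S (Finset.nonempty_iff_ne_empty.2 hne)
          ((Finset.coe_subset.2 hST).trans hTP)
      have h4 : F S = 0 := by
        by_contra hne'
        exact (v.pos hne').ne' h3
      rw [Finset.empty_union, h4, mul_zero]
    · intro hS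
      exact absurd (Finset.empty_mem_powerset T) hS
  rw [h2, hFℓ ∅ (Finset.empty_subset _)] at h1
  linarith

/-- shifting a Lipschitz system by a fixed set -/
theorem hasLip_shift {A : Set ℕ} {ℓ : Finset ℕ → ℝ} (h : HasLip v A 1 ℓ) (C : Finset ℕ)
    (hC : (C : Set ℕ) ⊆ A) {A' : Set ℕ} (hA' : A' ⊆ A) (hd : ∀ p ∈ A', p ∉ C) :
    HasLip v A' 1 (fun S => ℓ (S ∪ C)) := by
  intro T hT
  have hTC : ((T ∪ C : Finset ℕ) : Set ℕ) ⊆ A := by
    intro p hp
    rcases Finset.mem_union.1 (Finset.mem_coe.1 hp) with hp | hp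
    · exact hA' (hT hp)
    · exact hC hp
  obtain ⟨F, hF, hFℓ⟩ := h (T ∪ C) hTC
  refine ⟨fun S => F (S ∪ C), ?_, fun S hS => ?_⟩
  · intro C' U hC' hU hCU
    have h1 := hF (C' ∪ C) U (Finset.union_subset_union_left hC')
      (hU.trans Finset.subset_union_left) (by
        rw [Finset.disjoint_left] at hCU ⊢
        intro p hp hpU
        rcases Finset.mem_union.1 hp with hp | hp
        · exact hCU hp hpU
        · exact hd p (hT (Finset.mem_coe.2 (hU hpU))) hp)
    convert h1 using 2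
    unfold Dif
    apply Finset.sum_congr rfl
    intro S _
    rw [Finset.union_right_comm]
  · exact hFℓ (S ∪ C) (Finset.union_subset_union_left hS)

/-- one step: a new block which is good together with all members of a finite family -/
theorem exists_block_fam (hv : Dyadic v) {A : Set ℕ} {ℓ : Finset ℕ → ℝ} (h : HasLip v A 1 ℓ)
    (W : Finset (Finset ℕ)) (hW : ∀ C ∈ W, (C : Set ℕ) ⊆ A ∧ ℓ C ≠ 0) {P : Set ℕ}
    (hP : P.Infinite) (hPA : P ⊆ A) :
    ∃ S : Finset ℕ, S.Nonempty ∧ (S : Set ℕ) ⊆ P ∧ (∀ C ∈ W, Disjoint S C) ∧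
      ∀ C ∈ W, ℓ (S ∪ C) ≠ 0 := by
  classical
  set R : Finset ℕ := W.biUnion id with hR
  have hRm : ∀ C ∈ W, C ⊆ R := fun C hC => Finset.subset_biUnion_of_mem id hC
  have hA' : A \ (R : Set ℕ) ⊆ A := Set.sdiff_subset
  have h1 : HasLip v (A \ (R : Set ℕ)) 1 (fun S => ∏ C ∈ W, ℓ (S ∪ C)) :=
    hasLip_prod hv W (fun C S => ℓ (S ∪ C)) fun C hC =>
      hasLip_shift h C (hW C hC).1 hA' fun p hp hpC => hp.2 (Finset.mem_coe.2 (hRm C hC hpC))
  have h0 : 0 < (fun S : Finset ℕ => ∏ C ∈ W, ℓ (S ∪ C)) ∅ := by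
    apply Finset.prod_pos
    intro C hC
    rw [Finset.empty_union]
    exact lt_of_le_of_ne (lip_nonneg h (hW C hC).1) (hW C hC).2.symm
  have hP' : (P \ (R : Set ℕ)).Infinite := hP.sdiff R.finite_toSet
  obtain ⟨S, s1, s2, s3⟩ := exists_block hv h0 h1 hP'
    (fun p hp => ⟨hPA hp.1, hp.2⟩)
  refine ⟨S, s1, fun p hp => (s2 hp).1, ?_, ?_⟩
  · intro C hC
    rw [Finset.disjoint_left]
    intro p hp hpC
    exact (s2 (Finset.mem_coe.2 hp)).2 (Finset.mem_coe.2 (hRm C hC hpC))
  · exact Finset.prod_ne_zero_iff.1 s3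

/-- BLOCKS: for every sequence of infinite sets `P m` of good primes there are pairwise disjoint
nonempty finite sets `S m` in `P m` all of whose finite unions are good -/
theorem blocks (hv : Dyadic v) {A : Set ℕ} {ℓ : Finset ℕ → ℝ} (h0 : 0 < ℓ ∅)
    (h : HasLip v A 1 ℓ) (P : ℕ → Set ℕ) (hP : ∀ m, (P m).Infinite ∧ P m ⊆ A) :
    ∃ S : ℕ → Finset ℕ, (∀ m, (S m).Nonempty ∧ (S m : Set ℕ) ⊆ P m) ∧
      (Pairwise fun i k => Disjoint (S i) (S k)) ∧ ∀ I : Finset ℕ, ℓ (I.biUnion S) ≠ 0 := by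
  classical
  let Ok : Finset (Finset ℕ) → Prop := fun W => ∀ C ∈ W, (C : Set ℕ) ⊆ A ∧ ℓ C ≠ 0
  have step : ∀ (W : Finset (Finset ℕ)) (m : ℕ), ∃ S : Finset ℕ, Ok W → S.Nonempty ∧
      (S : Set ℕ) ⊆ P m ∧ (∀ C ∈ W, Disjoint S C) ∧ ∀ C ∈ W, ℓ (S ∪ C) ≠ 0 := by
    intro W m
    by_cases hW : Ok W
    · obtain ⟨S, hS⟩ := exists_block_fam hv h W hW (hP m).1 (hP m).2
      exact ⟨S, fun _ => hS⟩
    · exact ⟨∅, fun h => absurd h hW⟩
  choose f hf using step
  let s : ℕ → Finset (Finset ℕ) := fun m =>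
    Nat.rec {∅} (fun m W => W ∪ W.image (fun C => f W m ∪ C)) m
  have hs : ∀ m, s (m + 1) = s m ∪ (s m).image (fun C => f (s m) m ∪ C) := fun m => rfl
  have hok : ∀ m, Ok (s m) := by
    intro m
    induction m with
    | zero =>
      intro C hC
      have hC' : C = ∅ := Finset.mem_singleton.1 hC
      subst hC'
      exact ⟨by simp, h0.ne'⟩
    | succ m ih =>
      intro C hC
      rw [hs] at hC
      rcases Finset.mem_union.1 hC with hC | hC
      · exact ih C hC
      · obtain ⟨C', hC', rfl⟩ := Finset.mem_image.1 hC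
        obtain ⟨_, f2, _, f4⟩ := hf (s m) m ih
        refine ⟨?_, f4 C' hC'⟩
        intro p hp
        rcases Finset.mem_union.1 (Finset.mem_coe.1 hp) with hp | hp
        · exact (hP m).2 (f2 hp)
        · exact (ih C' hC').1 hp
  have hmono : Monotone s := monotone_nat_of_le_succ fun m => by
    rw [hs]
    exact Finset.subset_union_left
  have hemp : ∀ m, ∅ ∈ s m := fun m => hmono (Nat.zero_le m) (Finset.mem_singleton_self _)
  refine ⟨fun m => f (s m) m, fun m => ⟨(hf (s m) m (hok m)).1, (hf (s m) m (hok m)).2.1⟩,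
    ?_, ?_⟩
  · have key : ∀ i k, i < k → Disjoint (f (s i) i) (f (s k) k) := by
      intro i k hik
      refine Disjoint.symm ((hf (s k) k (hok k)).2.2.1 _ ?_)
      have h1 : f (s i) i ∈ s (i + 1) := by
        rw [hs]
        exact Finset.mem_union_right _ (Finset.mem_image.2 ⟨∅, hemp i, Finset.union_empty _⟩)
      exact hmono hik h1
    intro i k hik
    rcases lt_or_gt_of_ne hik with h | h
    · exact key i k h
    · exact (key k i h).symm
  · have key : ∀ m, ∀ I : Finset ℕ, (∀ i ∈ I, i < m) → I.biUnion (fun m => f (s m) m) ∈ s m := by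
      intro m
      induction m with
      | zero =>
        intro I hI
        have : I = ∅ := by
          rw [Finset.eq_empty_iff_forall_notMem]
          intro i hi
          exact absurd (hI i hi) (Nat.not_lt_zero i)
        subst this
        exact Finset.mem_singleton_self _
      | succ m ih =>
        intro I hI
        rw [hs]
        by_cases hm : m ∈ I
        · apply Finset.mem_union_right
          refine Finset.mem_image.2 ⟨(I.erase m).biUnion (fun m => f (s m) m), ih _ ?_, ?_⟩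
          · intro i hi
            have h1 := hI i (Finset.mem_of_mem_erase hi)
            have h2 := Finset.ne_of_mem_erase hi
            omega
          · conv_rhs => rw [← Finset.insert_erase hm, Finset.biUnion_insert]
        · apply Finset.mem_union_left
          apply ih
          intro i hi
          have h1 := hI i hi
          have h2 : i ≠ m := fun h => hm (h ▸ hi)
          omega
    intro I
    have hI : ∀ i ∈ I, i < I.sup id + 1 := fun i hi =>
      Nat.lt_succ_of_le (Finset.le_sup (f := id) hi)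
    exact (hok _ _ (key _ I hI)).2

/-- clause (3) over the field of rational numbers: for every sequence of infinite sets `P m` of
primes of `A` there are pairwise coprime square-free `D m > 1`, products of primes of `P m`, such
that every finite product of the `D m` has the property `R` -/
def Blk3 (A : Set ℕ) (R : ℕ → Prop) : Prop :=
  ∀ P : ℕ → Set ℕ, (∀ m, (P m).Infinite ∧ P m ⊆ A) → ∃ D : ℕ → ℕ,
    (∀ m, 1 < D m ∧ Squarefree (D m) ∧ ∀ p ∈ (D m).primeFactors, p ∈ P m) ∧
    (Pairwise fun i k => (D i).Coprime (D k)) ∧ ∀ I : Finset ℕ, R (∏ i ∈ I, D i)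

theorem blk3 (hv : Dyadic v) {A : Set ℕ} (hA : ∀ p ∈ A, p.Prime) {ℓ : Finset ℕ → ℝ}
    (h0 : 0 < ℓ ∅) (h : HasLip v A 1 ℓ) (R : ℕ → Prop)
    (hR : ∀ S : Finset ℕ, (S : Set ℕ) ⊆ A → ℓ S ≠ 0 → R (∏ p ∈ S, p)) : Blk3 A R := by
  classical
  intro P hP
  obtain ⟨S, s1, s2, s3⟩ := blocks hv h0 h P hP
  have hSA : ∀ m, ∀ p ∈ S m, p.Prime := fun m p hp =>
    hA p ((hP m).2 ((s1 m).2 (Finset.mem_coe.2 hp)))
  refine ⟨fun m => ∏ p ∈ S m, p, ?_, ?_, ?_⟩
  · intro m
    refine ⟨?_, ?_, ?_⟩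
    · obtain ⟨p, hp⟩ := (s1 m).1
      have h1 : p ∣ ∏ q ∈ S m, q := Finset.dvd_prod_of_mem _ hp
      have h2 : 0 < ∏ q ∈ S m, q := Finset.prod_pos fun q hq => (hSA m q hq).pos
      exact lt_of_lt_of_le (hSA m p hp).one_lt (Nat.le_of_dvd h2 h1)
    · have key : ∀ T : Finset ℕ, (∀ p ∈ T, p.Prime) → Squarefree (∏ p ∈ T, p) := by
        intro T hT
        induction T using Finset.induction_on with
        | empty => simp
        | insert a T ha ih =>
          rw [Finset.prod_insert ha, Nat.squarefree_mul_iff]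
          refine ⟨?_, (hT a (mem_insert_self _ _)).prime.squarefree,
            ih fun p hp => hT p (mem_insert_of_mem hp)⟩
          apply Nat.Coprime.prod_right
          intro q hq
          exact (Nat.coprime_primes (hT a (mem_insert_self _ _))
            (hT q (mem_insert_of_mem hq))).2 fun h => ha (h ▸ hq)
      exact key _ (hSA m)
    · intro p hp
      rw [Nat.primeFactors_prod (hSA m)] at hp
      exact (s1 m).2 (Finset.mem_coe.2 hp)
  · intro i k hik
    apply Nat.Coprime.prod_left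
    intro p hp
    apply Nat.Coprime.prod_right
    intro q hq
    exact (Nat.coprime_primes (hSA i p hp) (hSA k q hq)).2 fun h =>
      Finset.disjoint_left.1 (s2 hik) hp (h ▸ hq)
  · intro I
    have h1 : ∏ i ∈ I, ∏ p ∈ S i, p = ∏ p ∈ I.biUnion S, p := by
      rw [Finset.prod_biUnion]
      intro i _ k _ hik
      exact s2 hik
    rw [h1]
    refine hR _ ?_ (s3 I)
    intro p hp
    obtain ⟨i, _, hi⟩ := Finset.mem_biUnion.1 (Finset.mem_coe.1 hp)
    exact (hP i).2 ((s1 i).2 (Finset.mem_coe.2 hi))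

end Pool.Agent.Lib.MP_50bb2e_nt.Hgp
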