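import Pool.Agent.Lib.MP_50bb2e_nt.Low.Iface

/-!
MP_50bb2e_nt, board HGP (helper73). A dyadic absolute value of `ℂ` exists; many units which are
pairwise incongruent; generic linear forms.
-/

open Cardinal

namespace Pool.Agent.Lib.MP_50bb2e_nt.Hgp

open Pool.Agent.Lib.MP_50bb2e_nt.Qtw (Dyadic)

theorem mk_padic_le (ℓ : ℕ) [Fact ℓ.Prime] : #ℚ_[ℓ] ≤ 𝔠 := by
  have h1 : #(ℕ → ℚ) = 𝔠 := by simp
  have h2 : #(CauSeq ℚ (padicNorm ℓ)) ≤ #(ℕ → ℚ) := mk_subtype_le _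
  have h3 : #ℚ_[ℓ] ≤ #(CauSeq ℚ (padicNorm ℓ)) := mk_quotient_le
  exact h3.trans (h2.trans h1.le)

theorem mk_padic (ℓ : ℕ) [Fact ℓ.Prime] : #ℚ_[ℓ] = 𝔠 :=
  le_antisymm (mk_padic_le ℓ) (continuum_le_cardinal_of_nontriviallyNormedField ℚ_[ℓ])

theorem mk_padicAlgCl (ℓ : ℕ) [Fact ℓ.Prime] : #(PadicAlgCl ℓ) = 𝔠 := by
  refine le_antisymm ?_ ?_
  · have := Algebra.IsAlgebraic.cardinalMk_le_max ℚ_[ℓ] (PadicAlgCl ℓ)
    rw [mk_padic, max_eq_left aleph0_le_continuum] at this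
    exact this
  · rw [← mk_padic ℓ]
    exact mk_le_of_injective (algebraMap ℚ_[ℓ] (PadicAlgCl ℓ)).injective

/-- there is a nonarchimedean absolute value of `ℂ` with `|2| < 1` -/
theorem exists_dyadic : ∃ v : AbsoluteValue ℂ ℝ, Dyadic v := by
  have : Fact (Nat.Prime 2) := ⟨Nat.prime_two⟩
  have hc : #ℂ = #(PadicAlgCl 2) := by rw [mk_padicAlgCl, mk_complex]
  obtain ⟨e⟩ := Cardinal.eq.1 hc
  have : CharZero (PadicAlgCl 2) :=
    charZero_of_injective_algebraMap (algebraMap ℚ_[2] (PadicAlgCl 2)).injective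
  obtain ⟨f⟩ := IsAlgClosed.ringEquiv_of_equiv_of_charZero (K := ℂ) (L := PadicAlgCl 2)
    (by rw [mk_complex]; exact aleph0_lt_continuum) ⟨e⟩
  refine ⟨(NormedField.toAbsoluteValue (PadicAlgCl 2)).comp (f := (f : ℂ →+* PadicAlgCl 2))
    f.injective, ?_, ?_⟩
  · intro x y
    have h := PadicAlgCl.isNonarchimedean 2 (f x) (f y)
    have h1 : ‖f (x + y)‖ ≤ max ‖f x‖ ‖f y‖ := by rw [map_add]; exact h
    exact h1
  · have h := PadicAlgCl.valuation_p 2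
    rw [PadicAlgCl.valuation_def] at h
    have h2 : ‖((2 : ℕ) : PadicAlgCl 2)‖ = 1 / ((2 : ℕ) : ℝ) := by
      have := congrArg NNReal.toReal h
      simpa using this
    have h3 : ‖f (2 : ℂ)‖ < 1 := by
      have e1 : f (2 : ℂ) = ((2 : ℕ) : PadicAlgCl 2) := by
        have := map_natCast f 2
        push_cast at this ⊢
        exact this
      rw [e1, h2]
      norm_num
    exact h3

end Pool.Agent.Lib.MP_50bb2e_nt.Hgp
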