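import Pool.Agent.Lib.MP_50bb2e_nt.Hgp.Sys

/-!
MP_50bb2e_nt, board HGP (helper73). Points of elliptic curves over multiquadratic towers.
-/

open Finset

namespace Pool.Agent.Lib.MP_50bb2e_nt.Hgp

noncomputable section

/-- the sign of an automorphism at a square root of an element of the base field -/
theorem sq_cases {F Ω : Type} [Field F] [Field Ω] [Algebra F Ω] {x : Ω}
    (hx : ∃ q : F, x ^ 2 = algebraMap F Ω q) (g : Ω ≃ₐ[F] Ω) : g x = x ∨ g x = -x := by
  obtain ⟨q, hq⟩ := hx
  have h1 : g x ^ 2 = x ^ 2 := by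
    rw [← map_pow, hq]
    exact g.commutes q
  exact sq_eq_sq_iff_eq_or_eq_neg.1 h1

open Classical in
/-- the sign character of a square root -/
def sgn {F Ω : Type} [Field F] [Field Ω] [Algebra F Ω] (x : Ω)
    (hx : ∃ q : F, x ^ 2 = algebraMap F Ω q) : (Ω ≃ₐ[F] Ω) →* ℤˣ where
  toFun g := if g x = x then 1 else -1
  map_one' := by simp
  map_mul' := by
    intro g h
    have hgh : (g * h) x = g (h x) := rfl
    rw [hgh]
    rcases sq_cases hx h with h1 | h1
    · rw [h1]
      simp
    · rw [h1, map_neg]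
      rcases sq_cases hx g with h2 | h2
      · rw [h2]
        simp
      · rw [h2, neg_neg]
        by_cases h3 : -x = x
        · simp [h3]
        · simp [h3]

open Classical in
theorem sgn_eq_one {F Ω : Type} [Field F] [Field Ω] [Algebra F Ω] {x : Ω}
    {hx : ∃ q : F, x ^ 2 = algebraMap F Ω q} {g : Ω ≃ₐ[F] Ω} : sgn x hx g = 1 ↔ g x = x := by
  change (if g x = x then (1 : ℤˣ) else -1) = 1 ↔ g x = x
  by_cases h : g x = x
  · simp [h]
  · simp only [h, if_false, iff_false]
    decide

open Classical in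
theorem sgn_neg {F Ω : Type} [Field F] [Field Ω] [Algebra F Ω] [CharZero Ω] {x : Ω}
    {hx : ∃ q : F, x ^ 2 = algebraMap F Ω q} {g : Ω ≃ₐ[F] Ω} (h0 : x ≠ 0) (h : g x = -x) :
    sgn x hx g = -1 := by
  change (if g x = x then (1 : ℤˣ) else -1) = -1
  rw [if_neg]
  rw [h]
  intro h1
  have : (2 : Ω) * x = 0 := by linear_combination -h1
  rcases mul_eq_zero.1 this with h2 | h2
  · exact two_ne_zero h2
  · exact h0 h2

/-! ### elements of order two -/

section

variable {Γ M : Type} [Group Γ] [AddCommGroup M] [DistribMulAction Γ M]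

theorem two_step (H : Γ → Prop) (hH : ∀ g h, H g → H h → H (g * h)) (hinv : ∀ g, H g → H g⁻¹)
    (s : Γ →* ℤˣ) (h0 : ∀ m : M, (∀ g, H g → g • m = m) → (2 : ℤ) • m = 0 → m = 0) (m : M)
    (hm : ∀ g, H g → s g = 1 → g • m = m) (h2 : (2 : ℤ) • m = 0) : m = 0 := by
  by_cases hτ : ∃ τ, H τ ∧ s τ = -1
  · obtain ⟨τ, hτ, hs⟩ := hτ
    have hτm : (2 : ℤ) • τ • m = 0 := by rw [← smul_comm τ, h2, smul_zero]
    have h1 : m + τ • m = 0 := by
      apply h0
      · intro g hg
        rw [smul_add, ← mul_smul]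
        rcases Int.units_eq_one_or (s g) with hsg | hsg
        · have e1 : (τ⁻¹ * g * τ) • m = m := by
            refine hm _ (hH _ _ (hH _ _ (hinv _ hτ) hg) hτ) ?_
            rw [map_mul, map_mul, map_inv, hsg, mul_one, inv_mul_cancel]
          have e2 : g * τ = τ * (τ⁻¹ * g * τ) := by group
          rw [hm g hg hsg, e2, mul_smul, e1]
        · have e1 : (g * τ) • m = m := by
            refine hm _ (hH _ _ hg hτ) ?_
            rw [map_mul, hsg, hs]
            decide
          have e2 : (τ⁻¹ * g) • m = m := by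
            refine hm _ (hH _ _ (hinv _ hτ) hg) ?_
            rw [map_mul, map_inv, hsg, hs]
            decide
          have e3 : g • m = τ • m := by
            have e4 : g = τ * (τ⁻¹ * g) := by group
            rw [e4, mul_smul, e2]
          rw [e1, e3, add_comm]
      · rw [smul_add, h2, hτm, add_zero]
    have h3 : τ • m = m := by
      have h4 : m + m = 0 := by rw [← two_zsmul, h2]
      have h5 : τ • m = -m := by rw [eq_neg_iff_add_eq_zero, add_comm]; exact h1
      rw [h5]
      exact (eq_neg_of_add_eq_zero_left h4).symm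
    apply h0 _ _ h2
    intro g hg
    rcases Int.units_eq_one_or (s g) with hsg | hsg
    · exact hm g hg hsg
    · have e2 : (τ⁻¹ * g) • m = m := by
        refine hm _ (hH _ _ (hinv _ hτ) hg) ?_
        rw [map_mul, map_inv, hsg, hs]
        decide
      have e4 : g = τ * (τ⁻¹ * g) := by group
      rw [e4, mul_smul, e2, h3]
  · push Not at hτ
    refine h0 m (fun g hg => hm g hg ?_) h2
    rcases Int.units_eq_one_or (s g) with h | h
    · exact h
    · exact absurd h (hτ g hg)

theorem two_all (s : ℕ → Γ →* ℤˣ) (s0 : Γ →* ℤˣ)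
    (h0 : ∀ m : M, (∀ g : Γ, g • m = m) → (2 : ℤ) • m = 0 → m = 0) (T : Finset ℕ) :
    ∀ m : M, (∀ g, s0 g = 1 → (∀ p ∈ T, s p g = 1) → g • m = m) → (2 : ℤ) • m = 0 → m = 0 := by
  induction T using Finset.induction_on with
  | empty =>
    intro m hm h2
    refine two_step (fun _ => True) (fun _ _ _ _ => trivial) (fun _ _ => trivial) s0
      (fun m hm h2 => h0 m (fun g => hm g trivial) h2) m ?_ h2
    intro g _ hg
    exact hm g hg (fun p hp => absurd hp (Finset.notMem_empty _))
  | insert p T hp ih =>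
    intro m hm h2
    refine two_step (fun g => s0 g = 1 ∧ ∀ q ∈ T, s q g = 1) ?_ ?_ (s p)
      (fun m hm h2 => ih m (fun g h1 h3 => hm g ⟨h1, h3⟩) h2) m ?_ h2
    · rintro g h ⟨hg, hg'⟩ ⟨hh, hh'⟩
      refine ⟨by rw [map_mul, hg, hh, one_mul], fun q hq => ?_⟩
      rw [map_mul, hg' q hq, hh' q hq, one_mul]
    · rintro g ⟨hg, hg'⟩
      refine ⟨by rw [map_inv, hg, inv_one], fun q hq => ?_⟩
      rw [map_inv, hg' q hq, inv_one]
    · rintro g ⟨hg, hg'⟩ hp'
      refine hm g hg fun q hq => ?_
      rcases Finset.mem_insert.1 hq with rfl | hq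
      · exact hp'
      · exact hg' q hq

end

/-! ### the points -/

section

open WeierstrassCurve WeierstrassCurve.Affine

variable {F Ω : Type} [Field F] [Field Ω] [Algebra F Ω]

/-- the group of the points of `E` over the field `L` -/
abbrev Pt {F : Type} [Field F] (E : WeierstrassCurve F) (L : Type) [Field L] [Algebra F L] : Type :=
  WeierstrassCurve.Affine.Point (E.baseChange L)

variable [DecidableEq Ω]

/-- the action of automorphisms on points -/
instance galAct (E : WeierstrassCurve F) : DistribMulAction (Ω ≃ₐ[F] Ω) (Pt E Ω) where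
  smul g P := Point.map (W' := E) (g : Ω →ₐ[F] Ω) P
  one_smul P := by
    change Point.map (W' := E) ((1 : Ω ≃ₐ[F] Ω) : Ω →ₐ[F] Ω) P = P
    cases P <;> rfl
  mul_smul g h P := by
    change Point.map (W' := E) ((g * h : Ω ≃ₐ[F] Ω) : Ω →ₐ[F] Ω) P =
      Point.map (W' := E) (g : Ω →ₐ[F] Ω) (Point.map (W' := E) (h : Ω →ₐ[F] Ω) P)
    cases P <;> rfl
  smul_zero g := rfl
  smul_add g P Q := map_add (Point.map (W' := E) (g : Ω →ₐ[F] Ω)) P Q

theorem galAct_def (E : WeierstrassCurve F) (g : Ω ≃ₐ[F] Ω) (P : Pt E Ω) :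
    g • P = Point.map (W' := E) (g : Ω →ₐ[F] Ω) P := rfl

/-- Galois descent for points -/
theorem descent [CharZero F] [IsGalois F Ω] (E : WeierstrassCurve F) (L : IntermediateField F Ω)
    [DecidableEq L] (P : Pt E Ω) (hP : ∀ g : Ω ≃ₐ[F] Ω, (∀ x ∈ L, g x = x) → g • P = P) :
    ∃ Q : Pt E L, Point.map (W' := E) L.val Q = P := by
  rcases P with _ | ⟨x, y, h⟩
  · exact ⟨0, rfl⟩
  · have hfix : ∀ g : Ω ≃ₐ[F] Ω, (∀ x ∈ L, g x = x) → g x = x ∧ g y = y := by
      intro g hg
      have h1 := hP g hg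
      rw [galAct_def, Point.map_some] at h1
      rw [Point.some.injEq] at h1
      exact h1
    have hmem : ∀ u : Ω, (∀ g : Ω ≃ₐ[F] Ω, (∀ x ∈ L, g x = x) → g u = u) → u ∈ L := by
      intro u hu
      rw [← InfiniteGalois.fixedField_fixingSubgroup L, IntermediateField.mem_fixedField_iff]
      intro g hg
      exact hu g fun x hx => (IntermediateField.mem_fixingSubgroup_iff L g).1 hg x hx
    have hx : x ∈ L := hmem x fun g hg => (hfix g hg).1
    have hy : y ∈ L := hmem y fun g hg => (hfix g hg).2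
    have hns : (E.baseChange L).toAffine.Nonsingular (⟨x, hx⟩ : L) (⟨y, hy⟩ : L) := by
      rw [← WeierstrassCurve.Affine.baseChange_nonsingular (W := E) (f := L.val)
        L.val.injective]
      exact h
    exact ⟨Point.some _ _ hns, rfl⟩

/-- no rational point of order two: no such point fixed by all automorphisms -/
theorem two_of_rat [CharZero F] [IsGalois F Ω] [DecidableEq F] (E : WeierstrassCurve F)
    (h : ∀ Q : Pt E F, 2 • Q = 0 → Q = 0) (Q : Pt E Ω) (hQ : ∀ g : Ω ≃ₐ[F] Ω, g • Q = Q)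
    (h2 : (2 : ℤ) • Q = 0) : Q = 0 := by
  classical
  let f : Pt E (⊥ : IntermediateField F Ω) →+ Pt E Ω :=
    Point.map (W' := E) (⊥ : IntermediateField F Ω).val
  let e : Pt E (⊥ : IntermediateField F Ω) →+ Pt E F :=
    Point.map (W' := E) (IntermediateField.botEquiv F Ω).toAlgHom
  have hf : Function.Injective f := Point.map_injective _
  have he : Function.Injective e := Point.map_injective _
  obtain ⟨Q0, hQ0⟩ := descent E (⊥ : IntermediateField F Ω) Q (fun g _ => hQ g)
  have hQ1 : f Q0 = Q := hQ0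
  have h3 : 2 • Q0 = 0 := by
    apply hf
    rw [map_nsmul, map_zero, hQ1, ← natCast_zsmul]
    exact h2
  have h4 : e Q0 = 0 := by
    apply h
    rw [← map_nsmul, h3, map_zero]
  have h5 : Q0 = 0 := by
    apply he
    rw [h4, map_zero]
  rw [← hQ1, h5, map_zero]

end

end

end Pool.Agent.Lib.MP_50bb2e_nt.Hgp
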