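import Pool.Agent.Lib.MP_50bb2e_nt.Hgp.Gen

/-!
MP_50bb2e_nt, board HGP (helper73). The dyadic content in a finitely generated abelian group
without elements of order 2, and additive functions which attain it.
-/

open Finset

namespace Pool.Agent.Lib.MP_50bb2e_nt.Hgp

open Pool.Agent.Lib.MP_50bb2e_nt.Qtw (Dyadic)

noncomputable section

variable {A : Type} [AddCommGroup A]

/-- an odd multiple of `m` lies in `2^k A` -/
def Dv (m : A) (k : ℕ) : Prop := ∃ n : ℤ, Odd n ∧ ∃ q : A, n • m = ((2 : ℤ) ^ k) • q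

theorem Dv.pred {m : A} {k : ℕ} (h : Dv m (k + 1)) : Dv m k := by
  obtain ⟨n, hn, q, hq⟩ := h
  refine ⟨n, hn, (2 : ℤ) • q, ?_⟩
  rw [hq, ← mul_smul, pow_succ]

theorem Dv.le {m : A} {k l : ℕ} (h : Dv m k) (hl : l ≤ k) : Dv m l := by
  induction k with
  | zero =>
    obtain rfl : l = 0 := by omega
    exact h
  | succ k ih =>
    rcases Nat.lt_or_ge l (k + 1) with h' | h'
    · exact ih h.pred (by omega)
    · obtain rfl : l = k + 1 := by omega
      exact h

theorem dv_odd {m : A} {k : ℕ} {n : ℤ} (hn : Odd n) : Dv (n • m) k ↔ Dv m k := by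
  constructor
  · rintro ⟨n', hn', q, hq⟩
    exact ⟨n' * n, hn'.mul hn, q, by rw [mul_smul, hq]⟩
  · rintro ⟨n', hn', q, hq⟩
    exact ⟨n', hn', n • q, by rw [smul_comm, hq, smul_comm]⟩

/-- elements of finite order have odd order -/
theorem odd_order (h2 : ∀ a : A, (2 : ℤ) • a = 0 → a = 0) {a : A} {n : ℕ} (hn : 0 < n)
    (ha : n • a = 0) : ∃ m : ℤ, Odd m ∧ m • a = 0 := by
  obtain ⟨e, m, hm, rfl⟩ := Nat.exists_eq_two_pow_mul_odd hn.ne'
  refine ⟨(m : ℤ), by exact_mod_cast hm, ?_⟩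
  have h : ∀ e : ℕ, ∀ b : A, ((2 : ℤ) ^ e) • b = 0 → b = 0 := by
    intro e
    induction e with
    | zero => intro b hb; simpa using hb
    | succ e ih =>
      intro b hb
      rw [pow_succ, mul_smul] at hb
      exact h2 _ (ih _ hb)
  apply h e
  rw [← mul_smul]
  rw [← natCast_zsmul] at ha
  push_cast at ha
  exact ha

/-- torsion elements are divisible -/
theorem dv_torsion (h2 : ∀ a : A, (2 : ℤ) • a = 0 → a = 0) {a : A} {n : ℕ} (hn : 0 < n)
    (ha : n • a = 0) (k : ℕ) : Dv a k := by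
  obtain ⟨m, hm, h⟩ := odd_order h2 hn ha
  exact ⟨m, hm, 0, by rw [h, smul_zero]⟩

/-- coordinates modulo torsion -/
theorem exists_coord [Module.Finite ℤ A] :
    ∃ (r : ℕ) (κ : A →+ (Fin r → ℤ)), Function.Surjective κ ∧
      ∀ a, κ a = 0 → ∃ n : ℕ, 0 < n ∧ n • a = 0 := by
  have : Module.Free ℤ (A ⧸ Submodule.torsion ℤ A) := inferInstance
  let b := Module.finBasis ℤ (A ⧸ Submodule.torsion ℤ A)
  refine ⟨_, (b.equivFun.toLinearMap.comp (Submodule.mkQ _)).toAddMonoidHom, ?_, ?_⟩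
  · intro x
    obtain ⟨a, ha⟩ := Submodule.mkQ_surjective (Submodule.torsion ℤ A) (b.equivFun.symm x)
    refine ⟨a, ?_⟩
    change b.equivFun (Submodule.mkQ _ a) = x
    rw [ha, LinearEquiv.apply_symm_apply]
  · intro a ha
    change b.equivFun (Submodule.mkQ _ a) = 0 at ha
    rw [LinearEquiv.map_eq_zero_iff, Submodule.mkQ_apply, Submodule.Quotient.mk_eq_zero,
      Submodule.mem_torsion_iff] at ha
    obtain ⟨n, hn⟩ := ha
    have hn0 : (n : ℤ) ≠ 0 := nonZeroDivisors.coe_ne_zero n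
    refine ⟨(n : ℤ).natAbs, Int.natAbs_pos.2 hn0, ?_⟩
    have h1 : (n : ℤ) • a = 0 := hn
    rw [← natCast_zsmul]
    rcases abs_choice (n : ℤ) with h | h
    · rw [Int.natCast_natAbs, h, h1]
    · rw [Int.natCast_natAbs, h, neg_smul, h1, neg_zero]

/-- exactly divisible elements exist: an element of infinite order is not infinitely divisible -/
theorem exists_nu [Module.Finite ℤ A] {a : A} (ha : ∀ n : ℕ, 0 < n → n • a ≠ 0) :
    ∃ k : ℕ, Dv a k ∧ ¬ Dv a (k + 1) := by
  obtain ⟨r, κ, -, hκ⟩ := exists_coord (A := A)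
  have hne : κ a ≠ 0 := by
    intro h
    obtain ⟨n, hn, h'⟩ := hκ a h
    exact ha n hn h'
  obtain ⟨i, hi⟩ : ∃ i, κ a i ≠ 0 := by
    by_contra hcon
    push Not at hcon
    exact hne (funext hcon)
  -- large powers are excluded
  have hlarge : ∃ k : ℕ, ¬ Dv a k := by
    refine ⟨(κ a i).natAbs, ?_⟩
    rintro ⟨n, hn, q, hq⟩
    have h1 : n * κ a i = 2 ^ (κ a i).natAbs * κ q i := by
      have := congrArg (fun x => κ x i) hq
      simpa [map_zsmul] using this
    have h2 : (2 : ℤ) ^ (κ a i).natAbs ∣ n * κ a i := ⟨_, h1⟩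
    have h3 : IsCoprime ((2 : ℤ) ^ (κ a i).natAbs) n := by
      refine IsCoprime.pow_left ?_
      obtain ⟨m, rfl⟩ := hn
      exact ⟨-m, 1, by ring⟩
    have h4 := h3.dvd_of_dvd_mul_left h2
    have h5 := Int.le_of_dvd (abs_pos.2 hi) ((dvd_abs _ _).2 h4)
    have h6 : (κ a i).natAbs < 2 ^ (κ a i).natAbs := Nat.lt_two_pow_self
    have h7 : (((κ a i).natAbs : ℕ) : ℤ) < ((2 ^ (κ a i).natAbs : ℕ) : ℤ) := by exact_mod_cast h6
    rw [Int.natCast_natAbs] at h7
    push_cast at h7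
    linarith
  classical
  have hf := Nat.find_spec hlarge
  have hpos : Nat.find hlarge ≠ 0 := by
    intro h
    rw [h] at hf
    exact hf ⟨1, odd_one, a, by simp⟩
  obtain ⟨k, hk⟩ := Nat.exists_eq_succ_of_ne_zero hpos
  refine ⟨k, ?_, ?_⟩
  · by_contra hcon
    exact Nat.find_min hlarge (m := k) (by omega) hcon
  · rw [hk] at hf
    exact hf

/-- additive functions attaining the dyadic content at finitely many elements -/
theorem exists_fun {v : AbsoluteValue ℂ ℝ} (hv : Dyadic v) [Module.Finite ℤ A]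
    (h2 : ∀ a : A, (2 : ℤ) • a = 0 → a = 0) (X : Finset A) :
    ∃ f : A →+ ℂ, (∀ a, v (f a) ≤ 1) ∧ ∀ x ∈ X, ∀ k, Dv x k → ¬ Dv x (k + 1) →
      v (f x) = v 2 ^ k := by
  classical
  obtain ⟨r, κ, hsurj, hκ⟩ := exists_coord (A := A)
  -- the primitive vector of an element
  have hprim : ∀ x : A, ∀ k, Dv x k → ¬ Dv x (k + 1) → ∃ w : Fin r → ℤ,
      (∃ i, Odd (w i)) ∧ ∀ i, κ x i = 2 ^ k * w i := by
    intro x k hk hk1
    obtain ⟨n, hn, q, hq⟩ := hk
    have hdvd : ∀ i, (2 : ℤ) ^ k ∣ κ x i := by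
      intro i
      have h1 : n * κ x i = 2 ^ k * κ q i := by
        have := congrArg (fun x => κ x i) hq
        simpa [map_zsmul] using this
      have h2 : (2 : ℤ) ^ k ∣ n * κ x i := ⟨_, h1⟩
      have h3 : IsCoprime ((2 : ℤ) ^ k) n := by
        refine IsCoprime.pow_left ?_
        obtain ⟨m, rfl⟩ := hn
        exact ⟨-m, 1, by ring⟩
      exact h3.dvd_of_dvd_mul_left h2
    choose w hw using hdvd
    refine ⟨w, ?_, hw⟩
    by_contra hcon
    push Not at hcon
    have hev : ∀ i, ∃ u, w i = u + u := fun i => Int.not_odd_iff_even.1 (hcon i)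
    choose u hu using hev
    obtain ⟨q', hq'⟩ := hsurj u
    apply hk1
    have h3 : κ (x - ((2 : ℤ) ^ (k + 1)) • q') = 0 := by
      rw [map_sub, map_zsmul, hq']
      funext i
      simp only [Pi.sub_apply, Pi.smul_apply, Pi.zero_apply, smul_eq_mul]
      rw [hw i, hu i]
      ring
    obtain ⟨n', hn', h4⟩ := hκ _ h3
    obtain ⟨m, hm, h5⟩ := odd_order h2 hn' h4
    refine ⟨m, hm, m • q', ?_⟩
    rw [smul_sub, sub_eq_zero] at h5
    rw [h5, smul_comm]
  -- the set of vectors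
  let W : Finset (Fin r → ℤ) := X.biUnion (fun x =>
    if h : ∃ (k : ℕ) (w : Fin r → ℤ), Dv x k ∧ ¬ Dv x (k + 1) ∧ (∃ i, Odd (w i)) ∧
      ∀ i, κ x i = 2 ^ k * w i
    then {h.choose_spec.choose} else ∅)
  have hWodd : ∀ w ∈ W, ∃ i, Odd (w i) := by
    intro w hw
    obtain ⟨x, -, hx⟩ := Finset.mem_biUnion.1 hw
    split_ifs at hx with h
    · rw [Finset.mem_singleton] at hx
      rw [hx]
      exact h.choose_spec.choose_spec.2.2.1
    · exact absurd hx (Finset.notMem_empty _)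
  obtain ⟨u, hu, hval⟩ := exists_form hv W hWodd
  refine ⟨{ toFun := fun a => ∑ i, ((κ a i : ℤ) : ℂ) * u i
            map_zero' := by simp
            map_add' := by
              intro a b
              rw [← Finset.sum_add_distrib]
              refine Finset.sum_congr rfl fun i _ => ?_
              rw [map_add, Pi.add_apply]
              push_cast
              ring }, ?_, ?_⟩
  · intro a
    change v (∑ i, ((κ a i : ℤ) : ℂ) * u i) ≤ 1
    have : ∀ s : Finset (Fin r), v (∑ i ∈ s, ((κ a i : ℤ) : ℂ) * u i) ≤ 1 := by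
      intro s
      induction s using Finset.induction_on with
      | empty => simp
      | insert i s hi ih =>
        rw [Finset.sum_insert hi]
        refine (hv.1 _ _).trans (max_le ?_ ih)
        rw [v.map_mul]
        exact mul_le_one₀ (v_int_le hv _) (v.nonneg _) (hu _)
    exact this _
  · intro x hx k hk hk1
    change v (∑ i, ((κ x i : ℤ) : ℂ) * u i) = v 2 ^ k
    obtain ⟨w', hw', hw2⟩ := hprim x k hk hk1
    have hex : ∃ (k : ℕ) (w : Fin r → ℤ), Dv x k ∧ ¬ Dv x (k + 1) ∧ (∃ i, Odd (w i)) ∧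
      ∀ i, κ x i = 2 ^ k * w i :=
      ⟨k, w', hk, hk1, hw', hw2⟩
    have hmem : hex.choose_spec.choose ∈ W := by
      refine Finset.mem_biUnion.2 ⟨x, hx, ?_⟩
      rw [dif_pos hex]
      exact Finset.mem_singleton_self _
    obtain ⟨h1, h3, h4, h5⟩ := hex.choose_spec.choose_spec
    have hkk : hex.choose = k := by
      rcases lt_trichotomy hex.choose k with h | h | h
      · exact absurd (hk.le (show hex.choose + 1 ≤ k from h)) h3
      · exact h
      · exact absurd (h1.le (show k + 1 ≤ hex.choose from h)) hk1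
    have h6 := hval _ hmem
    obtain ⟨w, hwdef⟩ : ∃ w : Fin r → ℤ, w = hex.choose_spec.choose := ⟨_, rfl⟩
    rw [← hwdef] at h5 h6
    rw [hkk] at h5
    have h7 : ∑ i, ((κ x i : ℤ) : ℂ) * u i = 2 ^ k * ∑ i, ((w i : ℤ) : ℂ) * u i := by
      rw [Finset.mul_sum]
      refine Finset.sum_congr rfl fun i _ => ?_
      rw [h5 i]
      push_cast
      ring
    rw [h7, v.map_mul, h6, mul_one, v.map_pow]

end

end Pool.Agent.Lib.MP_50bb2e_nt.Hgp
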