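import Pool.Agent.Lib.MP_50bb2e_nt.Qtw.Iface

/-!
MP_50bb2e_nt, board HGP (helper73). Units which are pairwise incongruent; generic linear forms.
-/

open Finset

namespace Pool.Agent.Lib.MP_50bb2e_nt.Hgp

open Pool.Agent.Lib.MP_50bb2e_nt.Qtw (Dyadic)

section

variable {v : AbsoluteValue ℂ ℝ}

theorem v_nat_le (hv : Dyadic v) (n : ℕ) : v (n : ℂ) ≤ 1 := by
  induction n with
  | zero => simp
  | succ n ih =>
    push_cast
    refine (hv.1 _ _).trans (max_le ih ?_)
    rw [map_one]

theorem v_int_le (hv : Dyadic v) (n : ℤ) : v (n : ℂ) ≤ 1 := by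
  obtain ⟨m, rfl | rfl⟩ := n.eq_nat_or_neg
  · exact_mod_cast v_nat_le hv m
  · push_cast
    rw [v.map_neg]
    exact_mod_cast v_nat_le hv m

/-- the ultrametric principle -/
theorem v_add_eq (hv : Dyadic v) {x y : ℂ} (h : v x < v y) : v (x + y) = v y := by
  refine le_antisymm ((hv.1 _ _).trans (max_le h.le le_rfl)) ?_
  have h1 : v y ≤ max (v (x + y)) (v (-x)) := by
    have := hv.1 (x + y) (-x)
    rwa [show x + y + -x = y by ring] at this
  rw [v.map_neg] at h1
  rcases le_max_iff.1 h1 with h2 | h2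
  · exact h2
  · exact absurd h2 (not_le.2 h)

theorem v_even_lt (hv : Dyadic v) {n : ℤ} (h : Even n) : v (n : ℂ) < 1 := by
  obtain ⟨m, rfl⟩ := h
  have e : ((m + m : ℤ) : ℂ) = 2 * (m : ℂ) := by push_cast; ring
  rw [e, v.map_mul]
  exact mul_lt_one_of_nonneg_of_lt_one_left (v.nonneg _) hv.2 (v_int_le hv m)

theorem v_odd (hv : Dyadic v) {n : ℤ} (h : Odd n) : v (n : ℂ) = 1 := by
  obtain ⟨m, rfl⟩ := h
  have h1 : v ((2 * m : ℤ) : ℂ) < v (1 : ℂ) := by
    rw [map_one]
    exact v_even_lt hv ⟨m, by ring⟩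
  have := v_add_eq hv h1
  rw [map_one] at this
  push_cast at this ⊢
  exact this

/-- many units which are pairwise incongruent -/
theorem exists_units (hv : Dyadic v) (N : ℕ) :
    ∃ t : ℕ → ℂ, (∀ j, v (t j) = 1) ∧ ∀ i < N, ∀ j < N, i ≠ j → v (t i - t j) = 1 := by
  have hn : (2 * N + 1) ≠ 0 := by omega
  set μ : ℂ := Complex.exp (2 * Real.pi * Complex.I / ((2 * N + 1 : ℕ) : ℂ)) with hμ
  have hp : IsPrimitiveRoot μ (2 * N + 1) := Complex.isPrimitiveRoot_exp _ hn
  have hv1 : v μ = 1 := by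
    have h1 : v μ ^ (2 * N + 1) = 1 := by
      rw [← v.map_pow, hp.pow_eq_one, map_one]
    exact (pow_eq_one_iff_of_nonneg (v.nonneg _) hn).1 h1
  have hpow : ∀ j : ℕ, v (μ ^ j) = 1 := fun j => by rw [v.map_pow, hv1, one_pow]
  have hle : ∀ j : ℕ, v (1 - μ ^ j) ≤ 1 := fun j => by
    rw [sub_eq_add_neg]
    refine (hv.1 _ _).trans (max_le (by rw [map_one]) ?_)
    rw [v.map_neg, hpow]
  have hprod := IsPrimitiveRoot.prod_one_sub_pow_eq_order (R := ℂ) (n := 2 * N) hp
  have h1 : ∏ k ∈ range (2 * N), v (1 - μ ^ (k + 1)) = 1 := by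
    rw [← map_prod, hprod]
    have := v_odd hv (n := 2 * (N : ℤ) + 1) ⟨N, rfl⟩
    push_cast at this ⊢
    exact this
  have hone : ∀ k < 2 * N, v (1 - μ ^ (k + 1)) = 1 := by
    intro k hk
    refine le_antisymm (hle _) ?_
    have h2 : ∏ k ∈ range (2 * N), v (1 - μ ^ (k + 1)) ≤ v (1 - μ ^ (k + 1)) := by
      rw [← Finset.mul_prod_erase _ _ (mem_range.2 hk)]
      exact mul_le_of_le_one_right (v.nonneg _)
        (Finset.prod_le_one (fun i _ => v.nonneg _) (fun i _ => hle _))
    rw [h1] at h2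
    exact h2
  have key : ∀ i j : ℕ, i < j → j < N → v (μ ^ i - μ ^ j) = 1 := by
    intro i j hij hj
    obtain ⟨k, rfl⟩ := Nat.exists_eq_add_of_lt hij
    have e : μ ^ i - μ ^ (i + k + 1) = μ ^ i * (1 - μ ^ (k + 1)) := by ring
    rw [e, v.map_mul, hpow, one_mul]
    exact hone k (by omega)
  refine ⟨fun j => μ ^ j, hpow, fun i hi j hj hij => ?_⟩
  rcases lt_or_gt_of_ne hij with h | h
  · exact key i j h hj
  · have := key j i h hi
    rw [← v.map_neg] at this
    rwa [neg_sub] at this

/-- generic linear forms -/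
theorem exists_form (hv : Dyadic v) {r : ℕ} (W : Finset (Fin r → ℤ))
    (hW : ∀ w ∈ W, ∃ i, Odd (w i)) :
    ∃ u : Fin r → ℂ, (∀ i, v (u i) ≤ 1) ∧ ∀ w ∈ W, v (∑ i, (w i : ℂ) * u i) = 1 := by
  classical
  have hsum : ∀ (u : Fin r → ℂ), (∀ i, v (u i) ≤ 1) → ∀ w : Fin r → ℤ,
      v (∑ i, (w i : ℂ) * u i) ≤ 1 := by
    intro u hu w
    have : ∀ s : Finset (Fin r), v (∑ i ∈ s, (w i : ℂ) * u i) ≤ 1 := by
      intro s
      induction s using Finset.induction_on with
      | empty => simp
      | insert a s ha ih =>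
        rw [Finset.sum_insert ha]
        refine (hv.1 _ _).trans (max_le ?_ ih)
        rw [v.map_mul]
        exact mul_le_one₀ (v_int_le hv _) (v.nonneg _) (hu _)
    exact this _
  induction W using Finset.induction_on with
  | empty => exact ⟨fun _ => 0, fun _ => by simp, by simp⟩
  | insert w0 W hw0 ih =>
    obtain ⟨u, hu, hval⟩ := ih (fun w hw => hW w (mem_insert_of_mem hw))
    by_cases h0 : v (∑ i, (w0 i : ℂ) * u i) = 1
    · refine ⟨u, hu, fun w hw => ?_⟩
      rcases mem_insert.1 hw with rfl | hw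
      · exact h0
      · exact hval w hw
    · have hlt : v (∑ i, (w0 i : ℂ) * u i) < 1 := lt_of_le_of_ne (hsum u hu w0) h0
      obtain ⟨i0, hi0⟩ := hW w0 (mem_insert_self _ _)
      obtain ⟨t, ht, htt⟩ := exists_units hv (W.card + 1)
      -- the bad index of a vector
      have hbad : ∀ w ∈ W, ∀ i < W.card + 1, ∀ j < W.card + 1,
          v (∑ i, (w i : ℂ) * u i + t i * (w i0 : ℂ)) < 1 →
          v (∑ i, (w i : ℂ) * u i + t j * (w i0 : ℂ)) < 1 → i = j := by
        intro w hw i hi j hj h1 h2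
        by_contra hij
        have h3 : v ((t i - t j) * (w i0 : ℂ)) < 1 := by
          have e : (t i - t j) * (w i0 : ℂ) = (∑ i, (w i : ℂ) * u i + t i * (w i0 : ℂ)) +
              -(∑ i, (w i : ℂ) * u i + t j * (w i0 : ℂ)) := by ring
          rw [e]
          refine lt_of_le_of_lt (hv.1 _ _) (max_lt h1 ?_)
          rw [v.map_neg]
          exact h2
        rw [v.map_mul, htt i hi j hj hij, one_mul] at h3
        have h4 : v (t i * (w i0 : ℂ)) < v (∑ i, (w i : ℂ) * u i) := by
          rw [v.map_mul, ht, one_mul, hval w hw]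
          exact h3
        have h5 := v_add_eq hv h4
        rw [add_comm, h5, hval w hw] at h1
        exact lt_irrefl _ h1
      have hex : ∃ j < W.card + 1, ∀ w ∈ W,
          ¬ v (∑ i, (w i : ℂ) * u i + t j * (w i0 : ℂ)) < 1 := by
        by_contra hcon
        push Not at hcon
        choose! f hf using hcon
        have hinj : Set.InjOn f (Finset.range (W.card + 1) : Set ℕ) := by
          intro i hi j hj hij
          rw [Finset.coe_range, Set.mem_Iio] at hi hj
          have h1 := hf i hi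
          have h2 := hf j hj
          rw [← hij] at h2
          exact hbad (f i) h1.1 i hi j hj h1.2 h2.2
        have hmap : ∀ i ∈ Finset.range (W.card + 1), f i ∈ W := fun i hi =>
          (hf i (mem_range.1 hi)).1
        have := Finset.card_le_card_of_injOn f hmap hinj
        rw [Finset.card_range] at this
        omega
      obtain ⟨j, hj, hgood⟩ := hex
      have hu' : ∀ i, v (u i + if i = i0 then t j else 0) ≤ 1 := by
        intro i
        refine (hv.1 _ _).trans (max_le (hu i) ?_)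
        split_ifs
        · exact (ht j).le
        · simp
      have hsum' : ∀ w : Fin r → ℤ, ∑ i, (w i : ℂ) * (u i + if i = i0 then t j else 0) =
          ∑ i, (w i : ℂ) * u i + t j * (w i0 : ℂ) := by
        intro w
        simp only [mul_add, Finset.sum_add_distrib, mul_ite, mul_zero, Finset.sum_ite_eq',
          Finset.mem_univ, if_true]
        ring
      refine ⟨fun i => u i + if i = i0 then t j else 0, hu', fun w hw => ?_⟩
      rcases mem_insert.1 hw with rfl | hw
      · rw [hsum']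
        have h1 : v (∑ i, (w i : ℂ) * u i) < v (t j * (w i0 : ℂ)) := by
          rw [v.map_mul, ht, one_mul, v_odd hv hi0]
          exact hlt
        rw [v_add_eq hv h1, v.map_mul, ht, one_mul, v_odd hv hi0]
      · refine le_antisymm (hsum _ hu' w) ?_
        rw [hsum']
        exact not_lt.1 (hgood w hw)

end

end Pool.Agent.Lib.MP_50bb2e_nt.Hgp
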