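import Mathlib

/-!
MP_50bb2e_nt, board HGP, row HT (helper94): a point of infinite order of an elliptic curve over a
number field is not infinitely divisible by two (naive height of the double of a point, Northcott).
-/

set_option autoImplicit false
set_option linter.unusedSectionVars false

namespace Pool.Agent.Lib.MP_50bb2e_nt.Hgp.Ht

open Height WeierstrassCurve WeierstrassCurve.Affine

section

variable {L : Type} [Field L] [DecidableEq L] (W : WeierstrassCurve L)

/-- the doubling formula for the first coordinate -/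
theorem double_x {x y : L} (h : W.toAffine.Equation x y) (hy : y ≠ W.toAffine.negY x y) :
    (4 * x ^ 3 + W.b₂ * x ^ 2 + 2 * W.b₄ * x + W.b₆) *
      W.toAffine.addX x x (W.toAffine.slope x x y y) =
      x ^ 4 - W.b₄ * x ^ 2 - 2 * W.b₆ * x - W.b₈ := by
  have hne : y - W.toAffine.negY x y ≠ 0 := sub_ne_zero.2 hy
  rw [equation_iff] at h
  have hps : (y - W.toAffine.negY x y) ^ 2 =
      4 * x ^ 3 + W.b₂ * x ^ 2 + 2 * W.b₄ * x + W.b₆ := by
    rw [negY, b₂, b₄, b₆]
    linear_combination 4 * h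
  rw [← hps, slope_of_Y_ne rfl hy, addX]
  set s := y - W.toAffine.negY x y with hs
  have hs' : s = 2 * y + W.a₁ * x + W.a₃ := by
    rw [hs, negY]
    ring
  have e : s ^ 2 * (((3 * x ^ 2 + 2 * W.a₂ * x + W.a₄ - W.a₁ * y) / s) ^ 2 +
      W.a₁ * ((3 * x ^ 2 + 2 * W.a₂ * x + W.a₄ - W.a₁ * y) / s) - W.a₂ - x - x) =
      (3 * x ^ 2 + 2 * W.a₂ * x + W.a₄ - W.a₁ * y) ^ 2 +
      W.a₁ * (3 * x ^ 2 + 2 * W.a₂ * x + W.a₄ - W.a₁ * y) * s - (W.a₂ + 2 * x) * s ^ 2 := by
    field_simp
    ring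
  rw [e, hs', b₄, b₆, b₈]
  linear_combination (-W.a₁ ^ 2 - 4 * W.a₂ - 8 * x) * h

theorem psi_zero {x y : L} (h : W.toAffine.Equation x y) (hy : y = W.toAffine.negY x y) :
    4 * x ^ 3 + W.b₂ * x ^ 2 + 2 * W.b₄ * x + W.b₆ = 0 := by
  rw [equation_iff] at h
  have hy' : 2 * y + W.a₁ * x + W.a₃ = 0 := by
    rw [negY] at hy
    linear_combination hy
  rw [b₂, b₄, b₆]
  linear_combination (2 * y + W.a₁ * x + W.a₃) * hy' - 4 * h

theorem psi_ne {x y : L} (h : W.toAffine.Equation x y) (hy : y ≠ W.toAffine.negY x y) :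
    4 * x ^ 3 + W.b₂ * x ^ 2 + 2 * W.b₄ * x + W.b₆ ≠ 0 := by
  have hne : y - W.toAffine.negY x y ≠ 0 := sub_ne_zero.2 hy
  rw [equation_iff] at h
  have hps : (y - W.toAffine.negY x y) ^ 2 =
      4 * x ^ 3 + W.b₂ * x ^ 2 + 2 * W.b₄ * x + W.b₆ := by
    rw [negY, b₂, b₄, b₆]
    linear_combination 4 * h
  rw [← hps]
  exact pow_ne_zero 2 hne

/-- the values of the addition and subtraction map at the double of a point -/
theorem addSub_eval (x : L) :
    (fun i => (addSubMap W i).eval ![x ^ 2, 2 * x, 1]) =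
      ![x ^ 4 - W.b₄ * x ^ 2 - 2 * W.b₆ * x - W.b₈,
        4 * x ^ 3 + W.b₂ * x ^ 2 + 2 * W.b₄ * x + W.b₆, 0] := by
  funext i
  fin_cases i <;> simp [addSubMap] <;> ring

end

section

variable {L : Type} [Field L] [NumberField L] [DecidableEq L] (W : WeierstrassCurve L)
  [W.IsElliptic]

/-- the naive height -/
noncomputable def hgt (P : W.toAffine.Point) : ℝ := logHeight P.xRep

theorem hgt_nonneg (P : W.toAffine.Point) : 0 ≤ hgt W P := logHeight_nonneg _

theorem hgt_some {x y : L} (h : W.toAffine.Nonsingular x y) :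
    hgt W (Point.some x y h) = logHeight₁ x := by
  rw [hgt, Point.xRep_some, logHeight₁_eq_logHeight]

theorem lh_tail (x : L) : logHeight ![x, 1, 0] = logHeight₁ x := by
  rw [logHeight₁_eq_logHeight]
  refine le_antisymm ?_ ?_
  · have h1 : ![x, 1, 0] = Sum.elim ![x, 1] (0 : Fin 1 → L) ∘
        (finSumFinEquiv (m := 2) (n := 1)).symm := by
      funext i
      fin_cases i <;> rfl
    rw [h1, logHeight_comp_equiv, logHeight_sumElim_zero_eq]
  · have h1 : ![x, 1] = ![x, 1, 0] ∘ (![0, 1] : Fin 2 → Fin 3) := by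
      funext i
      fin_cases i <;> rfl
    rw [h1]
    exact logHeight_comp_le _ _

theorem lh_sq (x : L) : 2 * logHeight₁ x ≤ logHeight ![x ^ 2, 2 * x, 1] := by
  have h1 : (2 : ℝ) * logHeight₁ x = logHeight₁ (x ^ 2) := by
    rw [logHeight₁_pow]
    norm_num
  have h2 : ![x ^ 2, 1] = ![x ^ 2, 2 * x, 1] ∘ (![0, 2] : Fin 2 → Fin 3) := by
    funext i
    fin_cases i <;> rfl
  rw [h1, logHeight₁_eq_logHeight, h2]
  exact logHeight_comp_le _ _

/-- the height of the double of a point -/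
theorem hgt_double : ∃ C : ℝ, 0 ≤ C ∧ ∀ P : W.toAffine.Point, 4 * hgt W P ≤ hgt W (P + P) + C := by
  obtain ⟨C, hC⟩ := abs_logHeight_addSubMap_sub_two_mul_logHeight_le W
  refine ⟨max C 0, le_max_right _ _, fun P => ?_⟩
  rcases P with _ | ⟨x, y, h⟩
  · have h0 : hgt W (Point.zero : W.toAffine.Point) = 0 := by
      show logHeight ![(1 : L), 0] = 0
      have h1 : ![(1 : L), 0] = ![0, 1] ∘ Equiv.swap 0 1 := by
        funext i
        fin_cases i <;> rfl
      rw [h1, logHeight_comp_equiv, ← logHeight₁_eq_logHeight, logHeight₁_zero]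
    have h2 := hgt_nonneg W (Point.zero + Point.zero : W.toAffine.Point)
    have h3 : (0 : ℝ) ≤ max C 0 := le_max_right _ _
    rw [h0]
    linarith
  · have hx := hC ![x ^ 2, 2 * x, 1]
    rw [addSub_eval] at hx
    have h1 := abs_le.1 hx
    have h2 := lh_sq x
    rw [hgt_some]
    have key : logHeight ![x ^ 4 - W.b₄ * x ^ 2 - 2 * W.b₆ * x - W.b₈,
        4 * x ^ 3 + W.b₂ * x ^ 2 + 2 * W.b₄ * x + W.b₆, 0] ≤
        hgt W (Point.some x y h + Point.some x y h) := by
      by_cases hy : y = W.toAffine.negY x y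
      · rw [Point.add_self_of_Y_eq hy, psi_zero W h.1 hy]
        refine le_trans (le_of_eq ?_) (hgt_nonneg W 0)
        set a := x ^ 4 - W.b₄ * x ^ 2 - 2 * W.b₆ * x - W.b₈ with ha
        by_cases ha0 : a = 0
        · rw [ha0]
          have h3 : ![(0 : L), 0, 0] = 0 := by
            funext i
            fin_cases i <;> rfl
          rw [h3, logHeight_zero]
        · have h3 : ![a, 0, 0] = a • ![(1 : L), 0, 0] := by
            funext i
            fin_cases i <;> simp
          rw [h3, logHeight_smul_eq_logHeight _ ha0]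
          have h4 : ![(1 : L), 0, 0] = ![0, 1, 0] ∘ Equiv.swap 0 1 := by
            funext i
            fin_cases i <;> rfl
          rw [h4, logHeight_comp_equiv, lh_tail, logHeight₁_zero]
      · rw [Point.add_self_of_Y_ne hy, hgt_some, ← lh_tail, ← double_x W h.1 hy]
        set s := 4 * x ^ 3 + W.b₂ * x ^ 2 + 2 * W.b₄ * x + W.b₆ with hs
        have hs0 : s ≠ 0 := psi_ne W h.1 hy
        have h3 : ![s * W.toAffine.addX x x (W.toAffine.slope x x y y), s, 0] =
            s • ![W.toAffine.addX x x (W.toAffine.slope x x y y), 1, 0] := by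
          funext i
          fin_cases i <;> simp
        rw [h3, logHeight_smul_eq_logHeight _ hs0]
    have h5 : C ≤ max C 0 := le_max_left _ _
    linarith

theorem hgt_pow {C : ℝ} (hC0 : 0 ≤ C)
    (hC : ∀ P : W.toAffine.Point, 4 * hgt W P ≤ hgt W (P + P) + C) (k : ℕ) :
    ∀ Q : W.toAffine.Point, hgt W Q ≤ hgt W (2 ^ k • Q) + C := by
  induction k with
  | zero =>
    intro Q
    rw [pow_zero, one_smul]
    linarith
  | succ k ih =>
    intro Q
    have h1 := hC Q
    have h2 := ih (Q + Q)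
    have h3 : 2 ^ k • (Q + Q) = 2 ^ (k + 1) • Q := by
      rw [← two_nsmul, smul_smul, pow_succ]
    rw [h3] at h2
    have h4 := hgt_nonneg W (2 ^ (k + 1) • Q)
    linarith

/-- the points of bounded height, up to sign -/
theorem finite_xRep (B : ℝ) : {r : Fin 2 → L | ∃ P : W.toAffine.Point, P.xRep = r ∧ hgt W P ≤ B}.Finite := by
  refine Set.Finite.subset (((NumberField.finite_setOfPred_logHeight₁_le L B).image
    fun x => ![x, 1]).union (Set.finite_singleton ![(1 : L), 0])) ?_
  rintro r ⟨P, rfl, hP⟩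
  rcases P with _ | ⟨x, y, h⟩
  · right
    exact rfl
  · left
    rw [hgt_some] at hP
    exact ⟨x, hP, rfl⟩

/-- **Row HT.** -/
theorem not_div (P : W.toAffine.Point) (hP : ∀ n : ℕ, 0 < n → n • P ≠ 0) :
    ∃ k : ℕ, ∀ Q : W.toAffine.Point, 2 ^ k • Q ≠ P := by
  by_contra hcon
  push Not at hcon
  choose Q hQ using hcon
  obtain ⟨C, hC0, hC⟩ := hgt_double W
  have hb : ∀ k, hgt W (Q k) ≤ hgt W P + C := fun k => by
    have := hgt_pow W hC0 hC k (Q k)
    rwa [hQ k] at this
  have hfin := finite_xRep W (hgt W P + C)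
  obtain ⟨i, j, hij, he⟩ : ∃ i j : ℕ, i < j ∧ (Q i).xRep = (Q j).xRep := by
    by_contra hne
    push Not at hne
    have hinj : Function.Injective fun k : ℕ => (Q k).xRep := by
      intro i j h
      rcases lt_trichotomy i j with h1 | h1 | h1
      · exact absurd h (hne i j h1)
      · exact h1
      · exact absurd h.symm (hne j i h1)
    exact Set.infinite_range_of_injective hinj
      (hfin.subset (by rintro r ⟨k, rfl⟩; exact ⟨Q k, rfl, hb k⟩))
  obtain ⟨d, rfl⟩ : ∃ d, j = i + (d + 1) := ⟨j - i - 1, by omega⟩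
  have h2 : 2 ^ (d + 1) • (2 ^ i • Q (i + (d + 1))) = P := by
    rw [smul_smul, ← pow_add, add_comm, hQ]
  have h4 : 1 < 2 ^ (d + 1) := Nat.one_lt_two_pow (by omega)
  rcases Point.eq_or_eq_neg_of_xRep_eq_xRep he with h | h
  · rw [← h, hQ] at h2
    refine hP (2 ^ (d + 1) - 1) (by omega) ?_
    have h3 : (2 ^ (d + 1) - 1) • P + P = P := by
      rw [← succ_nsmul, Nat.sub_add_cancel h4.le, h2]
    exact add_eq_right.1 h3
  · have h5 : 2 ^ i • Q (i + (d + 1)) = -P := by
      have h6 := hQ i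
      rw [h, smul_neg] at h6
      rw [← h6, neg_neg]
    rw [h5, smul_neg] at h2
    refine hP (2 ^ (d + 1) + 1) (by omega) ?_
    rw [succ_nsmul]
    calc 2 ^ (d + 1) • P + P = 2 ^ (d + 1) • P + -(2 ^ (d + 1) • P) := by rw [h2]
      _ = 0 := add_neg_cancel _

end

end Pool.Agent.Lib.MP_50bb2e_nt.Hgp.Ht
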