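import Pool.Agent.Lib.MP_50bb2e_nt.Hgp.Sys
import Pool.Agent.Lib.MP_50bb2e_nt.Hgp.Fun

/-!
MP_50bb2e_nt, board HGP (helper73). The dyadic contents of the components of a norm-compatible
system form a Lipschitz system in the sense of board LOW.
-/

open Finset

namespace Pool.Agent.Lib.MP_50bb2e_nt.Hgp

open Pool.Agent.Lib.MP_50bb2e_nt.Qtw (Dyadic Lip Dif)
open Pool.Agent.Lib.MP_50bb2e_nt.Low (HasLip)

noncomputable section

variable {G M : Type} [Group G] [AddCommGroup M] [DistribMulAction G M]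
variable {c : ℕ → G →* ℤˣ} {P : Set ℕ} {σ : Finset ℕ → G} {z : Finset ℕ → M}

/-- divisibility inside the fixed points -/
def Dx (c : ℕ → G →* ℤˣ) (T : Finset ℕ) (m : M) (k : ℕ) : Prop :=
  ∃ n : ℤ, Odd n ∧ ∃ q ∈ (Fx c T : AddSubgroup M), n • m = ((2 : ℤ) ^ k) • q

theorem dx_iff {T : Finset ℕ} {m : M} (hm : m ∈ (Fx c T : AddSubgroup M)) (k : ℕ) :
    Dx c T m k ↔ Dv (A := (Fx c T : AddSubgroup M)) ⟨m, hm⟩ k := by
  constructor
  · rintro ⟨n, hn, q, hq, h⟩
    exact ⟨n, hn, ⟨q, hq⟩, Subtype.ext h⟩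
  · rintro ⟨n, hn, q, h⟩
    exact ⟨n, hn, q, q.2, congrArg Subtype.val h⟩

theorem two_pow (hs : Sy P c σ z) {T : Finset ℕ} (hT : (T : Set ℕ) ⊆ P) (k : ℕ) {m : M}
    (hm : m ∈ (Fx c T : AddSubgroup M)) (h : ((2 : ℤ) ^ k) • m = 0) : m = 0 := by
  induction k with
  | zero => simpa using h
  | succ k ih =>
    apply ih
    refine hs.two T hT _ (AddSubgroup.zsmul_mem _ hm _) ?_
    rw [← mul_smul, ← pow_succ', h]

theorem dx_up (hs : Sy P c σ z) {T T' : Finset ℕ} (hT' : (T' : Set ℕ) ⊆ P) (h : T ⊆ T') {m : M}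
    (hm : m ∈ (Fx c T : AddSubgroup M)) (k : ℕ) : Dx c T' m k ↔ Dx c T m k := by
  constructor
  · rintro ⟨n, hn, q, hq, he⟩
    refine ⟨n, hn, q, ?_, he⟩
    intro g hg
    have h1 : g • q - q ∈ (Fx c T' : AddSubgroup M) :=
      AddSubgroup.sub_mem _ (smul_mem g hq) hq
    have h2 : ((2 : ℤ) ^ k) • (g • q - q) = 0 := by
      rw [smul_sub, smul_comm _ g q, ← he, smul_comm g n m, hm g hg, sub_self]
    exact sub_eq_zero.1 (two_pow hs hT' k h1 h2)
  · rintro ⟨n, hn, q, hq, he⟩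
    exact ⟨n, hn, q, fx_mono h hq, he⟩

theorem dx_odd {T : Finset ℕ} {m : M} {k : ℕ} {n : ℤ} (hn : Odd n) :
    Dx c T (n • m) k ↔ Dx c T m k := by
  constructor
  · rintro ⟨n', hn', q, hq, h⟩
    exact ⟨n' * n, hn'.mul hn, q, hq, by rw [mul_smul, h]⟩
  · rintro ⟨n', hn', q, hq, h⟩
    exact ⟨n', hn', n • q, AddSubgroup.zsmul_mem _ hq _, by rw [smul_comm, h, smul_comm]⟩

theorem Dx.pred {T : Finset ℕ} {m : M} {k : ℕ} (h : Dx c T m (k + 1)) : Dx c T m k := by
  obtain ⟨n, hn, q, hq, h⟩ := h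
  refine ⟨n, hn, (2 : ℤ) • q, AddSubgroup.zsmul_mem _ hq _, ?_⟩
  rw [h, ← mul_smul, pow_succ]

/-- elements of infinite order have a finite content -/
theorem nu (hs : Sy P c σ z) {T : Finset ℕ} (hT : (T : Set ℕ) ⊆ P) {m : M}
    (hm : m ∈ (Fx c T : AddSubgroup M)) (hi : ∀ n : ℕ, 0 < n → n • m ≠ 0) :
    ∃ k, Dx c T m k ∧ ¬ Dx c T m (k + 1) := by
  classical
  have hlarge : ∃ k : ℕ, ¬ Dx c T m k := hs.nd T hT m hm hi
  have hf := Nat.find_spec hlarge
  have hpos : Nat.find hlarge ≠ 0 := by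
    intro h
    rw [h] at hf
    exact hf ⟨1, odd_one, m, hm, by simp⟩
  obtain ⟨k, hk⟩ := Nat.exists_eq_succ_of_ne_zero hpos
  refine ⟨k, ?_, ?_⟩
  · by_contra hcon
    exact Nat.find_min hlarge (m := k) (by omega) hcon
  · rw [hk] at hf
    exact hf

open Classical in
/-- the size of the component of conductor `S` -/
def lsz (v : AbsoluteValue ℂ ℝ) (c : ℕ → G →* ℤˣ) (σ : Finset ℕ → G) (z : Finset ℕ → M)
    (S : Finset ℕ) : ℝ :=
  if h : ∃ k, Dx c S (tr c σ z S S) k ∧ ¬ Dx c S (tr c σ z S S) (k + 1) then v 2 ^ h.choose else 0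

theorem core (hs : Sy P c σ z) (hb : ∀ n : ℕ, 0 < n → n • z ∅ ≠ 0) {v : AbsoluteValue ℂ ℝ}
    (hv : Dyadic v) :
    0 < lsz v c σ z ∅ ∧
    (∀ S : Finset ℕ, (S : Set ℕ) ⊆ P → lsz v c σ z S ≠ 0 →
      ∀ n : ℕ, 0 < n → n • tr c σ z S S ≠ 0) ∧
    HasLip v P 1 (lsz v c σ z) := by
  classical
  have hv2 : 0 < v 2 := v.pos two_ne_zero
  have htwo : ∀ T : Finset ℕ, (T : Set ℕ) ⊆ P → ∀ a : (Fx c T : AddSubgroup M),
      (2 : ℤ) • a = 0 → a = 0 := by
    intro T hT a ha
    exact Subtype.ext (hs.two T hT a a.2 (congrArg Subtype.val ha))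
  have hemp : ((∅ : Finset ℕ) : Set ℕ) ⊆ P := by simp
  refine ⟨?_, ?_, ?_⟩
  · -- the base value
    have htr : tr c σ z ∅ ∅ = z ∅ := by
      unfold tr
      rw [Finset.powerset_empty, Finset.sum_singleton]
      have h1 : σ ∅ • z ∅ = z ∅ := hs.fix ∅ hemp _ (fun p hp => absurd hp (Finset.notMem_empty _))
      rw [h1]
      unfold chi
      simp
    have hmem : z ∅ ∈ (Fx c ∅ : AddSubgroup M) := hs.fix ∅ hemp
    have hex : ∃ k, Dx c ∅ (tr c σ z ∅ ∅) k ∧ ¬ Dx c ∅ (tr c σ z ∅ ∅) (k + 1) := by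
      rw [htr]
      exact nu hs hemp hmem hb
    unfold lsz
    rw [dif_pos hex]
    exact pow_pos hv2 _
  · intro S hS hne n hn h0
    unfold lsz at hne
    split_ifs at hne with hex
    · obtain ⟨k, -, hk2⟩ := hex
      have hm := tr_mem hs hS S
      have h1 := dv_torsion (htwo S hS) (a := ⟨tr c σ z S S, hm⟩) hn (Subtype.ext h0) (k + 1)
      exact hk2 ((dx_iff hm _).2 h1)
    · exact hne rfl
  · intro T hT
    -- the quotients of the alternating sums
    have hq : ∀ C U : Finset ℕ, ∃ q : M, q ∈ (Fx c T : AddSubgroup M) ∧ (Disjoint C U →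
        ∑ S ∈ U.powerset, ((-1 : ℤ) ^ S.card) • tr c σ z T (C ∪ S) = ((2 : ℤ) ^ U.card) • q) := by
      intro C U
      by_cases hd : Disjoint C U
      · obtain ⟨q, h1, h2⟩ := tr_cube hs hT hd
        exact ⟨q, h1, fun _ => h2⟩
      · exact ⟨0, AddSubgroup.zero_mem _, fun h => absurd h hd⟩
    choose qf hqf1 hqf2 using hq
    -- the quotients of the components
    have hw : ∀ S : Finset ℕ, ∃ w : M, w ∈ (Fx c T : AddSubgroup M) ∧ ∀ k,
        Dx c T (tr c σ z T S) k → ¬ Dx c T (tr c σ z T S) (k + 1) →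
        ∃ n : ℤ, Odd n ∧ n • tr c σ z T S = ((2 : ℤ) ^ k) • w := by
      intro S
      by_cases hk : ∃ k, Dx c T (tr c σ z T S) k ∧ ¬ Dx c T (tr c σ z T S) (k + 1)
      · obtain ⟨k, hk1, hk2⟩ := hk
        obtain ⟨n, hn, w, hw, he⟩ := hk1
        refine ⟨w, hw, fun l hl1 hl2 => ?_⟩
        have hmono : ∀ a b : ℕ, a ≤ b → Dx c T (tr c σ z T S) b → Dx c T (tr c σ z T S) a := by
          intro a b hab
          induction hab with
          | refl => exact id
          | step _ ih => exact fun h => ih h.pred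
        have hkl : k = l := by
          rcases lt_trichotomy k l with h | h | h
          · exact absurd (hmono _ _ h hl1) hk2
          · exact h
          · exact absurd (hmono _ _ h ⟨n, hn, w, hw, he⟩) hl2
        subst hkl
        exact ⟨n, hn, he⟩
      · exact ⟨0, AddSubgroup.zero_mem _, fun k h1 h2 => absurd ⟨k, h1, h2⟩ hk⟩
    choose wf hwf1 hwf2 using hw
    -- a finitely generated subgroup which contains all of these
    set Z : Finset M := (T.powerset.image fun S => tr c σ z T S) ∪ T.powerset.image wf ∪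
      (T.powerset ×ˢ T.powerset).image (fun p => qf p.1 p.2) with hZ
    set H : AddSubgroup M := AddSubgroup.closure (Z : Set M) with hH
    have hZA : (Z : Set M) ⊆ (Fx c T : AddSubgroup M) := by
      intro m hm
      rw [hZ, Finset.coe_union, Finset.coe_union] at hm
      rcases hm with (hm | hm) | hm
      · obtain ⟨S, -, rfl⟩ := Finset.mem_image.1 (Finset.mem_coe.1 hm)
        exact tr_mem hs hT S
      · obtain ⟨S, -, rfl⟩ := Finset.mem_image.1 (Finset.mem_coe.1 hm)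
        exact hwf1 S
      · obtain ⟨p, -, rfl⟩ := Finset.mem_image.1 (Finset.mem_coe.1 hm)
        exact hqf1 _ _
    have hHA : H ≤ (Fx c T : AddSubgroup M) := (AddSubgroup.closure_le _).2 hZA
    have hfin : Module.Finite ℤ H :=
      Module.Finite.iff_addGroup_fg.2 ((AddGroup.fg_iff_addSubgroup_fg _).2 ⟨Z, rfl⟩)
    have hxH : ∀ S ⊆ T, tr c σ z T S ∈ H := fun S hS => AddSubgroup.subset_closure (by
      rw [hZ]
      exact Finset.mem_coe.2 (Finset.mem_union_left _ (Finset.mem_union_left _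
        (Finset.mem_image_of_mem _ (Finset.mem_powerset.2 hS)))))
    have hwH : ∀ S ⊆ T, wf S ∈ H := fun S hS => AddSubgroup.subset_closure (by
      rw [hZ]
      exact Finset.mem_coe.2 (Finset.mem_union_left _ (Finset.mem_union_right _
        (Finset.mem_image_of_mem _ (Finset.mem_powerset.2 hS)))))
    have hqH : ∀ C ⊆ T, ∀ U ⊆ T, qf C U ∈ H := fun C hC U hU => AddSubgroup.subset_closure (by
      rw [hZ]
      refine Finset.mem_coe.2 (Finset.mem_union_right _ (Finset.mem_image.2 ⟨(C, U), ?_, rfl⟩))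
      exact Finset.mem_product.2 ⟨Finset.mem_powerset.2 hC, Finset.mem_powerset.2 hU⟩)
    have htwoH : ∀ a : H, (2 : ℤ) • a = 0 → a = 0 := by
      intro a ha
      exact Subtype.ext (hs.two T hT a (hHA a.2) (congrArg Subtype.val ha))
    let x : Finset ℕ → H := fun S => if h : S ⊆ T then ⟨tr c σ z T S, hxH S h⟩ else 0
    have hx : ∀ S (h : S ⊆ T), x S = ⟨tr c σ z T S, hxH S h⟩ := fun S h => dif_pos h
    obtain ⟨f, hf1, hf2⟩ := exists_fun (A := H) hv htwoH (T.powerset.image x)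
    refine ⟨fun S => f (x S), ?_, ?_⟩
    · intro C U hC hU hd
      have he := hqf2 C U hd
      have h1 : Dif (fun S => f (x S)) C U = f (((2 : ℤ) ^ U.card) • ⟨qf C U, hqH C hC U hU⟩) := by
        unfold Dif
        have h2 : (((2 : ℤ) ^ U.card) • (⟨qf C U, hqH C hC U hU⟩ : H)) =
            ∑ S ∈ U.powerset, ((-1 : ℤ) ^ S.card) • x (C ∪ S) := by
          apply Subtype.ext
          rw [AddSubgroup.val_finsetSum]
          refine he.symm.trans (Finset.sum_congr rfl fun S hS => ?_)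
          rw [hx (C ∪ S) (Finset.union_subset hC ((Finset.mem_powerset.1 hS).trans hU))]
          rfl
        rw [h2, map_sum]
        refine Finset.sum_congr rfl fun S _ => ?_
        rw [map_zsmul, zsmul_eq_mul]
        push_cast
        rfl
      rw [h1, map_zsmul, zsmul_eq_mul, v.map_mul, mul_one]
      push_cast
      rw [v.map_pow]
      exact mul_le_of_le_one_right (pow_nonneg hv2.le _) (hf1 _)
    · intro S hS
      have hSP : (S : Set ℕ) ⊆ P := fun p hp => hT (hS hp)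
      obtain ⟨n, hn, hext⟩ := tr_ext hs hT hS
      have hmS := tr_mem hs hSP S
      have hmT := tr_mem hs hT S
      -- divisibility of the two components agree
      have hD : ∀ k, Dx c T (tr c σ z T S) k ↔ Dx c S (tr c σ z S S) k := by
        intro k
        rw [hext, dx_odd hn]
        exact dx_up hs hT hS hmS k
      unfold lsz
      by_cases hex : ∃ k, Dx c S (tr c σ z S S) k ∧ ¬ Dx c S (tr c σ z S S) (k + 1)
      · rw [dif_pos hex]
        have h1 := hex.choose_spec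
        have hk1 := (hD _).2 h1.1
        have hk2 : ¬ Dx c T (tr c σ z T S) (hex.choose + 1) := fun h => h1.2 ((hD _).1 h)
        refine hf2 (x S) (Finset.mem_image_of_mem x (Finset.mem_powerset.2 hS)) hex.choose ?_ ?_
        · obtain ⟨n', hn', h3⟩ := hwf2 S _ hk1 hk2
          refine ⟨n', hn', ⟨wf S, hwH S hS⟩, ?_⟩
          rw [hx S hS]
          exact Subtype.ext h3
        · rintro ⟨n', hn', q, h3⟩
          apply hk2
          refine ⟨n', hn', q, hHA q.2, ?_⟩
          rw [hx S hS] at h3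
          exact congrArg Subtype.val h3
      · rw [dif_neg hex]
        -- the component is torsion
        have htor : ∃ n : ℕ, 0 < n ∧ n • tr c σ z T S = 0 := by
          by_contra hcon
          push Not at hcon
          obtain ⟨k, hk1, hk2⟩ := nu hs hT hmT hcon
          exact hex ⟨k, (hD k).1 hk1, fun h => hk2 ((hD _).2 h)⟩
        obtain ⟨n', hn', h0⟩ := htor
        have h1 : f (x S) = 0 := by
          have h00 : n' • x S = 0 := by
            rw [hx S hS]
            exact Subtype.ext h0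
          have h2 := congrArg f h00
          rw [map_nsmul, map_zero, nsmul_eq_mul] at h2
          rcases mul_eq_zero.1 h2 with h | h
          · exact absurd (by exact_mod_cast h) hn'.ne'
          · exact h
        change v (f (x S)) = 0
        rw [h1, map_zero]

/-- divisibility without the odd multiple -/
theorem dx_div {T : Finset ℕ} {m : M} (hm : m ∈ (Fx c T : AddSubgroup M)) {k : ℕ}
    (h : Dx c T m k) : ∃ q ∈ (Fx c T : AddSubgroup M), ((2 : ℤ) ^ k) • q = m := by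
  obtain ⟨n, hn, q, hq, he⟩ := h
  obtain ⟨r, rfl⟩ := hn
  have hcop : IsCoprime (2 * r + 1) ((2 : ℤ) ^ k) := by
    refine IsCoprime.pow_right ?_
    exact ⟨1, -r, by ring⟩
  obtain ⟨a, b, hab⟩ := hcop
  refine ⟨a • q + b • m, AddSubgroup.add_mem _ (AddSubgroup.zsmul_mem _ hq _)
    (AddSubgroup.zsmul_mem _ hm _), ?_⟩
  rw [smul_add, smul_comm _ a q, ← he, smul_comm _ b m, ← mul_smul, ← mul_smul, ← add_smul, hab,
    one_smul]

/-- `z ∅` is not `2 ^ (j + 1)` times a fixed element -/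
def Und (z : Finset ℕ → M) (G : Type) [Group G] [DistribMulAction G M] (j : ℕ) : Prop :=
  ∀ q : M, (∀ g : G, g • q = q) → ((2 : ℤ) ^ (j + 1)) • q ≠ z ∅

theorem not_dx (hs : Sy P c σ z) {j : ℕ} (hj : Und z G j) : ¬ Dx c ∅ (z ∅) (j + 1) := by
  intro h
  obtain ⟨q, hq, he⟩ := dx_div (hs.fix ∅ (by simp)) h
  exact hj q (fun g => hq g fun p hp => absurd hp (Finset.notMem_empty _)) he

theorem und_inf (hs : Sy P c σ z) {j : ℕ} (hj : Und z G j) : ∀ n : ℕ, 0 < n → n • z ∅ ≠ 0 := by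
  intro n hn h0
  have hemp : ((∅ : Finset ℕ) : Set ℕ) ⊆ P := by simp
  have hmem : z ∅ ∈ (Fx c ∅ : AddSubgroup M) := hs.fix ∅ hemp
  have htwo : ∀ a : (Fx c ∅ : AddSubgroup M), (2 : ℤ) • a = 0 → a = 0 := by
    intro a ha
    exact Subtype.ext (hs.two ∅ hemp a a.2 (congrArg Subtype.val ha))
  have h1 := dv_torsion htwo (a := ⟨z ∅, hmem⟩) hn (Subtype.ext h0) (j + 1)
  exact not_dx hs hj ((dx_iff hmem _).2 h1)

theorem inf_und (hs : Sy P c σ z) (hb : ∀ n : ℕ, 0 < n → n • z ∅ ≠ 0) : ∃ j, Und z G j := by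
  have hemp : ((∅ : Finset ℕ) : Set ℕ) ⊆ P := by simp
  obtain ⟨k, hk⟩ := hs.nd ∅ hemp (z ∅) (hs.fix ∅ hemp) hb
  refine ⟨k, fun q hq he => hk ⟨1, odd_one, (2 : ℤ) • q, ?_, ?_⟩⟩
  · have h1 : q ∈ (Fx c ∅ : AddSubgroup M) := fun g _ => hq g
    exact AddSubgroup.zsmul_mem _ h1 _
  · rw [one_smul, ← mul_smul, ← pow_succ, he]

/-- the base value -/
theorem core_base (hs : Sy P c σ z) {v : AbsoluteValue ℂ ℝ} (hv : Dyadic v) {j : ℕ}
    (hj : Und z G j) : v 2 ^ j ≤ lsz v c σ z ∅ := by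
  have hv2 : 0 < v 2 := v.pos two_ne_zero
  have hemp : ((∅ : Finset ℕ) : Set ℕ) ⊆ P := by simp
  have hmem : z ∅ ∈ (Fx c ∅ : AddSubgroup M) := hs.fix ∅ hemp
  have htr : tr c σ z ∅ ∅ = z ∅ := by
    unfold tr
    rw [Finset.powerset_empty, Finset.sum_singleton]
    have h1 : σ ∅ • z ∅ = z ∅ := hmem _ (fun p hp => absurd hp (Finset.notMem_empty _))
    rw [h1]
    unfold chi
    simp
  have hex : ∃ k, Dx c ∅ (tr c σ z ∅ ∅) k ∧ ¬ Dx c ∅ (tr c σ z ∅ ∅) (k + 1) := by
    rw [htr]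
    exact nu hs hemp hmem (und_inf hs hj)
  unfold lsz
  rw [dif_pos hex]
  have h1 := hex.choose_spec.1
  set k := hex.choose with hk
  have hkj : k ≤ j := by
    by_contra hcon
    push Not at hcon
    rw [htr] at h1
    have hmono : ∀ b : ℕ, j + 1 ≤ b → Dx c ∅ (z ∅) b → Dx c ∅ (z ∅) (j + 1) := by
      intro b hab
      induction hab with
      | refl => exact id
      | step _ ih => exact fun h => ih h.pred
    exact not_dx hs hj (hmono k hcon h1)
  exact pow_le_pow_of_le_one hv2.le hv.2.le hkj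

end

end Pool.Agent.Lib.MP_50bb2e_nt.Hgp
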