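import Mathlib

/-!
MP_50bb2e_nt, board HGP, row NF-GOOD (helper94): the subgroups `Dv B k` of the elements of `B`
with an odd multiple in `2 ^ k B`, and the Reed-Muller bound for a filtration by subgroups.
-/

set_option autoImplicit false

namespace Pool.Agent.Lib.MP_50bb2e_nt.Hgp.NF

section Dv

variable {M : Type} [AddCommGroup M]

/-- The elements of `B` with an odd multiple in `2 ^ k B`. -/
def Dv (B : AddSubgroup M) (k : ℕ) : AddSubgroup M where
  carrier := {m | m ∈ B ∧ ∃ c : ℤ, Odd c ∧ ∃ q ∈ B, c • m = (2 : ℤ) ^ k • q}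
  zero_mem' := ⟨B.zero_mem, 1, odd_one, 0, B.zero_mem, by simp⟩
  add_mem' := by
    rintro m m' ⟨hm, c, hc, q, hq, h⟩ ⟨hm', c', hc', q', hq', h'⟩
    refine ⟨B.add_mem hm hm', c * c', hc.mul hc', c' • q + c • q',
      B.add_mem (B.zsmul_mem hq _) (B.zsmul_mem hq' _), ?_⟩
    have e1 : (c * c') • m = c' • (c • m) := by rw [smul_smul, mul_comm]
    have e2 : (c * c') • m' = c • (c' • m') := by rw [smul_smul]
    rw [smul_add, e1, e2, h, h', smul_add, smul_smul, smul_smul, smul_smul, smul_smul,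
      mul_comm c', mul_comm c]
  neg_mem' := by
    rintro m ⟨hm, c, hc, q, hq, h⟩
    exact ⟨B.neg_mem hm, c, hc, -q, B.neg_mem hq, by rw [smul_neg, smul_neg, h]⟩

theorem mem_Dv {B : AddSubgroup M} {k : ℕ} {m : M} :
    m ∈ Dv B k ↔ m ∈ B ∧ ∃ c : ℤ, Odd c ∧ ∃ q ∈ B, c • m = (2 : ℤ) ^ k • q := Iff.rfl

theorem Dv_zero (B : AddSubgroup M) : B ≤ Dv B 0 := fun m hm =>
  ⟨hm, 1, odd_one, m, hm, by simp⟩

theorem Dv_pow {B : AddSubgroup M} (k : ℕ) {q : M} (hq : q ∈ B) : (2 : ℤ) ^ k • q ∈ Dv B k :=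
  ⟨B.zsmul_mem hq _, 1, odd_one, q, hq, by simp⟩

theorem Dv_odd {B : AddSubgroup M} {k : ℕ} {m : M} (hm : m ∈ B) {c : ℤ} (hc : Odd c) :
    c • m ∈ Dv B k ↔ m ∈ Dv B k := by
  constructor
  · rintro ⟨_, c', hc', q, hq, h⟩
    exact ⟨hm, c' * c, hc'.mul hc, q, hq, by rw [← h, smul_smul]⟩
  · exact fun h => (Dv B k).zsmul_mem h c

theorem Dv_two {B : AddSubgroup M} (h2 : ∀ m ∈ B, (2 : ℤ) • m = 0 → m = 0) {k : ℕ} {m : M}
    (hm : m ∈ B) : (2 : ℤ) • m ∈ Dv B (k + 1) ↔ m ∈ Dv B k := by
  constructor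
  · rintro ⟨_, c, hc, q, hq, h⟩
    refine ⟨hm, c, hc, q, hq, ?_⟩
    have h3 : (2 : ℤ) • (c • m - (2 : ℤ) ^ k • q) = 0 := by
      rw [smul_sub, smul_smul, mul_comm 2 c, ← smul_smul, h, smul_smul, ← pow_succ', sub_self]
    have h4 := h2 _ (B.sub_mem (B.zsmul_mem hm _) (B.zsmul_mem hq _)) h3
    exact sub_eq_zero.1 h4
  · rintro ⟨_, c, hc, q, hq, h⟩
    refine ⟨B.zsmul_mem hm _, c, hc, q, hq, ?_⟩
    rw [smul_smul, mul_comm c 2, ← smul_smul, h, smul_smul, ← pow_succ']

/-- elements outside `Dv B k` have infinite order -/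
theorem inf_of_not_Dv {B : AddSubgroup M} (h2 : ∀ m ∈ B, (2 : ℤ) • m = 0 → m = 0) {k : ℕ} {m : M}
    (hm : m ∈ B) (h : m ∉ Dv B k) : ∀ n : ℕ, 0 < n → n • m ≠ 0 := by
  intro n
  induction n using Nat.strong_induction_on with
  | _ n ih =>
    intro hn h0
    rcases Nat.even_or_odd n with he | ho
    · obtain ⟨r, hr⟩ := he
      have hr0 : 0 < r := by omega
      have h3 : (2 : ℤ) • (r • m) = 0 := by
        have e : (2 : ℤ) • (r • m) = n • m := by
          rw [hr, add_smul, two_smul]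
        rw [e, h0]
      exact ih r (by omega) hr0 (h2 _ (B.nsmul_mem hm r) h3)
    · apply h
      refine ⟨hm, (n : ℤ), by exact_mod_cast ho, 0, B.zero_mem, ?_⟩
      rw [natCast_zsmul, h0, smul_zero]

end Dv

section RM

variable {M : Type} [AddCommGroup M] {G : Type} [Fintype G]

/-- the sum -/
def Sm (θ : G → M) (x : G → ℤ) : M := ∑ g, x g • θ g

theorem Sm_mem {B : AddSubgroup M} {θ : G → M} (hθ : ∀ g, θ g ∈ B) (x : G → ℤ) : Sm θ x ∈ B :=
  B.sum_mem fun g _ => B.zsmul_mem (hθ g) _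

open Classical in
private theorem rm_aux (B : AddSubgroup M) (D : ℕ → AddSubgroup M) (hD0 : B ≤ D 0)
    (hD2 : ∀ k, ∀ m ∈ B, ((2 : ℤ) • m ∈ D (k + 1) ↔ m ∈ D k)) : ∀ (n : ℕ) (j : ℕ) (θ : G → M),
    (∀ g, θ g ∈ B) → ∀ V : Finset (G → ℤ), V.card ≤ n →
    (∀ x ∈ V, ∀ g, x g = 1 ∨ x g = -1) → (∀ x ∈ V, ∀ y ∈ V, x * y ∈ V) →
    (∃ x ∈ V, Sm θ x ∉ D (j + 1)) →
    V.card ≤ 2 ^ j * (V.filter (fun x => Sm θ x ∉ D (j + 1))).card := by
  intro n
  induction n with
  | zero =>
    intro j θ hθ V hV _ _ ⟨x, hx, _⟩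
    have : V = ∅ := by simpa using hV
    simp [this] at hx
  | succ n ih =>
    intro j θ hθ V hV hpm hmul hbig
    by_cases htriv : ∀ x ∈ V, x = 1
    · -- the group is trivial
      obtain ⟨x, hx, hxb⟩ := hbig
      have h1 : V.card ≤ 1 := Finset.card_le_one.2 (fun a ha b hb => by
        rw [htriv a ha, htriv b hb])
      have h2 : 1 ≤ (V.filter (fun x => Sm θ x ∉ D (j + 1))).card :=
        Finset.card_pos.2 ⟨x, by simp [hx, hxb]⟩
      have h3 : 1 ≤ 2 ^ j := Nat.one_le_two_pow
      nlinarith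
    push Not at htriv
    obtain ⟨x1, hx1, hx1ne⟩ := htriv
    have hg0 : ∃ g0, x1 g0 = -1 := by
      by_contra hcon
      push Not at hcon
      apply hx1ne
      funext g
      exact (hpm x1 hx1 g).resolve_right (hcon g)
    obtain ⟨g0, hg0⟩ := hg0
    have hsq : ∀ x ∈ V, x * x = 1 := by
      intro x hx
      funext g
      rcases hpm x hx g with h | h <;> simp [h]
    have hone : (1 : G → ℤ) ∈ V := by
      have := hmul x1 hx1 x1 hx1
      rwa [hsq x1 hx1] at this
    set V0 := V.filter (fun x => x g0 = 1) with hV0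
    have hV0sub : V0 ⊆ V := Finset.filter_subset _ _
    have hx1V0 : x1 ∉ V0 := by
      simp [hV0, hg0]
    have hcard0 : V0.card ≤ n := by
      have : V0.card < V.card := Finset.card_lt_card ⟨hV0sub, fun h => hx1V0 (h hx1)⟩
      omega
    have hmul0 : ∀ x ∈ V0, ∀ y ∈ V0, x * y ∈ V0 := by
      intro x hx y hy
      rw [hV0, Finset.mem_filter] at hx hy ⊢
      exact ⟨hmul x hx.1 y hy.1, by simp [hx.2, hy.2]⟩
    have hpm0 : ∀ x ∈ V0, ∀ g, x g = 1 ∨ x g = -1 := fun x hx => hpm x (hV0sub hx)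
    -- cosets
    have hinj : ∀ y ∈ V, ∀ a b : G → ℤ, y * a = y * b → a = b := by
      intro y hy a b h
      have : y * (y * a) = y * (y * b) := by rw [h]
      rwa [← mul_assoc, ← mul_assoc, hsq y hy, one_mul, one_mul] at this
    have hx1x1 : x1 * x1 = 1 := hsq x1 hx1
    have hcov : V = V0 ∪ V0.image (fun x => x1 * x) := by
      ext x
      simp only [Finset.mem_union, Finset.mem_image]
      constructor
      · intro hx
        rcases hpm x hx g0 with h | h
        · left; simp [hV0, hx, h]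
        · right
          refine ⟨x1 * x, ?_, ?_⟩
          · rw [hV0, Finset.mem_filter]
            exact ⟨hmul x1 hx1 x hx, by simp [h, hg0]⟩
          · rw [← mul_assoc, hx1x1, one_mul]
      · rintro (h | ⟨a, ha, rfl⟩)
        · exact hV0sub h
        · exact hmul x1 hx1 a (hV0sub ha)
    have hdisj : Disjoint V0 (V0.image (fun x => x1 * x)) := by
      rw [Finset.disjoint_left]
      intro x hx hx'
      obtain ⟨a, ha, rfl⟩ := Finset.mem_image.1 hx'
      rw [hV0, Finset.mem_filter] at hx ha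
      have h1 := hx.2
      simp only [Pi.mul_apply, hg0, ha.2] at h1
      norm_num at h1
    have hcardI : (V0.image (fun x => x1 * x)).card = V0.card :=
      Finset.card_image_of_injOn (fun a _ b _ h => hinj x1 hx1 a b h)
    have hcardV : V.card = 2 * V0.card := by
      rw [hcov, Finset.card_union_of_disjoint hdisj, hcardI]; ring
    have hSmul : ∀ (y x : G → ℤ), Sm (fun g => y g • θ g) x = Sm θ (y * x) := by
      intro y x
      simp only [Sm, Pi.mul_apply, smul_smul]
      exact Finset.sum_congr rfl (fun g _ => by rw [mul_comm])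
    set Bg := V.filter (fun x => Sm θ x ∉ D (j + 1)) with hBg
    -- case B
    have caseB : ∀ y ∈ V, (∀ x ∈ V0, Sm θ (y * x1 * x) ∈ D (j + 1)) →
        (∃ x ∈ V0, Sm θ (y * x) ∉ D (j + 1)) → V.card ≤ 2 ^ j * Bg.card := by
      intro y hy hsmall hlarge
      set θ' : G → M := fun g => if x1 g = -1 then y g • θ g else 0 with hθ'
      have hθ'B : ∀ g, θ' g ∈ B := by
        intro g
        simp only [hθ']
        split_ifs
        · exact B.zsmul_mem (hθ g) _
        · exact B.zero_mem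
      have hdiff : ∀ x, Sm θ (y * x) - Sm θ (y * x1 * x) = (2 : ℤ) • Sm θ' x := by
        intro x
        simp only [Sm, Pi.mul_apply, Finset.smul_sum, ← Finset.sum_sub_distrib]
        apply Finset.sum_congr rfl
        intro g _
        simp only [hθ']
        rcases hpm x1 hx1 g with h | h
        · rw [h, if_neg (by norm_num), mul_one, sub_self, smul_zero, smul_zero]
        · rw [h, if_pos rfl, ← sub_smul, smul_smul, smul_smul]
          congr 1
          ring
      have hup : ∀ x ∈ V0, Sm θ (y * x) ∉ D (j + 1) → Sm θ' x ∉ D j := by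
        intro x hx hb hc
        apply hb
        have h1 := (hD2 j _ (Sm_mem hθ'B x)).2 hc
        rw [← hdiff x] at h1
        have h2 := (D (j + 1)).add_mem h1 (hsmall x hx)
        rwa [sub_add_cancel] at h2
      have hdown : ∀ x ∈ V0, Sm θ' x ∉ D j → Sm θ (y * x) ∉ D (j + 1) := by
        intro x hx hb hc
        apply hb
        apply (hD2 j _ (Sm_mem hθ'B x)).1
        rw [← hdiff x]
        exact (D (j + 1)).sub_mem hc (hsmall x hx)
      obtain ⟨x0, hx0, hx0b⟩ := hlarge
      rcases j with _ | j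
      · exact absurd (hD0 (Sm_mem hθ'B x0)) (hup x0 hx0 hx0b)
      · have h1 := ih j θ' hθ'B V0 hcard0 hpm0 hmul0 ⟨x0, hx0, hup x0 hx0 hx0b⟩
        have h2 : (V0.filter (fun x => Sm θ' x ∉ D (j + 1))).card ≤ Bg.card := by
          apply Finset.card_le_card_of_injOn (fun x => y * x)
          · intro x hx
            have hx' := Finset.mem_filter.1 (Finset.mem_coe.1 hx)
            apply Finset.mem_coe.2
            rw [hBg, Finset.mem_filter]
            exact ⟨hmul y hy x (hV0sub hx'.1), hdown x hx'.1 hx'.2⟩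
          · intro a _ b _ h
            exact hinj y hy a b h
        rw [hcardV, pow_succ]
        calc 2 * V0.card ≤ 2 * (2 ^ j * _) := Nat.mul_le_mul_left _ h1
          _ ≤ 2 * (2 ^ j * Bg.card) := Nat.mul_le_mul_left _ (Nat.mul_le_mul_left _ h2)
          _ = 2 ^ j * 2 * Bg.card := by ring
    by_cases hA0 : ∃ x ∈ V0, Sm θ x ∉ D (j + 1)
    · by_cases hA1 : ∃ x ∈ V0, Sm θ (x1 * x) ∉ D (j + 1)
      · -- case A
        have h1 := ih j θ hθ V0 hcard0 hpm0 hmul0 hA0
        have h2 := ih j (fun g => x1 g • θ g) (fun g => B.zsmul_mem (hθ g) _) V0 hcard0 hpm0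
          hmul0 (by
            obtain ⟨x, hx, hb⟩ := hA1
            exact ⟨x, hx, by rw [hSmul]; exact hb⟩)
        simp only [hSmul] at h2
        have h3 : (V0.filter (fun x => Sm θ x ∉ D (j + 1))).card +
            (V0.filter (fun x => Sm θ (x1 * x) ∉ D (j + 1))).card ≤ Bg.card := by
          have e1 : ((V0.filter (fun x => Sm θ (x1 * x) ∉ D (j + 1))).image
              (fun x => x1 * x)).card =
              (V0.filter (fun x => Sm θ (x1 * x) ∉ D (j + 1))).card :=
            Finset.card_image_of_injOn (fun a _ b _ h => hinj x1 hx1 a b h)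
          rw [← e1, ← Finset.card_union_of_disjoint]
          · apply Finset.card_le_card
            intro x hx
            rw [hBg, Finset.mem_filter]
            rcases Finset.mem_union.1 hx with h | h
            · have := Finset.mem_filter.1 h
              exact ⟨hV0sub this.1, this.2⟩
            · obtain ⟨a, ha, rfl⟩ := Finset.mem_image.1 h
              have := Finset.mem_filter.1 ha
              exact ⟨hmul x1 hx1 a (hV0sub this.1), this.2⟩
          · exact Finset.disjoint_of_subset_left (Finset.filter_subset _ _)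
              (Finset.disjoint_of_subset_right
                (Finset.image_subset_image (Finset.filter_subset _ _)) hdisj)
        rw [hcardV]
        calc 2 * V0.card = V0.card + V0.card := by ring
          _ ≤ 2 ^ j * _ + 2 ^ j * _ := Nat.add_le_add h1 h2
          _ = 2 ^ j * (_ + _) := by ring
          _ ≤ 2 ^ j * Bg.card := Nat.mul_le_mul_left _ h3
      · push Not at hA1
        apply caseB 1 hone
        · intro x hx
          rw [one_mul]; exact hA1 x hx
        · obtain ⟨x, hx, hb⟩ := hA0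
          exact ⟨x, hx, by rwa [one_mul]⟩
    · push Not at hA0
      apply caseB x1 hx1
      · intro x hx
        rw [hx1x1, one_mul]; exact hA0 x hx
      · obtain ⟨x, hx, hb⟩ := hbig
        rw [hcov] at hx
        rcases Finset.mem_union.1 hx with h | h
        · exact absurd (hA0 x h) hb
        · obtain ⟨a, ha, rfl⟩ := Finset.mem_image.1 h
          exact ⟨a, ha, hb⟩

open Classical in
/-- Reed-Muller bound for a filtration by subgroups -/
theorem rmD {B : AddSubgroup M} {D : ℕ → AddSubgroup M} (hD0 : B ≤ D 0)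
    (hD2 : ∀ k, ∀ m ∈ B, ((2 : ℤ) • m ∈ D (k + 1) ↔ m ∈ D k)) (j : ℕ) {θ : G → M}
    (hθ : ∀ g, θ g ∈ B) {V : Finset (G → ℤ)} (hpm : ∀ x ∈ V, ∀ g, x g = 1 ∨ x g = -1)
    (hmul : ∀ x ∈ V, ∀ y ∈ V, x * y ∈ V) (hbig : ∃ x ∈ V, Sm θ x ∉ D (j + 1)) :
    V.card ≤ 2 ^ j * (V.filter (fun x => Sm θ x ∉ D (j + 1))).card :=
  rm_aux B D hD0 hD2 V.card j θ hθ V le_rfl hpm hmul hbig

end RM

end Pool.Agent.Lib.MP_50bb2e_nt.Hgp.NF
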