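import Pool.Agent.Lib.MP_50bb2e_nt.ND.Iface
import Pool.Agent.Lib.MP_50bb2e_nt.PP.MainA
import Pool.Agent.Lib.MP_50bb2e_nt.Hgp.NFrm

/-!
MP_50bb2e_nt, board HGP, row NF-GOOD (helper94): systems of points over a number field; the
components which are not divisible by `2 ^ (j + 1)` have the group property and the design
property.
-/

set_option autoImplicit false

open IsDedekindDomain NumberField Filter Topology

namespace Pool.Agent.Lib.MP_50bb2e_nt.Hgp.NF

open Pool.Agent.Lib.MP_50bb2e_nt.PP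

section reps

/-- A sum over representatives does not depend on the representatives. -/
theorem sum_reps {G A α β : Type} [AddCommMonoid A] (I : Finset α) (J : Finset β) (r : α → G)
    (s : β → G) (rel : G → G → Prop) (hsymm : ∀ g h, rel g h → rel h g) (hI : ∀ g, ∃! i, i ∈ I ∧ rel g (r i))
    (hJ : ∀ g, ∃! i, i ∈ J ∧ rel g (s i)) (f : G → A) (hf : ∀ g h, rel g h → f g = f h) :
    ∑ i ∈ I, f (r i) = ∑ i ∈ J, f (s i) := by
  classical
  choose a ha ha' using hI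
  choose b hb hb' using hJ
  refine Finset.sum_bij' (fun i _ => b (r i)) (fun i _ => a (s i)) ?_ ?_ ?_ ?_ ?_
  · intro i _
    exact (hb (r i)).1
  · intro i _
    exact (ha (s i)).1
  · intro i hi
    exact (ha' (s (b (r i))) i ⟨hi, hsymm _ _ (hb (r i)).2⟩).symm
  · intro i hi
    exact (hb' (r (a (s i))) i ⟨hi, hsymm _ _ (ha (s i)).2⟩).symm
  · intro i _
    exact hf _ _ (hb (r i)).2

end reps

variable {F : Type} [Field F] [NumberField F] {G M : Type} [Group G] [AddCommGroup M]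
  [DistribMulAction G M]

/-- `g` and `h` are equal on the characters with conductor supported on `T`. -/
def Rel (gal : QChar F → G →* ℤˣ) (T : Finset (Pr F)) (g h : G) : Prop :=
  ∀ χ : QChar F, χ.T ⊆ T → gal χ g = gal χ h

omit [AddCommGroup M] [DistribMulAction G M] in
theorem Rel.symm' {gal : QChar F → G →* ℤˣ} {T : Finset (Pr F)} {g h : G} (H : Rel gal T g h) :
    Rel gal T h g := fun χ hχ => (H χ hχ).symm

theorem Rel.trans' {gal : QChar F → G →* ℤˣ} {T : Finset (Pr F)} {g h k : G}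
    (H : Rel gal T g h) (H' : Rel gal T h k) : Rel gal T g k :=
  fun χ hχ => (H χ hχ).trans (H' χ hχ)

theorem Rel.mono {gal : QChar F → G →* ℤˣ} {T T' : Finset (Pr F)} (hT : T ⊆ T') {g h : G}
    (H : Rel gal T' g h) : Rel gal T g h := fun χ hχ => H χ (hχ.trans hT)

/-- The points fixed by some `H_T`, `T ⊆ P` finite: the points over `K_∞`. -/
def Minf (M : Type) [AddCommGroup M] [DistribMulAction G M] (gal : QChar F → G →* ℤˣ)
    (P : Set (Pr F)) : AddSubgroup M where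
  carrier := {m | ∃ T : Finset (Pr F), (T : Set (Pr F)) ⊆ P ∧ ∀ g, Rel gal T g 1 → g • m = m}
  zero_mem' := ⟨∅, by simp, fun g _ => smul_zero g⟩
  add_mem' := by
    classical
    rintro a b ⟨T, hT, h⟩ ⟨T', hT', h'⟩
    refine ⟨T ∪ T', by simp [hT, hT'], fun g hg => ?_⟩
    rw [smul_add, h g (hg.mono Finset.subset_union_left), h' g (hg.mono Finset.subset_union_right)]
  neg_mem' := by
    rintro a ⟨T, hT, h⟩
    exact ⟨T, hT, fun g hg => by rw [smul_neg, h g hg]⟩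

open Classical in
/-- The data: `z T` is fixed by `H_T`; `R T` are representatives of `G / H_T`; the characters
`gal χ` are matched with the ray class characters; the trace from `T ∪ {p}` to `T`. -/
structure NFDat (gal : QChar F → G →* ℤˣ) (R : Finset (Pr F) → Finset G)
    (z : Finset (Pr F) → M) (P : Set (Pr F)) : Prop where
  fix : ∀ T : Finset (Pr F), (T : Set (Pr F)) ⊆ P → ∀ g, Rel gal T g 1 → g • z T = z T
  rep : ∀ T : Finset (Pr F), (T : Set (Pr F)) ⊆ P → ∀ g, ∃! h, h ∈ R T ∧ Rel gal T g h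
  artin : ∀ (g : G) (X : Finset (QChar F)), (∀ χ ∈ X, (χ.T : Set (Pr F)) ⊆ P) →
    ∃ a : Ideal (𝓞 F), ∀ χ ∈ X, χ.chi a = gal χ g
  norm : ∀ T : Finset (Pr F), (T : Set (Pr F)) ⊆ P → ∀ p ∈ P, p ∉ T →
    ∃ (a b : ℤ) (φ : G), Odd a ∧ Even b ∧
      ∑ h ∈ (R (insert p T)).filter (fun h => Rel gal T h 1), h • z (insert p T) =
        a • z T - b • φ • z T
  two : ∀ T : Finset (Pr F), (T : Set (Pr F)) ⊆ P → ∀ m : M,
    (∀ g, Rel gal T g 1 → g • m = m) → (2 : ℤ) • m = 0 → m = 0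

/-- the component of level `T` -/
def cmp (gal : QChar F → G →* ℤˣ) (R : Finset (Pr F) → Finset G)
    (z : Finset (Pr F) → M) (T : Finset (Pr F)) (χ : QChar F) : M :=
  ∑ h ∈ R T, ((gal χ h : ℤˣ) : ℤ) • h • z T

section

variable {gal : QChar F → G →* ℤˣ} {R : Finset (Pr F) → Finset G} {z : Finset (Pr F) → M}
  {P : Set (Pr F)}

theorem NFDat.no2 (D : NFDat gal R z P) :
    ∀ m ∈ Minf M gal P, (2 : ℤ) • m = 0 → m = 0 := by
  rintro m ⟨T, hT, h⟩ h2
  exact D.two T hT m h h2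

/-- `H_T` is normal -/
theorem rel_conj {T : Finset (Pr F)} {g : G} (hg : Rel gal T g 1) (h : G) :
    Rel gal T (h⁻¹ * g * h) 1 := by
  intro χ hχ
  have := hg χ hχ
  rw [map_one] at this
  rw [map_mul, map_mul, this, mul_one, map_inv, inv_mul_cancel, map_one]

theorem NFDat.mem (D : NFDat gal R z P) {T : Finset (Pr F)} (hT : (T : Set (Pr F)) ⊆ P) (h : G) :
    h • z T ∈ Minf M gal P := by
  refine ⟨T, hT, fun g hg => ?_⟩
  have h1 := D.fix T hT _ (rel_conj hg h)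
  rw [smul_smul]
  have e : g * h = h * (h⁻¹ * g * h) := by group
  rw [e, mul_smul, h1]

theorem NFDat.cmp_mem (D : NFDat gal R z P) {T : Finset (Pr F)} (hT : (T : Set (Pr F)) ⊆ P)
    (χ : QChar F) : cmp gal R z T χ ∈ Minf M gal P :=
  AddSubgroup.sum_mem _ fun h _ => AddSubgroup.zsmul_mem _ (D.mem hT h) _

theorem NFDat.const (D : NFDat gal R z P) {T : Finset (Pr F)} (hT : (T : Set (Pr F)) ⊆ P)
    {χ : QChar F} (hχ : χ.T ⊆ T) {g h : G} (H : Rel gal T g h) :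
    ((gal χ g : ℤˣ) : ℤ) • g • z T = ((gal χ h : ℤˣ) : ℤ) • h • z T := by
  have h1 : Rel gal T (h⁻¹ * g) 1 := by
    intro ψ hψ
    rw [map_mul, map_inv, H ψ hψ, inv_mul_cancel, map_one]
  have h2 := D.fix T hT _ h1
  have e : g = h * (h⁻¹ * g) := by group
  rw [H χ hχ]
  congr 1
  conv_lhs => rw [e]
  rw [mul_smul, h2]

open Classical in
/-- adding one prime to the level multiplies by an odd number -/
theorem NFDat.step (D : NFDat gal R z P) {T : Finset (Pr F)} (hT : (T : Set (Pr F)) ⊆ P)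
    {p : Pr F} (hp : p ∈ P) (hpT : p ∉ T) {χ : QChar F} (hχ : χ.T ⊆ T) :
    ∃ c : ℤ, Odd c ∧ cmp gal R z (insert p T) χ = c • cmp gal R z T χ := by
  have hT' : ((insert p T : Finset (Pr F)) : Set (Pr F)) ⊆ P := by
    intro q hq
    rw [Finset.coe_insert] at hq
    rcases Set.mem_insert_iff.1 hq with h | h
    · rw [h]; exact hp
    · exact hT h
  obtain ⟨a, b, φ, ha, hb, hn⟩ := D.norm T hT p hp hpT
  have hχ' : χ.T ⊆ insert p T := hχ.trans (Finset.subset_insert _ _)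
  set K := (R (insert p T)).filter (fun h => Rel gal T h 1) with hK
  -- the sum over the pairs
  have h1 : cmp gal R z (insert p T) χ =
      ∑ x ∈ R T ×ˢ K, ((gal χ (x.1 * x.2) : ℤˣ) : ℤ) • (x.1 * x.2) • z (insert p T) := by
    refine sum_reps (R (insert p T)) (R T ×ˢ K) id (fun x : G × G => x.1 * x.2)
      (Rel gal (insert p T)) (fun g h => Rel.symm')
      (fun g => D.rep _ hT' g) ?_ (fun g => ((gal χ g : ℤˣ) : ℤ) • g • z (insert p T))
      (fun g h H => D.const hT' hχ' H)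
    intro g
    obtain ⟨u, ⟨hu, hgu⟩, huu⟩ := D.rep T hT g
    obtain ⟨k, ⟨hk, hgk⟩, hkk⟩ := D.rep _ hT' (u⁻¹ * g)
    have hk1 : Rel gal T k 1 := by
      intro ψ hψ
      rw [← hgk ψ (hψ.trans (Finset.subset_insert _ _)), map_mul, map_inv, hgu ψ hψ,
        inv_mul_cancel, map_one]
    refine ⟨(u, k), ⟨Finset.mem_product.2 ⟨hu, Finset.mem_filter.2 ⟨hk, hk1⟩⟩, ?_⟩, ?_⟩
    · intro ψ hψ
      show gal ψ g = gal ψ (u * k)
      rw [map_mul, ← hgk ψ hψ, map_mul, map_inv, mul_inv_cancel_left]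
    · rintro ⟨u', k'⟩ ⟨hm, hr⟩
      obtain ⟨hu', hk'⟩ := Finset.mem_product.1 hm
      obtain ⟨hk', hk1'⟩ := Finset.mem_filter.1 hk'
      have e1 : u' = u := by
        apply huu
        refine ⟨hu', fun ψ hψ => ?_⟩
        have h2 := hr ψ (hψ.trans (Finset.subset_insert _ _))
        have h3 := hk1' ψ hψ
        rw [map_one] at h3
        show gal ψ g = gal ψ u'
        rw [h2]
        show gal ψ (u' * k') = gal ψ u'
        rw [map_mul, h3, mul_one]
      subst e1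
      have e2 : k' = k := by
        apply hkk
        refine ⟨hk', fun ψ hψ => ?_⟩
        have h2 : gal ψ g = gal ψ (u' * k') := hr ψ hψ
        rw [map_mul, map_inv, h2, map_mul, inv_mul_cancel_left]
      rw [e2]
  have h2 : cmp gal R z (insert p T) χ = ∑ g ∈ R T, ((gal χ g : ℤˣ) : ℤ) •
      g • (a • z T - b • φ • z T) := by
    rw [h1, Finset.sum_product]
    apply Finset.sum_congr rfl
    intro g _
    rw [← hn, Finset.smul_sum, Finset.smul_sum]
    apply Finset.sum_congr rfl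
    intro k hk
    have hk1 := (Finset.mem_filter.1 hk).2 χ hχ
    rw [map_one] at hk1
    show ((gal χ (g * k) : ℤˣ) : ℤ) • (g * k) • z (insert p T) = _
    rw [map_mul, hk1, mul_one, mul_smul]
  -- the Frobenius
  have h3 : ∑ g ∈ R T, ((gal χ (g * φ) : ℤˣ) : ℤ) • (g * φ) • z T = cmp gal R z T χ := by
    symm
    refine sum_reps (R T) (R T) id (fun x : G => x * φ) (Rel gal T) (fun g h => Rel.symm')
      (fun g => D.rep _ hT g) ?_
      (fun g => ((gal χ g : ℤˣ) : ℤ) • g • z T) (fun g h H => D.const hT hχ H)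
    intro g
    obtain ⟨u, ⟨hu, hgu⟩, huu⟩ := D.rep T hT (g * φ⁻¹)
    refine ⟨u, ⟨hu, fun ψ hψ => ?_⟩, ?_⟩
    · have := hgu ψ hψ
      rw [map_mul, map_inv, mul_inv_eq_iff_eq_mul] at this
      rw [this]
      show gal ψ u * gal ψ φ = gal ψ (u * φ)
      rw [map_mul]
    · rintro u' ⟨hu', hr⟩
      apply huu
      refine ⟨hu', fun ψ hψ => ?_⟩
      have : gal ψ g = gal ψ (u' * φ) := hr ψ hψ
      rw [map_mul, map_inv, this, map_mul, mul_inv_cancel_right]
  refine ⟨a - b * ((gal χ φ : ℤˣ) : ℤ), ha.sub_even (hb.mul_right _), ?_⟩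
  rw [h2]
  have h4 : ∑ g ∈ R T, ((gal χ g : ℤˣ) : ℤ) • g • φ • z T =
      ((gal χ φ : ℤˣ) : ℤ) • cmp gal R z T χ := by
    rw [← h3, Finset.smul_sum]
    apply Finset.sum_congr rfl
    intro g _
    have h5 : ((gal χ φ : ℤˣ) : ℤ) * ((gal χ φ : ℤˣ) : ℤ) = 1 := by
      rw [← Units.val_mul, Int.units_mul_self, Units.val_one]
    have h7 : ((gal χ (g * φ) : ℤˣ) : ℤ) = ((gal χ φ : ℤˣ) : ℤ) * ((gal χ g : ℤˣ) : ℤ) := by
      rw [map_mul, Units.val_mul, mul_comm]
    rw [h7, mul_smul (((gal χ φ : ℤˣ) : ℤ)) (((gal χ g : ℤˣ) : ℤ)) ((g * φ) • z T),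
      smul_smul (((gal χ φ : ℤˣ) : ℤ)) (((gal χ φ : ℤˣ) : ℤ)), h5, one_smul, mul_smul g φ]
  have h6 : ∀ g : G, ((gal χ g : ℤˣ) : ℤ) • g • (a • z T - b • φ • z T) =
      a • (((gal χ g : ℤˣ) : ℤ) • g • z T) - b • (((gal χ g : ℤˣ) : ℤ) • g • φ • z T) := by
    intro g
    have e1 : g • a • z T = a • g • z T := (DistribSMul.toAddMonoidHom M g).map_zsmul _ _
    have e2 : g • b • φ • z T = b • g • φ • z T :=
      (DistribSMul.toAddMonoidHom M g).map_zsmul _ _
    rw [smul_sub, smul_sub, e1, e2, smul_comm (((gal χ g : ℤˣ) : ℤ)) a,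
      smul_comm (((gal χ g : ℤˣ) : ℤ)) b]
  rw [Finset.sum_congr rfl (fun g _ => h6 g), Finset.sum_sub_distrib, ← Finset.smul_sum,
    ← Finset.smul_sum, h4, sub_smul, smul_smul]
  rfl

/-- all levels -/
theorem NFDat.level (D : NFDat gal R z P) {T : Finset (Pr F)} (hT : (T : Set (Pr F)) ⊆ P)
    {χ : QChar F} (hχ : χ.T ⊆ T) :
    ∃ c : ℤ, Odd c ∧ cmp gal R z T χ = c • cmp gal R z χ.T χ := by
  classical
  obtain ⟨U, hU⟩ : ∃ U : Finset (Pr F), T = U ∪ χ.T := ⟨T, by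
    rw [Finset.union_eq_left.2 hχ]⟩
  subst hU
  induction U using Finset.induction_on with
  | empty => exact ⟨1, odd_one, by rw [Finset.empty_union, one_smul]⟩
  | insert p U hp ih =>
    rw [Finset.insert_union] at hT ⊢
    have hT1 : ((U ∪ χ.T : Finset (Pr F)) : Set (Pr F)) ⊆ P := by
      refine subset_trans ?_ hT
      exact Finset.coe_subset.2 (Finset.subset_insert _ _)
    obtain ⟨c, hc, h⟩ := ih hT1 Finset.subset_union_right
    by_cases hpU : p ∈ U ∪ χ.T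
    · rw [Finset.insert_eq_of_mem hpU]
      exact ⟨c, hc, h⟩
    · obtain ⟨c', hc', h'⟩ := D.step hT1 (hT (by simp)) hpU
        (χ := χ) Finset.subset_union_right
      exact ⟨c' * c, hc'.mul hc, by rw [h', h, smul_smul]⟩

theorem NFDat.dv_level (D : NFDat gal R z P) {T : Finset (Pr F)} (hT : (T : Set (Pr F)) ⊆ P)
    {χ : QChar F} (hχ : χ.T ⊆ T) (k : ℕ) :
    cmp gal R z T χ ∈ Dv (Minf M gal P) k ↔ cmp gal R z χ.T χ ∈ Dv (Minf M gal P) k := by
  obtain ⟨c, hc, h⟩ := D.level hT hχ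
  rw [h]
  exact Dv_odd (D.cmp_mem ((Finset.coe_subset.2 hχ).trans hT) χ) hc

/-- the predicate -/
def Lgz (gal : QChar F → G →* ℤˣ) (R : Finset (Pr F) → Finset G)
    (z : Finset (Pr F) → M) (P : Set (Pr F)) (j : ℕ) (χ : QChar F) : Prop :=
  cmp gal R z χ.T χ ∉ Dv (Minf M gal P) (j + 1)

theorem NFDat.inf (D : NFDat gal R z P) {χ : QChar F} (hχ : (χ.T : Set (Pr F)) ⊆ P) {j : ℕ}
    (h : Lgz gal R z P j χ) : ∀ n : ℕ, 0 < n → n • cmp gal R z χ.T χ ≠ 0 :=
  inf_of_not_Dv D.no2 (D.cmp_mem hχ χ) h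

/-- the design property -/
theorem NFDat.des (D : NFDat gal R z P) (j : ℕ) (X : Type) [Fintype X] (x0 : X)
    (ρ : X → QChar F) (hρ : ∀ x, ((ρ x).T : Set (Pr F)) ⊆ P)
    (hdiv : ∀ a : Ideal (𝓞 F), (∀ x, (ρ x).chi a ≠ 0) → (2 : ℤ) ^ (j + 1) ∣ ∑ x, (ρ x).chi a)
    (h0 : Lgz gal R z P j (ρ x0)) : ∃ x, x ≠ x0 ∧ Lgz gal R z P j (ρ x) := by
  classical
  by_contra hcon
  push Not at hcon
  set T : Finset (Pr F) := Finset.univ.biUnion (fun x => (ρ x).T) with hTd
  have hTρ : ∀ x, (ρ x).T ⊆ T :=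
    fun x => Finset.subset_biUnion_of_mem (fun x => (ρ x).T) (Finset.mem_univ x)
  have hT : (T : Set (Pr F)) ⊆ P := by
    intro v hv
    obtain ⟨x, -, hv⟩ := Finset.mem_biUnion.1 (Finset.mem_coe.1 hv)
    exact hρ x hv
  have hsmall : ∀ x, x ≠ x0 → cmp gal R z T (ρ x) ∈ Dv (Minf M gal P) (j + 1) := by
    intro x hx
    rw [D.dv_level hT (hTρ x)]
    by_contra h
    exact hcon x hx h
  have hsum : ∑ x, cmp gal R z T (ρ x) ∈ Dv (Minf M gal P) (j + 1) := by
    have e1 : ∑ x, cmp gal R z T (ρ x) =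
        ∑ h ∈ R T, (∑ x, ((gal (ρ x) h : ℤˣ) : ℤ)) • h • z T := by
      unfold cmp
      rw [Finset.sum_comm]
      exact Finset.sum_congr rfl fun h _ => (Finset.sum_smul).symm
    rw [e1]
    apply AddSubgroup.sum_mem
    intro h _
    obtain ⟨a, ha⟩ := D.artin h (Finset.univ.image ρ) (by
      intro χ hχ
      obtain ⟨x, _, rfl⟩ := Finset.mem_image.1 hχ
      exact hρ x)
    have ha' : ∀ x, (ρ x).chi a = ((gal (ρ x) h : ℤˣ) : ℤ) :=
      fun x => ha _ (Finset.mem_image_of_mem _ (Finset.mem_univ x))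
    obtain ⟨m, hm⟩ := hdiv a (fun x => by rw [ha' x]; exact Units.ne_zero _)
    rw [Finset.sum_congr rfl (fun x _ => (ha' x).symm), hm, mul_smul]
    exact Dv_pow (j + 1) (AddSubgroup.zsmul_mem _ (D.mem hT h) _)
  apply h0
  rw [← D.dv_level hT (hTρ x0)]
  have e2 : cmp gal R z T (ρ x0) = ∑ x, cmp gal R z T (ρ x) -
      ∑ x ∈ Finset.univ.erase x0, cmp gal R z T (ρ x) := by
    rw [← Finset.add_sum_erase _ _ (Finset.mem_univ x0), add_sub_cancel_right]
  rw [e2]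
  apply AddSubgroup.sub_mem _ hsum
  apply AddSubgroup.sum_mem
  intro x hx
  exact hsmall x (Finset.ne_of_mem_erase hx)

open Classical in
/-- the group property -/
theorem NFDat.grp (D : NFDat gal R z P) (hinj : InjStatement) (j : ℕ)
    (hbase : ∑ h ∈ R ∅, h • z ∅ ∉ Dv (Minf M gal P) (j + 1)) (V : Finset (QChar F))
    (hVne : V.Nonempty) (hVP : ∀ χ ∈ V, (χ.T : Set (Pr F)) ⊆ P)
    (hVcl : Closed (V : Set (QChar F))) :
    V.card ≤ 2 ^ j * (V.filter (Lgz gal R z P j)).card := by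
  set T : Finset (Pr F) := V.biUnion (fun χ => χ.T) with hTd
  have hTV : ∀ χ ∈ V, χ.T ⊆ T := fun χ hχ => Finset.subset_biUnion_of_mem (fun χ => χ.T) hχ
  have hT : (T : Set (Pr F)) ⊆ P := by
    intro v hv
    obtain ⟨χ, hχ, hv⟩ := Finset.mem_biUnion.1 (Finset.mem_coe.1 hv)
    exact hVP χ hχ hv
  -- sign vectors
  set Gs : Set (↥V → ℤ) := {s | ∃ a : Ideal (𝓞 F), (∀ χ : ↥V, χ.1.chi a ≠ 0) ∧
    ∀ χ : ↥V, s χ = χ.1.chi a} with hGs
  have hval : ∀ (χ : QChar F) (a : Ideal (𝓞 F)), χ.chi a ≠ 0 → χ.chi a = 1 ∨ χ.chi a = -1 := by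
    intro χ a h
    apply χ.val a
    · rintro rfl
      exact h χ.bot
    · by_contra hc
      exact h (χ.zero a hc)
  have hGpm : ∀ s ∈ Gs, ∀ χ, s χ = 1 ∨ s χ = -1 := by
    rintro s ⟨a, ha, hs⟩ χ
    rw [hs χ]
    exact hval _ _ (ha χ)
  have hGfin : Gs.Finite := by
    apply Set.Finite.subset (Set.Finite.pi (fun _ : ↥V => (Set.toFinite ({1, -1} : Set ℤ))))
    intro s hs
    rw [Set.mem_univ_pi]
    intro χ
    rcases hGpm s hs χ with h | h <;> simp [h]
  obtain ⟨hGft⟩ : Nonempty (Fintype ↥Gs) := ⟨hGfin.fintype⟩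
  -- the elements of the group give sign vectors
  have hsv : ∀ g : G, (fun χ : ↥V => ((gal χ.1 g : ℤˣ) : ℤ)) ∈ Gs := by
    intro g
    obtain ⟨a, ha⟩ := D.artin g V hVP
    exact ⟨a, fun χ => by rw [ha χ.1 χ.2]; exact Units.ne_zero _, fun χ => (ha χ.1 χ.2).symm⟩
  set sv : G → ↥Gs := fun g => ⟨_, hsv g⟩ with hsvd
  set θ : ↥Gs → M := fun s => ∑ h ∈ (R T).filter (fun h => sv h = s), h • z T with hθ
  have hθB : ∀ s, θ s ∈ Minf M gal P := fun s => AddSubgroup.sum_mem _ fun h _ => D.mem hT h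
  set ev : ↥V → (↥Gs → ℤ) := fun χ s => s.1 χ with hev
  have hS : ∀ χ : ↥V, Sm θ (ev χ) = cmp gal R z T χ.1 := by
    intro χ
    simp only [Sm, hθ, hev]
    unfold cmp
    rw [← Finset.sum_fiberwise_of_maps_to (g := sv) (s := R T) (t := Finset.univ)
      (fun h _ => Finset.mem_univ _)]
    apply Finset.sum_congr rfl
    intro s _
    rw [Finset.smul_sum]
    apply Finset.sum_congr rfl
    intro h hh
    have := (Finset.mem_filter.1 hh).2
    rw [← this]
  have hinj' : Function.Injective ev := by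
    intro χ ψ h
    apply Subtype.ext
    apply hinj F χ.1 ψ.1 T
    intro a ha haT _ _
    have hnz : ∀ ρ : ↥V, ρ.1.chi a ≠ 0 := by
      intro ρ
      rcases ρ.1.val a ha (fun v hv => haT v (hTV ρ.1 ρ.2 hv)) with h | h <;> rw [h] <;> norm_num
    exact congrFun h ⟨fun ρ => ρ.1.chi a, a, hnz, fun _ => rfl⟩
  set V' : Finset (↥Gs → ℤ) := Finset.univ.image ev with hV'
  have hcardV' : V'.card = V.card := by
    rw [hV', Finset.card_image_of_injective _ hinj', Finset.card_univ, Fintype.card_coe]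
  have key := rmD (B := Minf M gal P) (D := Dv (Minf M gal P)) (Dv_zero _)
    (fun k m hm => Dv_two D.no2 hm) j hθB (V := V')
    (by
      intro x hx s
      obtain ⟨χ, _, rfl⟩ := Finset.mem_image.1 hx
      exact hGpm s.1 s.2 χ)
    (by
      intro x hx y hy
      obtain ⟨χ, _, rfl⟩ := Finset.mem_image.1 hx
      obtain ⟨ψ, _, rfl⟩ := Finset.mem_image.1 hy
      obtain ⟨ρ, hρ, hρe⟩ := hVcl χ.1 χ.2 ψ.1 ψ.2
      apply Finset.mem_image.2
      refine ⟨⟨ρ, hρ⟩, Finset.mem_univ _, ?_⟩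
      funext s
      obtain ⟨a, ha, hs⟩ := s.2
      simp only [Pi.mul_apply, hev]
      rw [hs, hs, hs]
      exact hρe a (ha χ) (ha ψ))
    (by
      obtain ⟨χ, hχ⟩ := hVne
      obtain ⟨ρ, hρ, hρχ⟩ := hVcl χ hχ χ hχ
      refine ⟨ev ⟨ρ, hρ⟩, Finset.mem_image.2 ⟨⟨ρ, hρ⟩, Finset.mem_univ _, rfl⟩, ?_⟩
      rw [hS]
      show cmp gal R z T ρ ∉ _
      -- `ρ` is trivial
      have h1 : ∀ a, (∀ χ : ↥V, χ.1.chi a ≠ 0) → ρ.chi a = 1 := by
        intro a ha
        rw [hρχ a (ha ⟨χ, hχ⟩) (ha ⟨χ, hχ⟩)]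
        rcases hval χ a (ha ⟨χ, hχ⟩) with h | h <;> rw [h] <;> norm_num
      have h2 : ∀ g, gal ρ g = 1 := by
        intro g
        obtain ⟨a, ha⟩ := D.artin g V hVP
        have h3 := h1 a (fun χ => by rw [ha χ.1 χ.2]; exact Units.ne_zero _)
        rw [ha ρ hρ] at h3
        exact Units.ext h3
      have hρT : ρ.T = ∅ := by
        have h3 : ρ = trivQ F := by
          apply hinj F ρ (trivQ F) T
          intro a ha haT _ _
          rw [h1 a (fun χ => by
            rcases χ.1.val a ha (fun v hv => haT v (hTV χ.1 χ.2 hv)) with h | h <;> rw [h] <;>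
              norm_num)]
          simp [trivQ, ha]
        rw [h3]
        rfl
      rw [D.dv_level hT (hTV ρ hρ)]
      unfold cmp
      rw [hρT]
      simpa [h2] using hbase)
  rw [hcardV'] at key
  refine key.trans (Nat.mul_le_mul_left _ ?_)
  have h8 : V'.filter (fun x => Sm θ x ∉ Dv (Minf M gal P) (j + 1)) ⊆
      (Finset.univ.filter (fun χ : ↥V => Lgz gal R z P j χ.1)).image ev := by
    intro x hx
    rw [Finset.mem_filter] at hx
    obtain ⟨χ, _, rfl⟩ := Finset.mem_image.1 hx.1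
    apply Finset.mem_image.2
    refine ⟨χ, Finset.mem_filter.2 ⟨Finset.mem_univ _, ?_⟩, rfl⟩
    have h9 := hx.2
    rw [hS, D.dv_level hT (hTV χ.1 χ.2)] at h9
    exact h9
  refine (Finset.card_le_card h8).trans (Finset.card_image_le.trans ?_)
  apply Finset.card_le_card_of_injOn (fun χ : ↥V => χ.1)
  · intro χ hχ
    have := Finset.mem_filter.1 (Finset.mem_coe.1 hχ)
    exact Finset.mem_coe.2 (Finset.mem_filter.2 ⟨χ.2, this.2⟩)
  · intro a _ b _ h
    exact Subtype.ext h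

/-- ROW NF-GOOD -/
theorem NFDat.good (D : NFDat gal R z P) (hinj : InjStatement) (j : ℕ)
    (hbase : ∑ h ∈ R ∅, h • z ∅ ∉ Dv (Minf M gal P) (j + 1)) :
    ND.Good P j (Lgz gal R z P j) :=
  ⟨fun V hV hVP hcl => D.grp hinj j hbase V hV hVP hcl,
    fun X _ x0 ρ hρ hdiv h0 => D.des j X x0 ρ hρ hdiv h0⟩

end

end Pool.Agent.Lib.MP_50bb2e_nt.Hgp.NF
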