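import Pool.Agent.Lib.MP_50bb2e_nt.Hgp.NFpts
import Pool.Agent.Lib.MP_50bb2e_nt.Hgp.Ht

/-!
MP_50bb2e_nt, board HGP (helper73), number fields: the base point, and the main theorem.
-/

open IsDedekindDomain NumberField Filter

namespace Pool.Agent.Lib.MP_50bb2e_nt.Hgp.NF

open Pool.Agent.Lib.MP_50bb2e_nt.PP Pool.Agent.Lib.MP_50bb2e_nt.ND

noncomputable section

variable {F : Type} [Field F] [NumberField F]

theorem yK_eq (x : Heegner F) (hN : x.Norm) :
    x.yK = ∑ h ∈ RG x ∅, h • x.z ∅ := by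
  unfold Heegner.yK
  rw [← sum_RG x hN ∅ (fun h => act x.E h (x.z ∅))]
  rfl

open Classical in
theorem yK_fixed (x : Heegner F) (hN : x.Norm) (h2 : ∀ Q : Pt x.E F, 2 • Q = 0 → Q = 0)
    (g : Gd F x.δ) : g • x.yK = x.yK := by
  have D := dat x hN h2
  rw [yK_eq x hN, Finset.smul_sum]
  have hemp : ((∅ : Finset (Pr F)) : Set (Pr F)) ⊆ {v | x.Good v} := by simp
  symm
  have := sum_reps (RG x ∅) (RG x ∅) id (fun h : Gd F x.δ => g * h) (Rel (galG x hN) ∅)
    (fun g h => Rel.symm') (fun g => D.rep ∅ hemp g) ?_ (fun h : Gd F x.δ => h • x.z ∅) ?_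
  · refine this.trans ?_
    exact Finset.sum_congr rfl fun h _ => mul_smul g h _
  · intro k
    obtain ⟨u, ⟨hu, hku⟩, huu⟩ := D.rep ∅ hemp (g⁻¹ * k)
    refine ⟨u, ⟨hu, fun ψ hψ => ?_⟩, ?_⟩
    · change galG x hN ψ k = galG x hN ψ (g * u)
      rw [map_mul, ← hku ψ hψ, map_mul, map_inv, mul_inv_cancel_left]
    · rintro u' ⟨hu', hr⟩
      apply huu
      refine ⟨hu', fun ψ hψ => ?_⟩
      have h3 : galG x hN ψ k = galG x hN ψ (g * u') := hr ψ hψ
      rw [map_mul, map_inv, h3, map_mul, inv_mul_cancel_left]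
  · intro a b hab
    have h1 : Rel (galG x hN) ∅ (b⁻¹ * a) 1 := by
      intro ψ hψ
      rw [map_mul, map_inv, hab ψ hψ, inv_mul_cancel, map_one]
    have h3 := D.fix ∅ hemp _ h1
    have e : a = b * (b⁻¹ * a) := by group
    conv_lhs => rw [e]
    rw [mul_smul, h3]

/-- points of infinite order over a number field are not infinitely divisible by 2 -/
theorem not_dv (E : WeierstrassCurve F) (hE : E.IsElliptic) (L : IntermediateField F (Fb F))
    (hL : FiniteDimensional F L) (y : Pt E L) (hy : ∀ n : ℕ, 0 < n → n • y ≠ 0) :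
    ∃ k : ℕ, ¬ Hgp.Dv y (k + 1) := by
  have hcz : CharZero L := charZero_of_injective_algebraMap (algebraMap F L).injective
  have hfd : FiniteDimensional ℚ L := FiniteDimensional.trans ℚ F L
  have hnf : NumberField L := { to_charZero := hcz, to_finiteDimensional := hfd }
  have hell : (E.baseChange L).IsElliptic := inferInstanceAs (E.map (algebraMap F L)).IsElliptic
  obtain ⟨k, hk⟩ := Ht.not_div (E.baseChange L) y hy
  refine ⟨k, fun h => ?_⟩
  obtain ⟨c, hc, q, hq⟩ := h.pred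
  obtain ⟨m, rfl⟩ := hc
  have hcop : IsCoprime (2 * m + 1) ((2 : ℤ) ^ k) := by
    refine IsCoprime.pow_right ?_
    exact ⟨1, -m, by ring⟩
  obtain ⟨a, b, hab⟩ := hcop
  apply hk (a • q + b • y)
  rw [← natCast_zsmul]
  push_cast
  rw [smul_add, smul_comm _ a q, ← hq, smul_comm _ b y, ← mul_smul, ← mul_smul, ← add_smul, hab,
    one_smul]

open Classical in
theorem undiv (x : Heegner F) (hN : x.Norm) (h2 : ∀ Q : Pt x.E F, 2 • Q = 0 → Q = 0)
    (hy : Inf x.yK) : ∃ j : ℕ, x.Undiv j := by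
  have hgal : IsGalois F (Fb F) := gal_inst
  set L : IntermediateField F (Fb F) := IntermediateField.adjoin F {x.δ} with hL
  have hδL : x.δ ∈ L := IntermediateField.subset_adjoin F _ (Set.mem_singleton _)
  -- descent to `K`
  have hdesc : ∀ Q : Pt x.E (Fb F), (∀ g : Gd F x.δ, g • Q = Q) →
      ∃ Q0 : Pt x.E L, WeierstrassCurve.Affine.Point.map (W' := x.E) L.val Q0 = Q := by
    intro Q hQ
    exact descent x.E L Q fun g hg => hQ ⟨g, hg _ hδL⟩
  let f : Pt x.E L →+ Pt x.E (Fb F) := WeierstrassCurve.Affine.Point.map (W' := x.E) L.val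
  have hf : Function.Injective f := WeierstrassCurve.Affine.Point.map_injective _
  obtain ⟨y0, hy0⟩ := hdesc x.yK (yK_fixed x hN h2)
  have hy0' : f y0 = x.yK := hy0
  have hfin : FiniteDimensional F L := by
    have : Finite ↑({x.δ} : Set (Fb F)) := Set.finite_singleton _
    have halg : Algebra.IsAlgebraic F (Fb F) := AlgebraicClosure.isAlgebraic F
    exact IntermediateField.finiteDimensional_adjoin
      fun y _ => (Algebra.IsIntegral.isIntegral y)
  obtain ⟨k, hk⟩ := not_dv x.E x.ell L hfin y0 (by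
    intro n hn h
    apply hy n hn
    rw [← hy0', ← map_nsmul, h, map_zero])
  refine ⟨k, fun Q hQ he => hk ?_⟩
  obtain ⟨q0, hq0⟩ := hdesc Q (fun g => hQ g g.2)
  have hq0' : f q0 = Q := hq0
  refine ⟨1, odd_one, q0, ?_⟩
  apply hf
  rw [map_zsmul, map_zsmul, hy0', hq0', ← he, one_smul, ← natCast_zsmul]
  push_cast
  rfl

open Classical in
theorem base (x : Heegner F) (hN : x.Norm) (h2 : ∀ Q : Pt x.E F, 2 • Q = 0 → Q = 0)
    (j : ℕ) (hj : x.Undiv j) : ∑ h ∈ RG x ∅, h • x.z ∅ ∉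
      Dv (Minf (Pt x.E (Fb F)) (galG x hN) {v | x.Good v}) (j + 1) := by
  have D := dat x hN h2
  rw [← yK_eq x hN]
  intro hmem
  obtain ⟨-, c, hc, q, hq, he⟩ := mem_Dv.1 hmem
  -- `q` is fixed by all automorphisms over `K`
  have hqf : ∀ g : Gd F x.δ, g • q = q := by
    intro g
    obtain ⟨T, hT, hfix⟩ := hq
    have hfix' : ∀ k : Gd F x.δ, Rel (galG x hN) T k 1 → k • (g • q - q) = g • q - q := by
      intro k hk
      have h3 := hfix _ (rel_conj hk g)
      have e : k * g = g * (g⁻¹ * k * g) := by group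
      rw [smul_sub, hfix k hk, ← mul_smul, e, mul_smul, h3]
    have hpow : ∀ e : ℕ, ∀ m : Pt x.E (Fb F),
        (∀ k : Gd F x.δ, Rel (galG x hN) T k 1 → k • m = m) → ((2 : ℤ) ^ e) • m = 0 → m = 0 := by
      intro e
      induction e with
      | zero => intro m _ h; simpa using h
      | succ e ih =>
        intro m hm h
        apply ih m hm
        refine D.two T hT _ (fun k hk => ?_) ?_
        · rw [smul_comm k ((2 : ℤ) ^ e) m, hm k hk]
        · rw [← mul_smul, ← pow_succ', h]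
    have h4 : ((2 : ℤ) ^ (j + 1)) • (g • q - q) = 0 := by
      rw [smul_sub, smul_comm _ g q, ← he, smul_comm g c x.yK, yK_fixed x hN h2 g, sub_self]
    exact sub_eq_zero.1 (hpow _ _ hfix' h4)
  obtain ⟨m, rfl⟩ := hc
  have hcop : IsCoprime (2 * m + 1) ((2 : ℤ) ^ (j + 1)) := by
    refine IsCoprime.pow_right ?_
    exact ⟨1, -m, by ring⟩
  obtain ⟨a, b, hab⟩ := hcop
  refine hj (a • q + b • x.yK) (fun g hg => ?_) ?_
  · have h3 := hqf ⟨g, hg⟩
    have h4 := yK_fixed x hN h2 ⟨g, hg⟩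
    have h5 : act x.E g q = q := h3
    have h6 : act x.E g x.yK = x.yK := h4
    rw [map_add, map_zsmul, map_zsmul, h5, h6]
  · rw [← natCast_zsmul]
    push_cast
    rw [smul_add, smul_comm _ a q, ← he, smul_comm _ b x.yK, ← mul_smul, ← mul_smul, ← add_smul,
      hab, one_smul]

theorem cmp_eq (x : Heegner F) (hN : x.Norm) (χ : QChar F) :
    cmp (galG x hN) (RG x) x.z χ.T χ = x.comp χ := by
  classical
  unfold cmp Heegner.comp
  rw [← sum_RG x hN χ.T (fun h => x.sign χ h • act x.E h (x.z χ.T))]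
  refine Finset.sum_congr rfl fun h _ => ?_
  have h1 : ((galG x hN χ h : ℤˣ) : ℤ) = x.sign χ h := by
    change ((galx x hN χ h : ℤˣ) : ℤ) = _
    unfold Heegner.sign
    by_cases hh : (h : Fb F ≃ₐ[F] Fb F) (x.r χ) = x.r χ
    · rw [galx_one.2 hh, if_pos hh]
      rfl
    · have h3 := (sq_cases (hN.sqrt_chi χ).2 (h : Fb F ≃ₐ[F] Fb F)).resolve_left hh
      have e1 : galx x hN χ h = -1 := sgn_neg (hN.sqrt_chi χ).1 h3
      rw [e1, if_neg hh]
      rfl
  rw [h1]
  congr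

open Classical in
/-- THE MAIN THEOREM over number fields -/
theorem main (x : Heegner F) (hN : x.Norm) (h2 : ∀ Q : Pt x.E F, 2 • Q = 0 → Q = 0) :
    (Inf x.yK → ∃ j : ℕ, x.Undiv j) ∧
    ∀ j : ℕ, x.Undiv j → ∀ P : Set (Pr F), (∀ v ∈ P, x.Good v) →
      Many P j (fun χ => Inf (x.comp χ)) ∧
      (x.GrossZagier → x.Parity → Many P j x.Least) := by
  have D := dat x hN h2
  refine ⟨undiv x hN h2, fun j hU P hP => ?_⟩
  have hG := D.good inj' j (base x hN h2 j hU)
  have hPs : P ⊆ {v | x.Good v} := hP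
  have hG' := good_mono hG hPs
  have hodd : ∀ v ∈ P, Odd (nm v) := fun v hv => (hP v hv).1
  have hinf : ∀ χ : QChar F, (χ.T : Set (Pr F)) ⊆ P →
      Lgz (galG x hN) (RG x) x.z {v | x.Good v} j χ → Inf (x.comp χ) := by
    intro χ hχ h
    rw [← cmp_eq x hN χ]
    exact D.inf (hχ.trans hPs) h
  refine ⟨many hG' hodd hinf, fun hGZ hpar => many hG' hodd ?_⟩
  intro χ hχ h
  have hg : ∀ v ∈ χ.T, x.Good v := fun v hv => hP v (hχ hv)
  obtain ⟨a, k, h1, h3, h4⟩ := hGZ χ hg (hinf χ hχ h)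
  have h5 := hpar χ hg a h1
  unfold Heegner.Least
  have h6 : (a = 1 ∧ k = 0) ∨ (a = 0 ∧ k = 1) := by omega
  rcases h6 with ⟨rfl, rfl⟩ | ⟨rfl, rfl⟩
  · rw [if_pos (by rw [← h5]; norm_num)]
    exact ⟨h1, h3⟩
  · rw [if_neg (by rw [← h5]; norm_num)]
    exact ⟨h1, h3⟩

end

end Pool.Agent.Lib.MP_50bb2e_nt.Hgp.NF
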