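import Pool.Agent.Lib.MP_50bb2e_nt.PP.Iface

/-!
MP_50bb2e_nt, board HGP (helper73), number fields: systems of Heegner points over the tower of
multiquadratic extensions, definitions for the public statement.
-/

open IsDedekindDomain NumberField Filter

namespace Pool.Agent.Lib.MP_50bb2e_nt.Hgp.NF

open Pool.Agent.Lib.MP_50bb2e_nt.PP

noncomputable section

/-- An algebraic closure of `F`. -/
abbrev Fb (F : Type) [Field F] : Type := AlgebraicClosure F

noncomputable instance (F : Type) [Field F] : DecidableEq (Fb F) := Classical.decEq _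

/-- The absolute Galois group of `F`. -/
abbrev Gal (F : Type) [Field F] : Type := Fb F ≃ₐ[F] Fb F

/-- The group `E(L)`. -/
abbrev Pt {F : Type} [Field F] (E : WeierstrassCurve F) (L : Type) [Field L] [Algebra F L] :
    Type := WeierstrassCurve.Affine.Point (E.baseChange L)

/-- The action of an automorphism on the points of `E`. -/
def act {F : Type} [Field F] (E : WeierstrassCurve F) (g : Gal F) :
    Pt E (Fb F) →+ Pt E (Fb F) :=
  WeierstrassCurve.Affine.Point.map (W' := E) (g : Fb F →ₐ[F] Fb F)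

/-- `∑ e(a) N(a)^(-s)` has an entire continuation, of order `k` at `s = 1`. -/
def Ord {F : Type} [Field F] [NumberField F] (e : Ideal (𝓞 F) → ℂ) (k : ℕ) : Prop :=
  ∃ L : ℂ → ℂ, Cont e L ∧ analyticOrderAt L 1 = k

/-- A point of infinite order. -/
def Inf {A : Type} [AddCommGroup A] (P : A) : Prop := ∀ n : ℕ, 0 < n → n • P ≠ 0

/-- An elliptic curve `E` over `F`, a quadratic extension `K = F(δ)`, `δ^2 = d`, and points `z T`
of `E`, for finite sets `T` of good primes of `F`, over `K_T`, the extension of `K` by the `r χ`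
for the quadratic characters `χ` of conductor supported on `T`, where `F(r χ)` belongs to `χ` by
class field theory. Example (`F` totally real, `K` totally imaginary): positive multiples of the
traces to `K_T` of the Heegner points of conductor `∏ T`. -/
structure Heegner (F : Type) [Field F] [NumberField F] where
  E : WeierstrassCurve F
  ell : E.IsElliptic
  /-- the coefficients of `L(E, s) = ∑ c(a) N(a)^(-s)` -/
  c : Ideal (𝓞 F) → ℤ
  /-- the conductor of `E` -/
  N : Ideal (𝓞 F)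
  /-- the root number of `E` -/
  w : ℤ
  d : 𝓞 F
  /-- the quadratic character of `K / F` -/
  ψ : Ideal (𝓞 F) → ℤ
  δ : Fb F
  r : QChar F → Fb F
  /-- representatives in the absolute Galois group of `Gal(K_T / K)` -/
  R : Finset (Pr F) → Finset (Gal F)
  z : Finset (Pr F) → Pt E (Fb F)

variable {F : Type} [Field F] [NumberField F]

/-- A good prime: of odd norm, not dividing `N d`, with `a_v` odd. -/
def Heegner.Good (x : Heegner F) (v : Pr F) : Prop :=
  Odd (nm v) ∧ ¬ x.N ≤ v.asIdeal ∧ x.d ∉ v.asIdeal ∧ Odd (x.c v.asIdeal)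

/-- `g` fixes `K`. -/
def Heegner.OverK (x : Heegner F) (g : Gal F) : Prop := g x.δ = x.δ

/-- `g` and `h` have the same action on the `r χ`, `χ` of conductor supported on `T`. -/
def Heegner.Same (x : Heegner F) (T : Finset (Pr F)) (g h : Gal F) : Prop :=
  ∀ χ : QChar F, χ.T ⊆ T → g (x.r χ) = h (x.r χ)

/-- `g` multiplies `r χ` by the number `χ(a)` (which is `1` or `-1`). -/
def Heegner.Acts (x : Heegner F) (g : Gal F) (a : Ideal (𝓞 F)) (χ : QChar F) : Prop :=
  g (x.r χ) = ((χ.chi a : ℤ) : Fb F) * x.r χ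

open Classical in
/-- The trace of `z (T, v)` to `K_T`. -/
def Heegner.trace (x : Heegner F) (T : Finset (Pr F)) (v : Pr F) : Pt x.E (Fb F) :=
  ∑ h ∈ (x.R (insert v T)).filter (fun h => x.Same T h 1), act x.E h (x.z (insert v T))

/-- The norm relation from `K_(T, v)` to `K_T`; `φ` is a Frobenius at `v` on `K_T` if `v` splits
in `K`, otherwise `1 + ψ(v) = 0`. -/
def Heegner.NormRel (x : Heegner F) (T : Finset (Pr F)) (v : Pr F) : Prop :=
  ∃ φ, x.OverK φ ∧ (∀ χ : QChar F, χ.T ⊆ T → x.Acts φ v.asIdeal χ) ∧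
    x.trace T v = x.c v.asIdeal • x.z T - (1 + x.ψ v.asIdeal) • act x.E φ (x.z T)

open Classical in
/-- Class field theory for the `r χ`, and the properties of the Heegner points: field of
definition and the norm relations. -/
structure Heegner.Norm (x : Heegner F) : Prop where
  sqrt_d : x.δ ^ 2 = algebraMap F (Fb F) (x.d : F)
  char : ∀ v : Pr F, Odd (nm v) → x.d ∉ v.asIdeal →
    x.ψ v.asIdeal = if ∃ β : 𝓞 F, x.d - β ^ 2 ∈ v.asIdeal then 1 else -1
  sqrt_chi : ∀ χ : QChar F, x.r χ ≠ 0 ∧ ∃ q : F, x.r χ ^ 2 = algebraMap F (Fb F) q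
  /-- every automorphism acts on finitely many of the `r χ` like an ideal (Artin) -/
  artin : ∀ (X : Finset (QChar F)) (g : Gal F), ∃ a : Ideal (𝓞 F), ∀ χ ∈ X, x.Acts g a χ
  rep : ∀ T : Finset (Pr F), (∀ h ∈ x.R T, x.OverK h) ∧
    ∀ g, x.OverK g → ∃! h, h ∈ x.R T ∧ x.Same T g h
  fixed : ∀ T : Finset (Pr F), (∀ v ∈ T, x.Good v) → ∀ g, x.OverK g → x.Same T g 1 →
    act x.E g (x.z T) = x.z T
  norm : ∀ T : Finset (Pr F), (∀ u ∈ T, x.Good u) → ∀ v, x.Good v → v ∉ T → x.NormRel T v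

open Classical in
/-- The sign of `χ` at `g`. -/
def Heegner.sign (x : Heegner F) (χ : QChar F) (g : Gal F) : ℤ :=
  if g (x.r χ) = x.r χ then 1 else -1

/-- The component of `z T`, `T` the set of the primes dividing the conductor, for `χ`. -/
def Heegner.comp (x : Heegner F) (χ : QChar F) : Pt x.E (Fb F) :=
  ∑ h ∈ x.R χ.T, x.sign χ h • act x.E h (x.z χ.T)

/-- The Heegner point over `K`. -/
def Heegner.yK (x : Heegner F) : Pt x.E (Fb F) := ∑ h ∈ x.R ∅, act x.E h (x.z ∅)

/-- The Heegner point over `K` is not `2 ^ (j + 1)` times a point over `K`. -/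
def Heegner.Undiv (x : Heegner F) (j : ℕ) : Prop :=
  ∀ Q : Pt x.E (Fb F), (∀ g, x.OverK g → act x.E g Q = Q) → 2 ^ (j + 1) • Q ≠ x.yK

/-- `L(E, s)` twisted by `χ` has order `k` at `s = 1`. -/
def Heegner.OrdE (x : Heegner F) (χ : QChar F) (k : ℕ) : Prop :=
  Ord (fun a => (x.c a : ℂ) * (χ.chi a : ℂ)) k

/-- `L(E, s)` twisted by `χ` and by the quadratic character of `K` has order `k` at `s = 1`. -/
def Heegner.OrdK (x : Heegner F) (χ : QChar F) (k : ℕ) : Prop :=
  Ord (fun a => (x.c a : ℂ) * (χ.chi a : ℂ) * (x.ψ a : ℂ)) k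

/-- The formula of Gross and Zagier (Zhang; Yuan, Zhang, Zhang). -/
def Heegner.GrossZagier (x : Heegner F) : Prop :=
  ∀ χ : QChar F, (∀ v ∈ χ.T, x.Good v) → Inf (x.comp χ) →
    ∃ i k : ℕ, x.OrdE χ i ∧ x.OrdK χ k ∧ i + k = 1

/-- The parity of the order is given by the root number `w χ(N)` of the twist. -/
def Heegner.Parity (x : Heegner F) : Prop :=
  ∀ χ : QChar F, (∀ v ∈ χ.T, x.Good v) → ∀ k, x.OrdE χ k → (-1) ^ k = x.w * χ.chi x.N

/-- Both twists of `E`, by `χ` and by `χ` times the character of `K`, have the least order which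
is allowed by the root numbers (these are opposite): `1` for the sign `-1`, `0` for `1`. -/
def Heegner.Least (x : Heegner F) (χ : QChar F) : Prop :=
  if x.w * χ.chi x.N = -1 then x.OrdE χ 1 ∧ x.OrdK χ 0 else x.OrdE χ 0 ∧ x.OrdK χ 1

open Classical in
/-- Many quadratic characters supported on `P` have the property `Q`; all for `j = 0`. -/
def Many (P : Set (Pr F)) (j : ℕ) (Q : QChar F → Prop) : Prop :=
  (j = 0 → ∀ χ : QChar F, (χ.T : Set (Pr F)) ⊆ P → Q χ) ∧
  -- positive lower natural density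
  (∀ S : Set (Pr F), S.Finite →
    (∃ a : ℝ, 0 < a ∧ ∀ᶠ Y : ℕ in atTop, a * Y / Real.log Y ≤
      Set.ncard {u : Pr F | Y < nm u ∧ nm u ≤ 2 * Y ∧ ∃ χ ∈ Fam P S, χ.T = {u}}) →
    ∃ κ : ℝ, 0 < κ ∧ ∀ᶠ X : ℕ in atTop,
      κ * Set.ncard {χ : QChar F | χ ∈ Fam P S ∧ χ.cond ≤ X} ≤
        Set.ncard {χ : QChar F | χ ∈ Fam P S ∧ Q χ ∧ χ.cond ≤ X}) ∧
  -- finite groups of characters
  (∀ V : Finset (QChar F), V.Nonempty → (∀ χ ∈ V, (χ.T : Set (Pr F)) ⊆ P) →
    Closed (V : Set (QChar F)) → V.card ≤ 2 ^ j * (V.filter Q).card) ∧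
  -- infinite groups of characters
  (∀ V : Set (QChar F), V.Infinite → (∀ χ ∈ V, (χ.T : Set (Pr F)) ⊆ P) → Closed V →
    ∃ W : Set (QChar F), Closed W ∧ W ⊆ V ∧ (∀ χ ∈ W, Q χ) ∧
      ∃ η : ℕ → QChar F, (∀ i, η i ∈ W ∧ (η i).T.Nonempty) ∧
        Pairwise fun i k => Disjoint (η i).T (η k).T)

end

end Pool.Agent.Lib.MP_50bb2e_nt.Hgp.NF
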