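import Pool.Agent.Lib.MP_50bb2e_nt.Tow.Comb
import Pool.Agent.Lib.MP_50bb2e_nt.Tow.Fam

/-!
MP_50bb2e_nt, board HGP (helper73, after helper87): infinite groups of good characters.
-/

open IsDedekindDomain NumberField Filter

namespace Pool.Agent.Lib.MP_50bb2e_nt.Hgp.NF

open Pool.Agent.Lib.MP_50bb2e_nt.PP Pool.Agent.Lib.MP_50bb2e_nt.Tow

variable {F : Type} [Field F] [NumberField F]

open Classical in
theorem inf_groups {P : Set (Pr F)} {j : ℕ} {Q : QChar F → Prop}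
    (hG : ∀ V : Finset (QChar F), V.Nonempty → (∀ χ ∈ V, (χ.T : Set (Pr F)) ⊆ P) →
      Closed (V : Set (QChar F)) → V.card ≤ 2 ^ j * (V.filter Q).card)
    (V : Set (QChar F)) (hV : V.Infinite) (hVP : ∀ χ ∈ V, (χ.T : Set (Pr F)) ⊆ P)
    (hVc : Closed V) :
    ∃ W : Set (QChar F), Closed W ∧ W ⊆ V ∧ (∀ χ ∈ W, Q χ) ∧
      ∃ η : ℕ → QChar F, (∀ i, η i ∈ W ∧ (η i).T.Nonempty) ∧
        Pairwise fun i k => Disjoint (η i).T (η k).T := by
  have hVc' := (closed_iff V).1 hVc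
  have h1V : (1 : QChar F) ∈ V := by
    obtain ⟨χ, hχ⟩ := hV.nonempty
    rw [← mul_self' χ]
    exact hVc' χ hχ χ hχ
  have hQ1 : Q 1 := by
    have h := hG {1} (Finset.singleton_nonempty _) (by
      intro χ hχ
      rw [Finset.mem_singleton.1 hχ]
      exact hVP _ h1V) (by
      rw [closed_iff]
      intro χ hχ ρ hρ
      rw [Finset.coe_singleton, Set.mem_singleton_iff] at hχ hρ ⊢
      rw [hχ, hρ, mul_one])
    by_contra hcon
    rw [Finset.filter_singleton, if_neg hcon] at h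
    simp at h
  obtain ⟨e, he, hed⟩ := exists_seq hV hVc' ∅
  let H : Subgroup (QChar F) :=
    { carrier := V
      mul_mem' := fun h h' => hVc' _ h _ h'
      one_mem' := h1V
      inv_mem' := fun h => h }
  obtain ⟨b, hb⟩ := exists_good_seq (M := QChar F) mul_self' e
    (prod_ne_one e hed fun i => (he i).2.1) H (fun i => (he i).1) Q j
    (fun V' hV'n hV'H hV'c => hG V' hV'n (fun χ hχ => hVP χ (hV'H χ hχ))
      ((closed_iff _).2 (by
        intro χ hχ ρ hρ
        exact_mod_cast hV'c χ (Finset.mem_coe.1 hχ) ρ (Finset.mem_coe.1 hρ))))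
  let W₁ : Set (QChar F) := Set.range fun s : Finset ℕ => ∏ i ∈ s, b i
  have hW₁c : ∀ χ ∈ W₁, ∀ ρ ∈ W₁, χ * ρ ∈ W₁ := by
    rintro _ ⟨s, rfl⟩ _ ⟨t, rfl⟩
    exact ⟨symmDiff s t, (prod_symmDiff' mul_self' b s t).symm⟩
  have hinj : Function.Injective fun s : Finset ℕ => ∏ i ∈ s, b i := by
    intro s t hst
    by_contra hne
    have h1 : (symmDiff s t).Nonempty := by
      rw [Finset.nonempty_iff_ne_empty]
      intro h
      exact hne (symmDiff_eq_bot.1 h)
    apply (hb _ h1).1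
    rw [← prod_symmDiff' mul_self' b s t]
    simp only at hst
    rw [hst, mul_self']
  have hW₁i : W₁.Infinite := Set.infinite_range_of_injective hinj
  obtain ⟨η, hη, hηd⟩ := exists_seq hW₁i hW₁c ∅
  refine ⟨W₁, (closed_iff _).2 hW₁c, ?_, ?_, η, fun i => ⟨(hη i).1, (hη i).2.1⟩, hηd⟩
  · rintro _ ⟨s, rfl⟩
    rcases s.eq_empty_or_nonempty with rfl | hs
    · exact h1V
    · exact (hb s hs).2.1
  · rintro _ ⟨s, rfl⟩
    rcases s.eq_empty_or_nonempty with rfl | hs
    · simpa using hQ1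
    · exact (hb s hs).2.2

end Pool.Agent.Lib.MP_50bb2e_nt.Hgp.NF
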