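import Pool.Agent.Lib.MP_50bb2e_nt.Hgp.NF
import Pool.Agent.Lib.MP_50bb2e_nt.Hgp.NFdefs
import Pool.Agent.Lib.MP_50bb2e_nt.ND.All
import Pool.Agent.Lib.MP_50bb2e_nt.Hgp.NFinf

/-!
MP_50bb2e_nt, board HGP (helper73), number fields: from the group property and the design property
to proportions.
-/

open IsDedekindDomain NumberField Filter

namespace Pool.Agent.Lib.MP_50bb2e_nt.Hgp.NF

open Pool.Agent.Lib.MP_50bb2e_nt.PP Pool.Agent.Lib.MP_50bb2e_nt.ND

variable {F : Type} [Field F] [NumberField F]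

theorem good_mono {P P' : Set (Pr F)} {j : ℕ} {Lg : QChar F → Prop} (h : Good P j Lg)
    (hP : P' ⊆ P) : Good P' j Lg where
  grp V hV hVP hc := h.grp V hV (fun χ hχ => (hVP χ hχ).trans hP) hc
  des X _ x0 ρ hρ hd h0 := h.des X x0 ρ (fun x => (hρ x).trans hP) hd h0

open Classical in
theorem many {P : Set (Pr F)} {j : ℕ} {Lg Q : QChar F → Prop} (hG : Good P j Lg)
    (hodd : ∀ v ∈ P, Odd (nm v)) (hQ : ∀ χ : QChar F, (χ.T : Set (Pr F)) ⊆ P → Lg χ → Q χ) :
    Many P j Q := by
  have hgrp : ∀ V : Finset (QChar F), V.Nonempty → (∀ χ ∈ V, (χ.T : Set (Pr F)) ⊆ P) →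
      Closed (V : Set (QChar F)) → V.card ≤ 2 ^ j * (V.filter Q).card := by
    intro V hV hVP hc
    refine (hG.grp V hV hVP hc).trans ?_
    refine Nat.mul_le_mul_left _ (Finset.card_le_card ?_)
    intro χ hχ
    rw [Finset.mem_filter] at hχ ⊢
    exact ⟨hχ.1, hQ χ (hVP χ hχ.1) hχ.2⟩
  refine ⟨?_, ?_, hgrp, fun V hV hVP hc => inf_groups hgrp V hV hVP hc⟩
  · -- `j = 0`: the group of two elements
    intro hj χ hχ
    subst hj
    have hmul : ∀ a : Ideal (𝓞 F), χ.chi a ≠ 0 → χ.chi a * χ.chi a = 1 := by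
      intro a ha
      have hab : a ≠ ⊥ := by
        rintro rfl
        exact ha χ.bot
      have hcop : Cop χ.T a := by
        by_contra hc
        exact ha (χ.zero a hc)
      rcases χ.val a hab hcop with h | h <;> rw [h] <;> norm_num
    have htriv : ∀ a : Ideal (𝓞 F), (trivQ F).chi a = if a = ⊥ then 0 else 1 := fun a => rfl
    have hcl : Closed (({trivQ F, χ} : Finset (QChar F)) : Set (QChar F)) := by
      have hne : ∀ a : Ideal (𝓞 F), (trivQ F).chi a ≠ 0 → (trivQ F).chi a = 1 := by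
        intro a ha
        rw [htriv] at ha ⊢
        split_ifs at ha ⊢ with h
        · exact absurd rfl ha
        · rfl
      have hnb : ∀ a : Ideal (𝓞 F), χ.chi a ≠ 0 → (trivQ F).chi a = 1 := by
        intro a ha
        rw [htriv, if_neg]
        rintro rfl
        exact ha χ.bot
      intro α hα β hβ
      rw [Finset.coe_insert, Finset.coe_singleton] at hα hβ ⊢
      rcases hα with rfl | hα
      · rcases hβ with rfl | hβ
        · refine ⟨trivQ F, Or.inl rfl, fun a h1 _ => ?_⟩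
          rw [hne a h1, one_mul]
        · rw [Set.mem_singleton_iff] at hβ
          subst hβ
          refine ⟨β, Or.inr rfl, fun a h1 _ => ?_⟩
          rw [hne a h1, one_mul]
      · rw [Set.mem_singleton_iff] at hα
        subst hα
        rcases hβ with rfl | hβ
        · refine ⟨α, Or.inr rfl, fun a _ h1 => ?_⟩
          rw [hne a h1, mul_one]
        · rw [Set.mem_singleton_iff] at hβ
          subst hβ
          refine ⟨trivQ F, Or.inl rfl, fun a h1 _ => ?_⟩
          rw [hmul a h1, hnb a h1]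
    have hP : ∀ ψ ∈ ({trivQ F, χ} : Finset (QChar F)), (ψ.T : Set (Pr F)) ⊆ P := by
      intro ψ hψ
      rcases Finset.mem_insert.1 hψ with h | h
      · rw [h]
        simp [trivQ]
      · rw [Finset.mem_singleton.1 h]
        exact hχ
    have h1 := hgrp {trivQ F, χ} ⟨χ, by simp⟩ hP hcl
    rw [pow_zero, one_mul] at h1
    have h2 : (({trivQ F, χ} : Finset (QChar F)).filter Q) = {trivQ F, χ} :=
      Finset.eq_of_subset_of_card_le (Finset.filter_subset _ _) h1
    have h3 : χ ∈ (({trivQ F, χ} : Finset (QChar F)).filter Q) := by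
      rw [h2]
      simp
    exact (Finset.mem_filter.1 h3).2
  · intro S hSf hC
    obtain ⟨κ, hκ, hev⟩ := ndMain F P S j _ hG hodd hSf hC
    refine ⟨κ, hκ, ?_⟩
    filter_upwards [hev] with X hX
    refine hX.trans ?_
    have hfin : {χ : QChar F | χ.cond ≤ X}.Finite := (summ fin' F).1 X
    have := Set.ncard_le_ncard (s := {χ : QChar F | χ ∈ Fam P S ∧ Lg χ ∧ χ.cond ≤ X})
      (t := {χ : QChar F | χ ∈ Fam P S ∧ Q χ ∧ χ.cond ≤ X})
      (fun χ hχ => ⟨hχ.1, hQ χ hχ.1.1 hχ.2.1, hχ.2.2⟩) (hfin.subset (fun χ hχ => hχ.2.2))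
    exact_mod_cast this

end Pool.Agent.Lib.MP_50bb2e_nt.Hgp.NF
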