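import Pool.Agent.Lib.MP_50bb2e_nt.Hgp.Lipz
import Pool.Agent.Lib.MP_50bb2e_nt.Low.All

/-!
MP_50bb2e_nt, board HGP (helper73). From a Lipschitz system to proportions, for any predicate.
-/

open Finset

namespace Pool.Agent.Lib.MP_50bb2e_nt.Hgp

open Pool.Agent.Lib.MP_50bb2e_nt.Qtw Pool.Agent.Lib.MP_50bb2e_nt.Low
open Pool.Agent.Lib.MP_50bb2e_nt.Low.Final
open Filter Topology

noncomputable section

open Classical in
theorem parts (v : AbsoluteValue ℂ ℝ) (hv : Dyadic v) (P : Set ℕ) (hP : ∀ p ∈ P, p.Prime) (B : ℝ)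
    (ℓ : Finset ℕ → ℝ) (hB : 0 ≤ B) (h0 : 0 < ℓ ∅) (hlip : HasLip v P B ℓ) (d : ℕ)
    (hd : v 2 ^ (d + 1) * B < ℓ ∅) (good : ℕ → Prop)
    (hgood : ∀ S : Finset ℕ, (S : Set ℕ) ⊆ P → ℓ S ≠ 0 → good (∏ p ∈ S, p)) :
    (∀ P' : Set ℕ, P' ⊆ P → LDense P' →
      ∀ (e : ℕ) (ε : Fin e → ℕ → ℤ), (∀ t, ∀ p ∈ P', ε t p = 1 ∨ ε t p = -1) →
      ∃ c : ℝ, 0 < c ∧ ∀ X : ℕ, 1 ≤ X → c * ((Fm P' X).card : ℝ) ≤
        (((Fm P' X).filter (fun D => (∀ t, ∏ p ∈ D.primeFactors, ε t p = 1) ∧ good D)).card : ℝ)) ∧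
    ∀ T : Finset ℕ, (T : Set ℕ) ⊆ P →
      ∀ (e : ℕ) (ε : Fin e → ℕ → ℤ), (∀ t, ∀ p ∈ T, ε t p = 1 ∨ ε t p = -1) →
      ∀ w : ℕ → ℝ, (∀ p ∈ T, 0 ≤ w p ∧ w p ≤ 1) →
        ∏ p ∈ T, (1 + w p) ≤ 2 ^ (d + e) * ∑ S ∈ T.powerset,
          if (∀ t, ∏ p ∈ S, ε t p = 1) ∧ good (∏ p ∈ S, p) then ∏ p ∈ S, w p else 0 := by
  have hS : SignStatement := Sign.sign_proof
  have hR : RmwStatement := Rmw.rmw_proof
  have hv2 : 0 < v 2 := v.pos two_ne_zero
  have mono : ∀ P' : Set ℕ, P' ⊆ P → HasLip v P' B ℓ := fun P' h T hT => hlip T (hT.trans h)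
  refine ⟨?_, ?_⟩
  · intro P' hP' hDen e ε hε
    have h1 := hS v hv P' B ℓ hB (mono P' hP') e ε hε
    have hB' : 0 ≤ B / v 2 ^ e := div_nonneg hB (pow_nonneg hv2.le _)
    obtain ⟨c, hc, h2⟩ := All.low v hv P' (B / v 2 ^ e) _ (fun p hp => hP p (hP' hp)) hDen hB' h1
      (by rw [if_pos (fun t => by simp)]; exact h0)
    refine ⟨c, hc, fun X hX => (h2 X hX).trans ?_⟩
    have h3 : ((Fm P' X).filter (fun D =>
        (if ∀ t, ∏ p ∈ D.primeFactors, ε t p = 1 then ℓ D.primeFactors else 0) ≠ 0)) ⊆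
        (Fm P' X).filter (fun D => (∀ t, ∏ p ∈ D.primeFactors, ε t p = 1) ∧ good D) := by
      intro D hDm
      rw [Finset.mem_filter] at hDm ⊢
      refine ⟨hDm.1, ?_⟩
      have hF := hDm.1
      unfold Fm at hF
      rw [Finset.mem_filter] at hF
      by_cases hs : ∀ t, ∏ p ∈ D.primeFactors, ε t p = 1
      · have hne := hDm.2
        rw [if_pos hs] at hne
        have h4 := hgood D.primeFactors (fun p hp => hP' (hF.2.2 p (by exact_mod_cast hp))) hne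
        rw [prod_primeFactors hF.2.1] at h4
        exact ⟨hs, h4⟩
      · exact absurd (if_neg hs) hDm.2
    exact_mod_cast Finset.card_le_card h3
  · intro T hT e ε hε w hw
    have h1 := hS v hv (T : Set ℕ) B ℓ hB (mono _ hT) e ε (fun t p hp => hε t p hp)
    have hB' : 0 ≤ B / v 2 ^ e := div_nonneg hB (pow_nonneg hv2.le _)
    have h2 := hR v hv (T : Set ℕ) (B / v 2 ^ e) _ hB' h1 (d + e) (by
      have e1 : v 2 ^ (d + e + 1) * (B / v 2 ^ e) = v 2 ^ (d + 1) * B := by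
        have : v 2 ^ e ≠ 0 := (pow_pos hv2 _).ne'
        field_simp
        ring
      rw [e1, if_pos (fun t => by simp)]
      exact hd) T (fun x hx => hx) w hw
    refine h2.trans ?_
    refine mul_le_mul_of_nonneg_left (Finset.sum_le_sum fun S hS' => ?_) (by positivity)
    have hST : S ⊆ T := Finset.mem_powerset.1 hS'
    have hnn : 0 ≤ ∏ p ∈ S, w p := Finset.prod_nonneg fun p hp => (hw p (hST hp)).1
    have hpos : 0 ≤ v 2 ^ (d + e + 1) * (B / v 2 ^ e) := mul_nonneg (pow_nonneg hv2.le _) hB'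
    by_cases hc : v 2 ^ (d + e + 1) * (B / v 2 ^ e) < if ∀ t, ∏ p ∈ S, ε t p = 1 then ℓ S else 0
    · rw [if_pos hc]
      by_cases hs : ∀ t, ∏ p ∈ S, ε t p = 1
      · rw [if_pos hs] at hc
        rw [if_pos ⟨hs, hgood S (fun p hp => hT (hST hp)) (hpos.trans_lt hc).ne'⟩]
      · rw [if_neg hs] at hc
        exact absurd hc (not_lt.2 hpos)
    · rw [if_neg hc]
      split_ifs
      · exact hnn
      · exact le_rfl

open Classical in
/-- with the constant one all products are good -/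
theorem all_zero {A : Set ℕ} {R : ℕ → Prop} (h : ∀ T : Finset ℕ, (T : Set ℕ) ⊆ A →
      ∀ (e : ℕ) (ε : Fin e → ℕ → ℤ), (∀ t, ∀ p ∈ T, ε t p = 1 ∨ ε t p = -1) →
      ∀ w : ℕ → ℝ, (∀ p ∈ T, 0 ≤ w p ∧ w p ≤ 1) →
        ∏ p ∈ T, (1 + w p) ≤ 2 ^ (0 + e) * ∑ S ∈ T.powerset,
          if (∀ t, ∏ p ∈ S, ε t p = 1) ∧ R (∏ p ∈ S, p) then ∏ p ∈ S, w p else 0) :
    ∀ D : ℕ, Squarefree D → (∀ p ∈ D.primeFactors, p ∈ A) → R D := by
  intro D hD hA
  by_contra hR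
  set T := D.primeFactors with hT
  have h1 := h T (fun p hp => hA p (Finset.mem_coe.1 hp)) 0 (fun t => t.elim0)
    (fun t => t.elim0) (fun _ => 1) (fun p _ => ⟨zero_le_one, le_rfl⟩)
  have hTp : ∏ p ∈ T, p = D := Nat.prod_primeFactors_of_squarefree hD
  have h2 : ∑ S ∈ T.powerset, (if (∀ t : Fin 0, ∏ p ∈ S, (t.elim0 : ℕ → ℤ) p = 1) ∧
      R (∏ p ∈ S, p) then ∏ p ∈ S, (1 : ℝ) else 0) ≤
      ∑ S ∈ T.powerset, ((1 : ℝ) - if S = T then 1 else 0) := by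
    refine Finset.sum_le_sum fun S _ => ?_
    by_cases hS : S = T
    · subst hS
      rw [if_neg (fun hc => hR (by rw [← hTp]; exact hc.2)), if_pos rfl, sub_self]
    · rw [if_neg hS, sub_zero, Finset.prod_const_one]
      split_ifs <;> norm_num
  have h3 : ∑ S ∈ T.powerset, ((1 : ℝ) - if S = T then 1 else 0) = 2 ^ T.card - 1 := by
    rw [Finset.sum_sub_distrib, Finset.sum_const, Finset.card_powerset, nsmul_eq_mul, mul_one,
      Finset.sum_ite_eq' T.powerset T (fun _ => (1 : ℝ)),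
      if_pos (Finset.mem_powerset.2 (Finset.Subset.refl _))]
    push_cast
    ring
  rw [Finset.prod_const, zero_add, pow_zero, one_mul] at h1
  have h4 : ((1 : ℝ) + 1) ^ T.card ≤ 2 ^ T.card - 1 := by
    refine h1.trans ?_
    rw [← h3]
    exact h2
  norm_num at h4

end

end Pool.Agent.Lib.MP_50bb2e_nt.Hgp
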