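import Pool.Agent.Lib.MP_50bb2e_nt.Hgp.Ell
import Pool.Agent.Lib.MP_50bb2e_nt.Hgp.Parts
import Pool.Agent.Lib.MP_50bb2e_nt.Hgp.Dya
import Pool.Agent.Lib.MP_50bb2e_nt.Hgp.Ht

/-!
MP_50bb2e_nt, board HGP (helper73). Norm-compatible systems of points of an elliptic curve over a
tower of multiquadratic extensions: the components are of infinite order in a positive proportion.
-/

open Finset

namespace Pool.Agent.Lib.MP_50bb2e_nt.Hgp

open Pool.Agent.Lib.MP_50bb2e_nt.Qtw (Dyadic)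
open Pool.Agent.Lib.MP_50bb2e_nt.Low (HasLip)

noncomputable section

variable {F Ω : Type} [Field F] [Field Ω] [Algebra F Ω]

/-- the automorphisms fixing `δ` -/
def Gd (F : Type) {Ω : Type} [Field F] [Field Ω] [Algebra F Ω] (δ : Ω) :
    Subgroup (Ω ≃ₐ[F] Ω) where
  carrier := {g | g δ = δ}
  mul_mem' := by
    intro a b ha hb
    change a (b δ) = δ
    have ha' : a δ = δ := ha
    have hb' : b δ = δ := hb
    rw [hb', ha']
  one_mem' := rfl
  inv_mem' := by
    intro a ha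
    have ha' : a δ = δ := ha
    change a⁻¹ δ = δ
    conv_lhs => rw [← ha']
    change (a⁻¹ * a) δ = δ
    rw [inv_mul_cancel]
    rfl

/-- points of infinite order over a number field are not infinitely divisible by 2 -/
theorem not_dv [NumberField F] [DecidableEq Ω] (E : WeierstrassCurve F) (hE : E.IsElliptic)
    (L : IntermediateField F Ω) (hL : FiniteDimensional F L) (y : Pt E L)
    (hy : ∀ n : ℕ, 0 < n → n • y ≠ 0) : ∃ k : ℕ, ¬ Dv y k := by
  have hcz : CharZero L := charZero_of_injective_algebraMap (algebraMap F L).injective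
  have hfd : FiniteDimensional ℚ L := FiniteDimensional.trans ℚ F L
  have hnf : NumberField L := { to_charZero := hcz, to_finiteDimensional := hfd }
  have hell : (E.baseChange L).IsElliptic := inferInstanceAs (E.map (algebraMap F L)).IsElliptic
  obtain ⟨k, hk⟩ := Ht.not_div (E.baseChange L) y hy
  refine ⟨k, fun h => ?_⟩
  obtain ⟨c, hc, q, hq⟩ := h
  obtain ⟨m, rfl⟩ := hc
  have hcop : IsCoprime (2 * m + 1) ((2 : ℤ) ^ k) := by
    refine IsCoprime.pow_right ?_
    exact ⟨1, -m, by ring⟩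
  obtain ⟨a, b, hab⟩ := hcop
  apply hk (a • q + b • y)
  rw [← natCast_zsmul]
  push_cast
  rw [smul_add, smul_comm _ a q, ← hq, smul_comm _ b y, ← mul_smul, ← mul_smul, ← add_smul, hab,
    one_smul]

open WeierstrassCurve.Affine in
theorem ell_sys [NumberField F] [CharZero Ω] [IsGalois F Ω] [DecidableEq Ω]
    (E : WeierstrassCurve F) (hE : E.IsElliptic) (δ : Ω) (hδ : ∃ q : F, δ ^ 2 = algebraMap F Ω q) (r : ℕ → Ω)
    (hr : ∀ p, ∃ q : F, r p ^ 2 = algebraMap F Ω q) (P : Set ℕ) (hr0 : ∀ p ∈ P, r p ≠ 0)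
    (σ : Finset ℕ → (Ω ≃ₐ[F] Ω)) (hσ1 : ∀ U, σ U δ = δ)
    (hσ2 : ∀ U : Finset ℕ, (U : Set ℕ) ⊆ P → ∀ p ∈ P, σ U (r p) = if p ∈ U then -r p else r p)
    (z : Finset ℕ → Pt E Ω)
    (hz : ∀ T : Finset ℕ, (T : Set ℕ) ⊆ P → ∀ g : Ω ≃ₐ[F] Ω, g δ = δ →
      (∀ p ∈ T, g (r p) = r p) → g • z T = z T)
    (hnorm : ∀ T : Finset ℕ, (T : Set ℕ) ⊆ P → ∀ p ∈ P, p ∉ T → ∃ (a b : ℤ) (φ : Ω ≃ₐ[F] Ω),
      φ δ = δ ∧ Odd a ∧ Even b ∧
      z (insert p T) + σ {p} • z (insert p T) = a • z T - b • φ • z T)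
    (htwo : ∀ Q : Pt E Ω, (∀ g : Ω ≃ₐ[F] Ω, g • Q = Q) → (2 : ℤ) • Q = 0 → Q = 0) :
    Sy P (fun p => (sgn (r p) (hr p)).comp (Gd F δ).subtype)
      (fun U => (⟨σ U, hσ1 U⟩ : Gd F δ)) z where
  sig := by
    intro U hU p hp
    change sgn (r p) (hr p) (σ U) = _
    have h := hσ2 U hU p hp
    by_cases hpU : p ∈ U
    · rw [if_pos hpU] at h ⊢
      exact sgn_neg (hr0 p hp) h
    · rw [if_neg hpU] at h ⊢
      exact (sgn_eq_one (hx := hr p)).2 h
  fix := by
    intro T hT g hg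
    refine hz T hT g g.2 fun p hp => ?_
    exact (sgn_eq_one (hx := hr p)).1 (hg p hp)
  norm := by
    intro T hT p hp hpT
    obtain ⟨a, b, φ, h1, h2, h3, h4⟩ := hnorm T hT p hp hpT
    exact ⟨a, b, ⟨φ, h1⟩, h2, h3, h4⟩
  two := by
    intro T hT m hm h2
    refine two_all (Γ := Ω ≃ₐ[F] Ω) (fun p => sgn (r p) (hr p)) (sgn δ hδ) htwo T m ?_ h2
    intro g hg hg'
    exact hm ⟨g, (sgn_eq_one (hx := hδ)).1 hg⟩ hg'
  nd := by
    intro T hT m hm hinf
    classical
    set L : IntermediateField F Ω := IntermediateField.adjoin F (insert δ (r '' (T : Set ℕ)))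
      with hL
    have hfin : FiniteDimensional F L := by
      have hfs : (insert δ (r '' (T : Set ℕ))).Finite :=
        (T.finite_toSet.image r).insert δ
      have : Finite ↑(insert δ (r '' (T : Set ℕ))) := hfs
      exact IntermediateField.finiteDimensional_adjoin
        fun x _ => (Algebra.IsIntegral.isIntegral x)
    have hδL : δ ∈ L := IntermediateField.subset_adjoin F _ (Set.mem_insert _ _)
    have hrL : ∀ p ∈ T, r p ∈ L := fun p hp =>
      IntermediateField.subset_adjoin F _ (Set.mem_insert_of_mem _ ⟨p, hp, rfl⟩)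
    let f : Pt E L →+ Pt E Ω := Point.map (W' := E) L.val
    have hf : Function.Injective f := Point.map_injective _
    have hdesc : ∀ Q : Pt E Ω, Q ∈ (Fx (fun p => (sgn (r p) (hr p)).comp (Gd F δ).subtype) T :
        AddSubgroup (Pt E Ω)) → ∃ Q0 : Pt E L, f Q0 = Q := by
      intro Q hQ
      refine descent E L Q fun g hg => ?_
      have h1 : g δ = δ := hg δ hδL
      exact hQ ⟨g, h1⟩ fun p hp => (sgn_eq_one (hx := hr p)).2 (hg _ (hrL p hp))
    obtain ⟨m0, rfl⟩ := hdesc m hm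
    obtain ⟨k, hk⟩ := not_dv E hE L hfin m0 (by
      intro n hn h
      apply hinf n hn
      rw [← map_nsmul, h, map_zero])
    refine ⟨k, ?_⟩
    rintro ⟨n, hn, q, hq, he⟩
    obtain ⟨q0, rfl⟩ := hdesc q hq
    refine hk ⟨n, hn, q0, ?_⟩
    apply hf
    rw [map_zsmul, map_zsmul, he]

end

end Pool.Agent.Lib.MP_50bb2e_nt.Hgp
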