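import Pool.Agent.Lib.MP_50bb2e_nt.Hgp.NFfin
import Pool.Agent.Lib.MP_50bb2e_nt.Hgp.NFinf
import Pool.Agent.Lib.MP_50bb2e_nt.Hgp.Ell
import Pool.Agent.Lib.MP_50bb2e_nt.Hgp.Fun
import Pool.Agent.Lib.MP_50bb2e_nt.Hgp.Tow

/-!
MP_50bb2e_nt, board HGP (helper73), number fields: the points of an elliptic curve.
-/

open IsDedekindDomain NumberField Filter

namespace Pool.Agent.Lib.MP_50bb2e_nt.Hgp.NF

open Pool.Agent.Lib.MP_50bb2e_nt.PP Pool.Agent.Lib.MP_50bb2e_nt.ND

noncomputable section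

variable {F : Type} [Field F] [NumberField F]

theorem fin_chars (T : Finset (Pr F)) : {χ : QChar F | χ.T ⊆ T}.Finite := by
  obtain ⟨C, hC⟩ := fin' F
  have : {χ : QChar F | χ.T ⊆ T} ⊆ ⋃ T' ∈ (T.powerset : Set (Finset (Pr F))), {χ | χ.T = T'} := by
    intro χ hχ
    simp only [Set.mem_iUnion]
    exact ⟨χ.T, Finset.mem_coe.2 (Finset.mem_powerset.2 hχ), rfl⟩
  refine Set.Finite.subset ?_ this
  exact Set.Finite.biUnion (Finset.finite_toSet _) fun T' _ => (hC T').1

/-- the Galois character of a ray class character -/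
def galx (x : Heegner F) (hN : x.Norm) (χ : QChar F) : (Fb F ≃ₐ[F] Fb F) →* ℤˣ :=
  sgn (x.r χ) (hN.sqrt_chi χ).2

theorem galx_one {x : Heegner F} {hN : x.Norm} {χ : QChar F} {g : Fb F ≃ₐ[F] Fb F} :
    galx x hN χ g = 1 ↔ g (x.r χ) = x.r χ := sgn_eq_one

theorem galx_eq {x : Heegner F} {hN : x.Norm} {χ : QChar F} {g h : Fb F ≃ₐ[F] Fb F} :
    galx x hN χ g = galx x hN χ h ↔ g (x.r χ) = h (x.r χ) := by
  have h0 := (hN.sqrt_chi χ).1
  rcases sq_cases (hN.sqrt_chi χ).2 g with hg | hg <;>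
    rcases sq_cases (hN.sqrt_chi χ).2 h with hh | hh
  · rw [galx_one.2 hg, galx_one.2 hh, hg, hh]
    simp
  · have e1 : galx x hN χ h = -1 := sgn_neg h0 hh
    rw [galx_one.2 hg, e1, hg, hh]
    constructor
    · intro h; exact absurd h (by decide)
    · intro h
      exact absurd h.symm (fun h' => h0 (by
        have : (2 : Fb F) * x.r χ = 0 := by linear_combination -h'
        rcases mul_eq_zero.1 this with h2 | h2
        · exact absurd h2 two_ne_zero
        · exact h2))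
  · have e1 : galx x hN χ g = -1 := sgn_neg h0 hg
    rw [galx_one.2 hh, e1, hg, hh]
    constructor
    · intro h; exact absurd h (by decide)
    · intro h
      exact absurd h (fun h' => h0 (by
        have : (2 : Fb F) * x.r χ = 0 := by linear_combination -h'
        rcases mul_eq_zero.1 this with h2 | h2
        · exact absurd h2 two_ne_zero
        · exact h2))
  · have e1 : galx x hN χ g = -1 := sgn_neg h0 hg
    have e2 : galx x hN χ h = -1 := sgn_neg h0 hh
    rw [e1, e2, hg, hh]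
    simp

/-- the restriction to the automorphisms fixing `δ` -/
def galG (x : Heegner F) (hN : x.Norm) (χ : QChar F) : Gd F x.δ →* ℤˣ :=
  (galx x hN χ).comp (Gd F x.δ).subtype

open Classical in
/-- representatives as elements of the subgroup -/
def RG (x : Heegner F) (T : Finset (Pr F)) : Finset (Gd F x.δ) :=
  (x.R T).subtype (fun g => g ∈ Gd F x.δ)

theorem rel_iff {x : Heegner F} {hN : x.Norm} {T : Finset (Pr F)} {g h : Gd F x.δ} :
    Rel (galG x hN) T g h ↔ x.Same T (g : Gal F) (h : Gal F) :=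
  forall_congr' fun _ => imp_congr_right fun _ => galx_eq (hN := hN)

theorem rel_one {x : Heegner F} {hN : x.Norm} {T : Finset (Pr F)} {g : Gd F x.δ} :
    Rel (galG x hN) T g 1 ↔ x.Same T (g : Gal F) 1 := rel_iff

/-- the sum over the representatives -/
theorem sum_RG {A : Type} [AddCommMonoid A] (x : Heegner F) (hN : x.Norm) (T : Finset (Pr F))
    (f : (Fb F ≃ₐ[F] Fb F) → A) : ∑ h ∈ RG x T, f h = ∑ h ∈ x.R T, f h := by
  classical
  refine Finset.sum_bij (fun h _ => (h : Fb F ≃ₐ[F] Fb F)) ?_ ?_ ?_ ?_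
  · intro h hh
    exact Finset.mem_subtype.1 hh
  · intro a _ b _ hab
    exact Subtype.ext hab
  · intro b hb
    exact ⟨⟨b, (hN.rep T).1 b hb⟩, Finset.mem_subtype.2 hb, rfl⟩
  · intro a _
    rfl

theorem two_fin {Γ M : Type} [Group Γ] [AddCommGroup M] [DistribMulAction Γ M] {κ : Type}
    (s : κ → Γ →* ℤˣ) (s0 : Γ →* ℤˣ)
    (h0 : ∀ m : M, (∀ g : Γ, g • m = m) → (2 : ℤ) • m = 0 → m = 0) (X : Finset κ) :
    ∀ m : M, (∀ g, s0 g = 1 → (∀ χ ∈ X, s χ g = 1) → g • m = m) → (2 : ℤ) • m = 0 → m = 0 := by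
  classical
  induction X using Finset.induction_on with
  | empty =>
    intro m hm h2
    refine two_step (fun _ => True) (fun _ _ _ _ => trivial) (fun _ _ => trivial) s0
      (fun m hm h2 => h0 m (fun g => hm g trivial) h2) m ?_ h2
    intro g _ hg
    exact hm g hg (fun p hp => absurd hp (Finset.notMem_empty _))
  | insert p T hp ih =>
    intro m hm h2
    refine two_step (fun g => s0 g = 1 ∧ ∀ q ∈ T, s q g = 1) ?_ ?_ (s p)
      (fun m hm h2 => ih m (fun g h1 h3 => hm g ⟨h1, h3⟩) h2) m ?_ h2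
    · rintro g h ⟨hg, hg'⟩ ⟨hh, hh'⟩
      refine ⟨by rw [map_mul, hg, hh, one_mul], fun q hq => ?_⟩
      rw [map_mul, hg' q hq, hh' q hq, one_mul]
    · rintro g ⟨hg, hg'⟩
      refine ⟨by rw [map_inv, hg, inv_one], fun q hq => ?_⟩
      rw [map_inv, hg' q hq, inv_one]
    · rintro g ⟨hg, hg'⟩ hp'
      refine hm g hg fun q hq => ?_
      rcases Finset.mem_insert.1 hq with rfl | hq
      · exact hp'
      · exact hg' q hq

theorem gal_inst : IsGalois F (Fb F) := by
  have halg : Algebra.IsAlgebraic F (Fb F) := AlgebraicClosure.isAlgebraic F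
  have hc : IsAlgClosure F (Fb F) := ⟨inferInstance, inferInstance⟩
  have hn : Normal F (Fb F) := IsAlgClosure.normal F (Fb F)
  exact ⟨⟩

open Classical in
theorem dat (x : Heegner F) (hN : x.Norm) (h2 : ∀ Q : Pt x.E F, 2 • Q = 0 → Q = 0) :
    NFDat (M := Pt x.E (Fb F)) (galG x hN) (RG x) x.z {v | x.Good v} where
  fix := by
    intro T hT g hg
    exact hN.fixed T (fun v hv => hT hv) g g.2 (rel_one.1 hg)
  rep := by
    intro T hT g
    obtain ⟨h, ⟨h1, h3⟩, h4⟩ := (hN.rep T).2 g g.2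
    refine ⟨⟨h, (hN.rep T).1 h h1⟩, ⟨Finset.mem_subtype.2 h1, rel_iff.2 h3⟩, ?_⟩
    rintro k ⟨hk1, hk2⟩
    exact Subtype.ext (h4 k ⟨Finset.mem_subtype.1 hk1, rel_iff.1 hk2⟩)
  artin := by
    intro g X hX
    obtain ⟨a, ha⟩ := hN.artin X g
    refine ⟨a, fun χ hχ => ?_⟩
    have h0 := (hN.sqrt_chi χ).1
    have h1 : g.1 (x.r χ) = ((χ.chi a : ℤ) : Fb F) * x.r χ := ha χ hχ
    change χ.chi a = ((galx x hN χ g : ℤˣ) : ℤ)
    rcases sq_cases (hN.sqrt_chi χ).2 g with hg | hg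
    · rw [galx_one.2 hg]
      rw [hg] at h1
      have h3 : ((χ.chi a : ℤ) : Fb F) = 1 := by
        apply mul_right_cancel₀ h0
        rw [← h1, one_mul]
      have h4 : χ.chi a = 1 := by exact_mod_cast h3
      rw [h4]
      rfl
    · have e1 : galx x hN χ g = -1 := sgn_neg h0 hg
      rw [e1]
      rw [hg] at h1
      have h3 : ((χ.chi a : ℤ) : Fb F) = -1 := by
        apply mul_right_cancel₀ h0
        rw [← h1, neg_one_mul]
      have h4 : χ.chi a = -1 := by exact_mod_cast h3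
      rw [h4]
      rfl
  norm := by
    intro T hT v hv hvT
    obtain ⟨φ, h1, -, h3⟩ := hN.norm T (fun u hu => hT hu) v hv hvT
    refine ⟨x.c v.asIdeal, 1 + x.ψ v.asIdeal, ⟨φ, h1⟩, hv.2.2.2, ?_, ?_⟩
    · rw [hN.char v hv.1 hv.2.2.1]
      split_ifs <;> decide
    · refine Eq.trans ?_ h3
      unfold Heegner.trace
      rw [Finset.sum_filter, Finset.sum_filter]
      rw [← sum_RG x hN (insert v T) (fun h => if x.Same T h 1 then
        act x.E h (x.z (insert v T)) else 0)]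
      refine Finset.sum_congr rfl fun h _ => ?_
      by_cases hh : Rel (galG x hN) T h 1
      · rw [if_pos hh, if_pos (rel_one.1 hh)]
        rfl
      · rw [if_neg hh, if_neg (fun h' => hh (rel_one.2 h'))]
  two := by
    intro T hT m hm hm2
    have hgal : IsGalois F (Fb F) := gal_inst
    obtain ⟨X, hX⟩ := (fin_chars T).exists_finset
    have hδ : ∃ q : F, x.δ ^ 2 = algebraMap F (Fb F) q := ⟨_, hN.sqrt_d⟩
    refine two_fin (Γ := Fb F ≃ₐ[F] Fb F) (fun χ => galx x hN χ) (sgn x.δ hδ)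
      (fun Q hQ h3 => two_of_rat x.E h2 Q hQ h3) X m ?_ hm2
    intro g hg hg'
    exact hm ⟨g, (sgn_eq_one (hx := hδ)).1 hg⟩ (rel_one.2 fun χ hχ => galx_one.1 (hg' χ ((hX χ).2 hχ)))

end

end Pool.Agent.Lib.MP_50bb2e_nt.Hgp.NF
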