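import Pool.Agent.Lib.MP_50bb2e_nt.Qtw.Pro
import Pool.Agent.Lib.MP_50bb2e_nt.Low.Iface

/-!
MP_50bb2e_nt, board HGP (helper73). Products of Lipschitz systems.
-/

open Finset

namespace Pool.Agent.Lib.MP_50bb2e_nt.Hgp

open Pool.Agent.Lib.MP_50bb2e_nt.Qtw (Dyadic Lip Dif)
open Pool.Agent.Lib.MP_50bb2e_nt.Low (HasLip)

theorem hasLip_one {v : AbsoluteValue ℂ ℝ} (P : Set ℕ) :
    HasLip v P 1 (fun _ => 1) := by
  have hv2 : 0 < v 2 := v.pos two_ne_zero
  intro T _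
  refine ⟨fun _ => 1, ?_, fun S _ => map_one v⟩
  intro C U _ _ _
  have h1 : Dif (fun _ => (1 : ℂ)) C U = if U = ∅ then 1 else 0 := by
    unfold Dif
    simp only [mul_one]
    have h2 := Finset.sum_powerset_neg_one_pow_card (x := U)
    have h3 : ((∑ m ∈ U.powerset, (-1 : ℤ) ^ m.card : ℤ) : ℂ) = ((if U = ∅ then 1 else 0 : ℤ) : ℂ) := by
      rw [h2]
    push_cast at h3
    exact h3
  rw [h1]
  split_ifs with h
  · subst h
    simp
  · rw [map_zero]
    positivity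

theorem hasLip_mul {v : AbsoluteValue ℂ ℝ} (hv : Dyadic v) {P : Set ℕ} {ℓ ℓ' : Finset ℕ → ℝ}
    (h : HasLip v P 1 ℓ) (h' : HasLip v P 1 ℓ') : HasLip v P 1 (fun S => ℓ S * ℓ' S) := by
  intro T hT
  obtain ⟨F, hF, hF'⟩ := h T hT
  obtain ⟨G, hG, hG'⟩ := h' T hT
  refine ⟨fun S => F S * G S, ?_, ?_⟩
  · have := Qtw.Pro.pro_proof v hv T 1 1 F G zero_le_one zero_le_one hF hG
    rwa [one_mul] at this
  · intro S hS
    change v (F S * G S) = _
    rw [v.map_mul, hF' S hS, hG' S hS]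

theorem hasLip_prod {v : AbsoluteValue ℂ ℝ} (hv : Dyadic v) {P : Set ℕ} {ι : Type}
    (s : Finset ι) (ℓ : ι → Finset ℕ → ℝ) (h : ∀ i ∈ s, HasLip v P 1 (ℓ i)) :
    HasLip v P 1 (fun S => ∏ i ∈ s, ℓ i S) := by
  classical
  induction s using Finset.induction_on with
  | empty =>
    simp only [Finset.prod_empty]
    exact hasLip_one P
  | insert i s hi ih =>
    simp only [Finset.prod_insert hi]
    exact hasLip_mul hv (h i (mem_insert_self _ _)) (ih fun j hj => h j (mem_insert_of_mem hj))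

end Pool.Agent.Lib.MP_50bb2e_nt.Hgp
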