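import Pool.Agent.Lib.MP_50bb2e_nt.Low.Iface

/-!
MP_50bb2e_nt, board HGP (helper73). Norm-compatible systems over multiquadratic towers: the
components for the quadratic characters, their compatibility, divisibility of the cube sums.
-/

open Finset

namespace Pool.Agent.Lib.MP_50bb2e_nt.Hgp

noncomputable section

variable {G M : Type} [Group G] [AddCommGroup M] [DistribMulAction G M]

/-- the elements of `M` fixed by the kernel of the signs `c p`, `p ∈ T` -/
def Fx (c : ℕ → G →* ℤˣ) (T : Finset ℕ) : AddSubgroup M where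
  carrier := {m | ∀ g : G, (∀ p ∈ T, c p g = 1) → g • m = m}
  add_mem' := by
    intro a b ha hb g hg
    rw [smul_add, ha g hg, hb g hg]
  zero_mem' := fun g _ => smul_zero g
  neg_mem' := by
    intro a ha g hg
    rw [smul_neg, ha g hg]

/-- a norm-compatible system over the tower of multiquadratic extensions -/
structure Sy (P : Set ℕ) (c : ℕ → G →* ℤˣ) (σ : Finset ℕ → G) (z : Finset ℕ → M) : Prop where
  sig : ∀ U : Finset ℕ, (U : Set ℕ) ⊆ P → ∀ p ∈ P, c p (σ U) = if p ∈ U then -1 else 1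
  fix : ∀ T : Finset ℕ, (T : Set ℕ) ⊆ P → z T ∈ (Fx c T : AddSubgroup M)
  norm : ∀ T : Finset ℕ, (T : Set ℕ) ⊆ P → ∀ p ∈ P, p ∉ T → ∃ (a b : ℤ) (φ : G), Odd a ∧ Even b ∧
    z (insert p T) + σ {p} • z (insert p T) = a • z T - b • φ • z T
  two : ∀ T : Finset ℕ, (T : Set ℕ) ⊆ P → ∀ m ∈ (Fx c T : AddSubgroup M), (2 : ℤ) • m = 0 → m = 0
  nd : ∀ T : Finset ℕ, (T : Set ℕ) ⊆ P → ∀ m ∈ (Fx c T : AddSubgroup M),
    (∀ n : ℕ, 0 < n → n • m ≠ 0) → ∃ k : ℕ, ¬ ∃ n : ℤ, Odd n ∧ ∃ q ∈ (Fx c T : AddSubgroup M),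
      n • m = ((2 : ℤ) ^ k) • q

/-- the product of the signs -/
def chi (c : ℕ → G →* ℤˣ) (S : Finset ℕ) (g : G) : ℤ := ∏ p ∈ S, ((c p g : ℤˣ) : ℤ)

/-- the component of `z T` for the character attached to `S` -/
def tr (c : ℕ → G →* ℤˣ) (σ : Finset ℕ → G) (z : Finset ℕ → M) (T S : Finset ℕ) : M :=
  ∑ U ∈ T.powerset, chi c S (σ U) • σ U • z T

section

variable {c : ℕ → G →* ℤˣ}

theorem chi_mul (S : Finset ℕ) (g h : G) : chi c S (g * h) = chi c S g * chi c S h := by
  unfold chi
  rw [← Finset.prod_mul_distrib]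
  refine Finset.prod_congr rfl fun p _ => ?_
  rw [map_mul]
  push_cast
  rfl

theorem chi_congr {S : Finset ℕ} {g h : G} (H : ∀ p ∈ S, c p g = c p h) :
    chi c S g = chi c S h := by
  unfold chi
  exact Finset.prod_congr rfl fun p hp => by rw [H p hp]

theorem chi_sq (S : Finset ℕ) (g : G) : chi c S g = 1 ∨ chi c S g = -1 := by
  unfold chi
  induction S using Finset.induction_on with
  | empty => left; simp
  | insert a s ha ih =>
    rw [Finset.prod_insert ha]
    rcases Int.units_eq_one_or (c a g) with h | h <;> rcases ih with h' | h' <;> simp [h, h']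

theorem chi_mul_self (S : Finset ℕ) (g : G) : chi c S g * chi c S g = 1 := by
  rcases chi_sq (c := c) S g with h | h <;> rw [h] <;> norm_num

theorem chi_union {S S' : Finset ℕ} (h : Disjoint S S') (g : G) :
    chi c (S ∪ S') g = chi c S g * chi c S' g := Finset.prod_union h

theorem smul_congr {T : Finset ℕ} {g h : G} (H : ∀ p ∈ T, c p g = c p h) {m : M}
    (hm : m ∈ (Fx c T : AddSubgroup M)) : g • m = h • m := by
  have h1 : (h⁻¹ * g) • m = m := by
    refine hm _ fun p hp => ?_
    rw [map_mul, map_inv, H p hp, inv_mul_cancel]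
  rw [mul_smul] at h1
  rw [← h1, smul_inv_smul]
  rw [h1]

theorem smul_mem {T : Finset ℕ} (g : G) {m : M} (hm : m ∈ (Fx c T : AddSubgroup M)) :
    g • m ∈ (Fx c T : AddSubgroup M) := by
  intro k hk
  have h1 : (g⁻¹ * k * g) • m = m := by
    refine hm _ fun p hp => ?_
    rw [map_mul, map_mul, map_inv, hk p hp, mul_one, inv_mul_cancel]
  rw [← mul_smul]
  have e : k * g = g * (g⁻¹ * k * g) := by group
  rw [e, mul_smul, h1]

theorem smul_comm' {T : Finset ℕ} (g h : G) {m : M} (hm : m ∈ (Fx c T : AddSubgroup M)) :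
    g • h • m = h • g • m := by
  rw [← mul_smul, ← mul_smul]
  exact smul_congr (fun p _ => by rw [map_mul, map_mul, mul_comm]) hm

theorem fx_mono {T T' : Finset ℕ} (h : T ⊆ T') :
    (Fx c T : AddSubgroup M) ≤ Fx c T' := fun _ hm g hg => hm g fun p hp => hg p (h hp)

variable {P : Set ℕ} {σ : Finset ℕ → G} {z : Finset ℕ → M}

theorem tr_mem (hs : Sy P c σ z) {T : Finset ℕ} (hT : (T : Set ℕ) ⊆ P) (S : Finset ℕ) :
    tr c σ z T S ∈ (Fx c T : AddSubgroup M) := by
  unfold tr
  refine AddSubgroup.sum_mem _ fun U _ => ?_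
  exact AddSubgroup.zsmul_mem _ (smul_mem _ (hs.fix T hT)) _

open Classical in
theorem smul_tr (hs : Sy P c σ z) {T S : Finset ℕ} (hT : (T : Set ℕ) ⊆ P) (hS : S ⊆ T) (g : G) :
    g • tr c σ z T S = chi c S g • tr c σ z T S := by
  unfold tr
  rw [Finset.smul_sum, Finset.smul_sum]
  -- the set of the primes at which `g` is negative
  set N : Finset ℕ := T.filter (fun p => c p g = -1) with hN
  have hNT : N ⊆ T := Finset.filter_subset _ _
  have hsub : ∀ U : Finset ℕ, U ⊆ T → symmDiff U N ⊆ T := by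
    intro U hU p hp
    rw [Finset.mem_symmDiff] at hp
    rcases hp with hp | hp
    · exact hU hp.1
    · exact hNT hp.1
  have hkey : ∀ U : Finset ℕ, U ⊆ T → ∀ p ∈ T, c p (g * σ U) = c p (σ (symmDiff U N)) := by
    intro U hU p hp
    have hpP : p ∈ P := hT hp
    rw [map_mul, hs.sig U (fun x hx => hT (hU hx)) p hpP,
      hs.sig (symmDiff U N) (fun x hx => hT (hsub U hU hx)) p hpP]
    have hmN : p ∈ N ↔ c p g = -1 := by
      rw [hN, Finset.mem_filter]
      exact ⟨fun h => h.2, fun h => ⟨hp, h⟩⟩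
    rcases Int.units_eq_one_or (c p g) with h | h
    · have hnN : p ∉ N := by
        rw [hmN, h]
        decide
      by_cases hU' : p ∈ U <;> simp [Finset.mem_symmDiff, hU', hnN, h]
    · have hnN : p ∈ N := hmN.2 h
      by_cases hU' : p ∈ U <;> simp [Finset.mem_symmDiff, hU', hnN, h]
  refine Finset.sum_bij (fun U _ => symmDiff U N) ?_ ?_ ?_ ?_
  · intro U hU
    exact Finset.mem_powerset.2 (hsub U (Finset.mem_powerset.1 hU))
  · intro U _ V _ h
    exact symmDiff_left_injective N h
  · intro V hV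
    refine ⟨symmDiff V N, Finset.mem_powerset.2 (hsub V (Finset.mem_powerset.1 hV)), ?_⟩
    exact symmDiff_symmDiff_cancel_right N V
  · intro U hU
    have hU' := Finset.mem_powerset.1 hU
    have h1 : g • σ U • z T = σ (symmDiff U N) • z T := by
      rw [← mul_smul]
      exact smul_congr (hkey U hU') (hs.fix T hT)
    have h2 : chi c S (σ (symmDiff U N)) = chi c S g * chi c S (σ U) := by
      rw [← chi_mul]
      exact (chi_congr fun p hp => hkey U hU' p (hS hp)).symm
    rw [smul_comm g (chi c S (σ U)) (σ U • z T), h1, h2, ← mul_smul, ← mul_assoc, chi_mul_self,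
      one_mul]

/-- one prime more: an odd multiple -/
theorem tr_insert (hs : Sy P c σ z) {T S : Finset ℕ} (hT : (T : Set ℕ) ⊆ P) (hS : S ⊆ T) {p : ℕ}
    (hp : p ∈ P) (hpT : p ∉ T) :
    ∃ n : ℤ, Odd n ∧ tr c σ z (insert p T) S = n • tr c σ z T S := by
  obtain ⟨a, b, φ, ha, hb, hnorm⟩ := hs.norm T hT p hp hpT
  have hT' : ((insert p T : Finset ℕ) : Set ℕ) ⊆ P := by
    intro x hx
    rw [Finset.coe_insert] at hx
    rcases hx with rfl | hx
    · exact hp
    · exact hT hx
  have hsg : ((({p} : Finset ℕ)) : Set ℕ) ⊆ P := by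
    intro x hx
    rw [Finset.coe_singleton] at hx
    rw [hx]
    exact hp
  refine ⟨a - b * chi c S φ, ?_, ?_⟩
  · exact ha.sub_even (hb.mul_right _)
  · have e1 : tr c σ z (insert p T) S = ∑ U ∈ T.powerset, chi c S (σ U) •
        σ U • (z (insert p T) + σ {p} • z (insert p T)) := by
      unfold tr
      rw [Finset.sum_powerset_insert hpT, ← Finset.sum_add_distrib]
      refine Finset.sum_congr rfl fun U hU => ?_
      have hU' := Finset.mem_powerset.1 hU
      have hUP : (U : Set ℕ) ⊆ P := fun x hx => hT (hU' hx)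
      have hiU : ((insert p U : Finset ℕ) : Set ℕ) ⊆ P := by
        intro x hx
        rw [Finset.coe_insert] at hx
        rcases hx with rfl | hx
        · exact hp
        · exact hUP hx
      have hpU : p ∉ U := fun h => hpT (hU' h)
      have h1 : ∀ q ∈ insert p T, c q (σ (insert p U)) = c q (σ U * σ {p}) := by
        intro q hq
        have hqP : q ∈ P := hT' (by exact_mod_cast hq)
        rw [map_mul, hs.sig _ hiU q hqP, hs.sig _ hUP q hqP, hs.sig _ hsg q hqP]
        by_cases hqp : q = p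
        · subst hqp
          simp [hpU]
        · simp [hqp]
      have h2 : σ (insert p U) • z (insert p T) = σ U • σ {p} • z (insert p T) := by
        rw [← mul_smul]
        exact smul_congr h1 (hs.fix _ hT')
      have h3 : chi c S (σ (insert p U)) = chi c S (σ U) := by
        refine chi_congr fun q hq => ?_
        have hqP : q ∈ P := hT (hS hq)
        have hqp : q ≠ p := fun h => hpT (h ▸ hS hq)
        rw [hs.sig _ hiU q hqP, hs.sig _ hUP q hqP]
        simp [hqp]
      rw [h2, h3, smul_add (σ U), smul_add]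
    have e2 : tr c σ z (insert p T) S = a • tr c σ z T S - b • φ • tr c σ z T S := by
      rw [e1, hnorm]
      unfold tr
      rw [Finset.smul_sum, Finset.smul_sum, Finset.smul_sum, ← Finset.sum_sub_distrib]
      refine Finset.sum_congr rfl fun U _ => ?_
      rw [smul_sub, smul_sub, smul_comm (σ U) a, smul_comm (chi c S (σ U)) a,
        smul_comm (σ U) b, smul_comm (chi c S (σ U)) b, smul_comm' (σ U) φ (hs.fix T hT),
        smul_comm φ (chi c S (σ U))]
    rw [e2, smul_tr hs hT hS φ, sub_smul, mul_smul]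

theorem tr_ext (hs : Sy P c σ z) {T S : Finset ℕ} (hT : (T : Set ℕ) ⊆ P) (hS : S ⊆ T) :
    ∃ n : ℤ, Odd n ∧ tr c σ z T S = n • tr c σ z S S := by
  have key : ∀ R : Finset ℕ, (R : Set ℕ) ⊆ P → Disjoint R S →
      ∃ n : ℤ, Odd n ∧ tr c σ z (R ∪ S) S = n • tr c σ z S S := by
    intro R
    induction R using Finset.induction_on with
    | empty =>
      intro _ _
      exact ⟨1, odd_one, by simp⟩
    | insert p R hpR ih =>
      intro hR hd
      have hRP : (R : Set ℕ) ⊆ P := fun x hx => hR (by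
        rw [Finset.coe_insert]; exact Set.mem_insert_of_mem _ hx)
      have hpP : p ∈ P := hR (by rw [Finset.coe_insert]; exact Set.mem_insert _ _)
      rw [Finset.disjoint_insert_left] at hd
      obtain ⟨n, hn, h1⟩ := ih hRP hd.2
      have hRS : ((R ∪ S : Finset ℕ) : Set ℕ) ⊆ P := by
        intro x hx
        rw [Finset.coe_union] at hx
        rcases hx with hx | hx
        · exact hRP hx
        · exact hT (hS hx)
      have hpn : p ∉ R ∪ S := by
        rw [Finset.mem_union]
        rintro (h | h)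
        · exact hpR h
        · exact hd.1 h
      obtain ⟨n', hn', h2⟩ := tr_insert hs hRS Finset.subset_union_right hpP hpn
      refine ⟨n' * n, hn'.mul hn, ?_⟩
      rw [Finset.insert_union, h2, h1, mul_smul]
  have h := key (T \ S) (fun x hx => hT (by
    rw [Finset.coe_sdiff] at hx; exact hx.1)) Finset.sdiff_disjoint
  rwa [Finset.sdiff_union_of_subset hS] at h

/-- the alternating sums over cubes are divisible -/
theorem tr_cube (hs : Sy P c σ z) {T : Finset ℕ} (hT : (T : Set ℕ) ⊆ P) {C W : Finset ℕ}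
    (hd : Disjoint C W) :
    ∃ q ∈ (Fx c T : AddSubgroup M), ∑ S ∈ W.powerset, ((-1 : ℤ) ^ S.card) • tr c σ z T (C ∪ S) =
      ((2 : ℤ) ^ W.card) • q := by
  classical
  have hprod : ∀ g : G, ∑ S ∈ W.powerset, ((-1 : ℤ) ^ S.card) * chi c (C ∪ S) g =
      chi c C g * ∏ p ∈ W, (1 - ((c p g : ℤˣ) : ℤ)) := by
    intro g
    have e1 : ∏ p ∈ W, (1 - ((c p g : ℤˣ) : ℤ)) =
        ∑ S ∈ W.powerset, ∏ p ∈ S, (-((c p g : ℤˣ) : ℤ)) := by
      rw [← Finset.prod_one_add]
      refine Finset.prod_congr rfl fun p _ => by ring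
    rw [e1, Finset.mul_sum]
    refine Finset.sum_congr rfl fun S hS => ?_
    have hdS : Disjoint C S := Finset.disjoint_of_subset_right (Finset.mem_powerset.1 hS) hd
    rw [chi_union hdS, Finset.prod_neg]
    unfold chi
    ring
  have hval : ∀ g : G, ∃ k : ℤ, ∏ p ∈ W, (1 - ((c p g : ℤˣ) : ℤ)) = 2 ^ W.card * k := by
    intro g
    have : (2 : ℤ) ^ W.card ∣ ∏ p ∈ W, (1 - ((c p g : ℤˣ) : ℤ)) := by
      rw [← Finset.prod_const]
      refine Finset.prod_dvd_prod_of_dvd _ _ fun p _ => ?_
      rcases Int.units_eq_one_or (c p g) with h | h <;> simp [h]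
    exact this
  choose k hk using hval
  refine ⟨∑ U ∈ T.powerset, (chi c C (σ U) * k (σ U)) • σ U • z T, ?_, ?_⟩
  · refine AddSubgroup.sum_mem _ fun U _ => ?_
    exact AddSubgroup.zsmul_mem _ (smul_mem _ (hs.fix T hT)) _
  · unfold tr
    simp only [Finset.smul_sum]
    rw [Finset.sum_comm]
    refine Finset.sum_congr rfl fun U _ => ?_
    simp only [← mul_smul]
    rw [← Finset.sum_smul]
    congr 1
    rw [hprod, hk]
    ring

end

end

end Pool.Agent.Lib.MP_50bb2e_nt.Hgp
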